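import Pool.Agent.Helper76.SH.Defs

/-!
# MP_506470_co, module F : the complement of `R(3)` as a coloured linear order
-/

namespace SetHom

namespace DyadicModel

/-- dyadic rationals -/
def IsDy (q : ℚ) : Prop := ∃ (n : ℕ) (k : ℤ), q = k / 2 ^ n

theorem IsDy.sub {a b : ℚ} (ha : IsDy a) (hb : IsDy b) : IsDy (a - b) := by
  obtain ⟨n, k, rfl⟩ := ha
  obtain ⟨m, l, rfl⟩ := hb
  refine ⟨n + m, k * 2 ^ m - l * 2 ^ n, ?_⟩
  have h2 : (2 : ℚ) ≠ 0 := two_ne_zero
  push_cast
  rw [pow_add]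
  field_simp

theorem IsDy.three {q : ℚ} (h : IsDy q) (m : ℤ) (h3 : 3 * q = m) : ∃ k : ℤ, q = k := by
  obtain ⟨n, k, rfl⟩ := h
  have h2 : (2 : ℚ) ^ n ≠ 0 := pow_ne_zero _ two_ne_zero
  have h4 : (3 * k : ℤ) = m * 2 ^ n := by
    have : (3 : ℚ) * k = m * 2 ^ n := by
      field_simp at h3
      linarith
    exact_mod_cast this
  have h5 : (3 : ℤ) ∣ m * 2 ^ n := ⟨k, h4.symm⟩
  have h6 : IsCoprime (3 : ℤ) (2 ^ n) := by
    apply IsCoprime.pow_right
    exact ⟨1, -1, by norm_num⟩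
  obtain ⟨m', rfl⟩ := h6.dvd_of_dvd_mul_right h5
  refine ⟨m', ?_⟩
  push_cast at h3
  linarith

/-- dyadic rationals are dense -/
theorem exists_dy (a b : ℚ) (h : a < b) : ∃ q, IsDy q ∧ a < q ∧ q < b := by
  obtain ⟨n, hn⟩ := pow_unbounded_of_one_lt (1 / (b - a)) (by norm_num : (1 : ℚ) < 2)
  have h2 : (0 : ℚ) < 2 ^ n := by positivity
  have hba : 0 < b - a := by linarith
  refine ⟨((⌊a * 2 ^ n⌋ + 1 : ℤ) : ℚ) / 2 ^ n, ⟨n, _, rfl⟩, ?_, ?_⟩
  · rw [lt_div_iff₀ h2]
    push_cast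
    exact Int.lt_floor_add_one _
  · rw [div_lt_iff₀ h2]
    push_cast
    have h3 := Int.floor_le (a * 2 ^ n)
    have h4 : 1 < (b - a) * 2 ^ n := by
      rw [div_lt_iff₀ hba] at hn
      linarith
    nlinarith

/-- the points different from the base point -/
def X : Type := {q : ℚ // 0 < q ∧ q < 1 ∧ IsDy q}

/-- the key -/
def key (x : X) : ℚ := Int.fract (3 * x.1)

theorem key_injective : Function.Injective key := by
  rintro ⟨x, hx0, hx1, hx⟩ ⟨y, hy0, hy1, hy⟩ h
  simp only [key] at h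
  rw [Int.fract_eq_fract] at h
  obtain ⟨z, hz⟩ := h
  obtain ⟨k, hk⟩ := (hx.sub hy).three z (by linarith)
  have h1 : (k : ℚ) < 1 := by linarith
  have h2 : (-1 : ℚ) < k := by linarith
  have h1' : k < 1 := by exact_mod_cast h1
  have h2' : -1 < k := by exact_mod_cast h2
  have h3 : k = 0 := by omega
  subst h3
  apply Subtype.ext
  push_cast at hk
  simp only
  linarith

noncomputable instance : LinearOrder X := LinearOrder.lift' key key_injective

theorem lt_iff (x y : X) : x < y ↔ key x < key y := Iff.rfl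

/-- the colours -/
def col (x : X) : Fin 3 := if x.1 < 1 / 3 then 2 else if x.1 < 2 / 3 then 0 else 1

theorem not_third (q : ℚ) (h : IsDy q) (m : ℤ) (h1 : ∀ k : ℤ, m ≠ 3 * k) : 3 * q ≠ m := by
  intro h3
  obtain ⟨k, rfl⟩ := h.three m h3
  exact h1 k (by exact_mod_cast h3.symm)

theorem cases3 (x : X) :
    (col x = 2 ∧ 0 < x.1 ∧ x.1 < 1 / 3 ∧ key x = 3 * x.1) ∨
    (col x = 0 ∧ 1 / 3 < x.1 ∧ x.1 < 2 / 3 ∧ key x = 3 * x.1 - 1) ∨
    (col x = 1 ∧ 2 / 3 < x.1 ∧ x.1 < 1 ∧ key x = 3 * x.1 - 2) := by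
  obtain ⟨x, hx0, hx1, hx⟩ := x
  have n1 : 3 * x ≠ ((1 : ℤ) : ℚ) := not_third x hx 1 (fun k => by omega)
  have n2 : 3 * x ≠ ((2 : ℤ) : ℚ) := not_third x hx 2 (fun k => by omega)
  push_cast at n1 n2
  simp only [col, key]
  by_cases h1 : x < 1 / 3
  · left
    refine ⟨by rw [if_pos h1], hx0, h1, ?_⟩
    rw [Int.fract_eq_iff]
    exact ⟨by linarith, by linarith, 0, by push_cast; ring⟩
  · right
    have h1' : 1 / 3 < x := by
      rcases lt_or_eq_of_le (not_lt.1 h1) with h | h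
      · exact h
      · exact absurd (by rw [← h]; norm_num) n1
    by_cases h2 : x < 2 / 3
    · left
      refine ⟨by rw [if_neg h1, if_pos h2], h1', h2, ?_⟩
      rw [Int.fract_eq_iff]
      exact ⟨by linarith, by linarith, 1, by push_cast; ring⟩
    · right
      have h2' : 2 / 3 < x := by
        rcases lt_or_eq_of_le (not_lt.1 h2) with h | h
        · exact h
        · exact absurd (by rw [← h]; norm_num) n2
      refine ⟨by rw [if_neg h1, if_neg h2], h2', hx1, ?_⟩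
      rw [Int.fract_eq_iff]
      exact ⟨by linarith, by linarith, 2, by push_cast; ring⟩

theorem exists_between (a b : ℚ) (ha : 0 ≤ a) (hab : a < b) (hb : b ≤ 1) (i : Fin 3) :
    ∃ z : X, a < key z ∧ key z < b ∧ col z = i := by
  have main : ∀ j : ℕ, j < 3 → ∃ z : X, (a + j) / 3 < z.1 ∧ z.1 < (b + j) / 3 := by
    intro j hj
    obtain ⟨q, hq, h1, h2⟩ := exists_dy ((a + j) / 3) ((b + j) / 3) (by linarith)
    have hj0 : (0 : ℚ) ≤ j := Nat.cast_nonneg j
    have hj2 : (j : ℚ) ≤ 2 := by exact_mod_cast (by omega : j ≤ 2)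
    exact ⟨⟨q, by linarith, by linarith, hq⟩, h1, h2⟩
  fin_cases i
  · obtain ⟨z, h1, h2⟩ := main 1 (by norm_num)
    push_cast at h1 h2
    refine ⟨z, ?_⟩
    rcases cases3 z with h | h | h
    · exfalso; linarith [h.2.2.1]
    · exact ⟨by linarith [h.2.2.2], by linarith [h.2.2.2], h.1⟩
    · exfalso; linarith [h.2.1]
  · obtain ⟨z, h1, h2⟩ := main 2 (by norm_num)
    push_cast at h1 h2
    refine ⟨z, ?_⟩
    rcases cases3 z with h | h | h
    · exfalso; linarith [h.2.2.1]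
    · exfalso; linarith [h.2.2.1]
    · exact ⟨by linarith [h.2.2.2], by linarith [h.2.2.2], h.1⟩
  · obtain ⟨z, h1, h2⟩ := main 0 (by norm_num)
    push_cast at h1 h2
    refine ⟨z, ?_⟩
    rcases cases3 z with h | h | h
    · exact ⟨by linarith [h.2.2.2], by linarith [h.2.2.2], h.1⟩
    · exfalso; linarith [h.2.1]
    · exfalso; linarith [h.2.1]

theorem key_pos (x : X) : 0 < key x := by
  rcases cases3 x with h | h | h <;> linarith [h.2.1, h.2.2.2]

theorem key_lt_one (x : X) : key x < 1 := Int.fract_lt_one _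

theorem dense3 : Dense3 col where
  btw x y hxy i := by
    obtain ⟨z, h1, h2, h3⟩ := exists_between (key x) (key y) (key_pos x).le hxy
      (key_lt_one y).le i
    exact ⟨z, h1, h2, h3⟩
  below x i := by
    obtain ⟨z, h1, h2, h3⟩ := exists_between 0 (key x) le_rfl (key_pos x) (key_lt_one x).le i
    exact ⟨z, h2, h3⟩
  above x i := by
    obtain ⟨z, h1, h2, h3⟩ := exists_between (key x) 1 (key_pos x).le (key_lt_one x) le_rfl i
    exact ⟨z, h1, h3⟩

theorem S3_iff (a b : Dy) : S3 a b ↔ (0 < b.1 - a.1 ∧ b.1 - a.1 < 1 / 3) ∨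
    b.1 - a.1 < - (2 / 3) := by
  obtain ⟨a, ha0, ha1, ha⟩ := a
  obtain ⟨b, hb0, hb1, hb⟩ := b
  simp only [S3]
  by_cases h : 0 ≤ b - a
  · have : Int.fract (b - a) = b - a := by
      rw [Int.fract_eq_iff]
      exact ⟨h, by linarith, 0, by push_cast; ring⟩
    rw [this]
    constructor
    · intro h'; exact Or.inl h'
    · rintro (h' | h')
      · exact h'
      · exfalso; linarith
  · have : Int.fract (b - a) = b - a + 1 := by
      rw [Int.fract_eq_iff]
      exact ⟨by linarith, by linarith, -1, by push_cast; ring⟩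
    rw [this]
    constructor
    · rintro ⟨h1, h2⟩; right; linarith
    · rintro (h' | h')
      · exfalso; linarith
      · exact ⟨by linarith, by linarith⟩

theorem compl_adj_iff (a b : Dy) : R3ᶜ.Adj a b ↔
    (1 / 3 < b.1 - a.1 ∧ b.1 - a.1 < 2 / 3) ∨ (1 / 3 < a.1 - b.1 ∧ a.1 - b.1 < 2 / 3) := by
  rw [SimpleGraph.compl_adj]
  have hR : R3.Adj a b ↔ S3 a b ∨ S3 b a := Iff.rfl
  rw [hR, S3_iff, S3_iff]
  have hne : a ≠ b ↔ b.1 - a.1 ≠ 0 := by
    rw [Ne, Ne, not_iff_not]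
    constructor
    · rintro rfl; ring
    · intro h; exact Subtype.ext (by linarith)
  rw [hne]
  obtain ⟨a, ha0, ha1, ha⟩ := a
  obtain ⟨b, hb0, hb1, hb⟩ := b
  simp only
  have hd : IsDy (b - a) := IsDy.sub hb ha
  have n1 : 3 * (b - a) ≠ ((1 : ℤ) : ℚ) := not_third _ hd 1 (fun k => by omega)
  have n2 : 3 * (b - a) ≠ ((2 : ℤ) : ℚ) := not_third _ hd 2 (fun k => by omega)
  have n3 : 3 * (b - a) ≠ ((-1 : ℤ) : ℚ) := not_third _ hd (-1) (fun k => by omega)
  have n4 : 3 * (b - a) ≠ ((-2 : ℤ) : ℚ) := not_third _ hd (-2) (fun k => by omega)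
  push_cast at n1 n2 n3 n4
  constructor
  · rintro ⟨h0, h⟩
    push Not at h
    obtain ⟨⟨h1, h2⟩, h3, h4⟩ := h
    rcases lt_or_gt_of_ne h0 with hlt | hgt
    · right
      have h5 := h3 (by linarith)
      refine ⟨lt_of_le_of_ne h5 ?_, lt_of_le_of_ne (by linarith) ?_⟩
      · intro h6; apply n3; linarith
      · intro h6; apply n4; linarith
    · left
      have h5 := h1 (by linarith)
      refine ⟨lt_of_le_of_ne h5 ?_, lt_of_le_of_ne (by linarith) ?_⟩
      · intro h6; apply n1; linarith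
      · intro h6; apply n2; linarith
  · rintro (⟨h1, h2⟩ | ⟨h1, h2⟩)
    · refine ⟨by linarith, ?_⟩
      rintro ((⟨h3, h4⟩ | h3) | (⟨h3, h4⟩ | h3)) <;> linarith
    · refine ⟨by linarith, ?_⟩
      rintro ((⟨h3, h4⟩ | h3) | (⟨h3, h4⟩ | h3)) <;> linarith

/-- the base point -/
def base : Dy := ⟨0, le_rfl, one_pos, 0, 0, by norm_num⟩

/-- the bijection -/
def toDy : Option X → Dy
  | none => base
  | some x => ⟨x.1, x.2.1.le, x.2.2.1, x.2.2.2⟩

theorem toDy_bijective : Function.Bijective toDy := by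
  constructor
  · rintro (_ | x) (_ | y) h
    · rfl
    · exfalso
      have : (0 : ℚ) = y.1 := congrArg Subtype.val h
      linarith [y.2.1]
    · exfalso
      have : x.1 = (0 : ℚ) := congrArg Subtype.val h
      linarith [x.2.1]
    · have : x.1 = y.1 := congrArg (fun d : Dy => d.1) h
      exact congrArg some (Subtype.ext this)
  · rintro ⟨q, h0, h1, h2⟩
    rcases h0.eq_or_lt with h | h
    · refine ⟨none, Subtype.ext ?_⟩
      exact h
    · exact ⟨some ⟨q, h, h1, h2⟩, rfl⟩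

theorem adj_some (x y : X) : R3ᶜ.Adj (toDy (some x)) (toDy (some y)) ↔
    triRel col x y ∨ triRel col y x := by
  rw [compl_adj_iff]
  simp only [toDy, triRel, lt_iff]
  have e01 : (0 : Fin 3) ≠ 1 := by decide
  have e02 : (0 : Fin 3) ≠ 2 := by decide
  have e12 : (1 : Fin 3) ≠ 2 := by decide
  rcases cases3 x with ⟨cx, hx1, hx2, kx⟩ | ⟨cx, hx1, hx2, kx⟩ | ⟨cx, hx1, hx2, kx⟩ <;>
  rcases cases3 y with ⟨cy, hy1, hy2, ky⟩ | ⟨cy, hy1, hy2, ky⟩ | ⟨cy, hy1, hy2, ky⟩ <;>
  rw [cx, cy, kx, ky] <;>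
  simp only [e01, e02, e12, e01.symm, e02.symm, e12.symm, false_and, and_false, or_false,
    false_or, true_and, iff_false, not_or, not_and, not_lt]
  · exact ⟨fun h => by linarith, fun h => by linarith⟩
  · constructor
    · rintro (⟨h1, h2⟩ | ⟨h1, h2⟩) <;> linarith
    · intro h; left; exact ⟨by linarith, by linarith⟩
  · constructor
    · rintro (⟨h1, h2⟩ | ⟨h1, h2⟩) <;> linarith
    · intro h; left; exact ⟨by linarith, by linarith⟩
  · constructor
    · rintro (⟨h1, h2⟩ | ⟨h1, h2⟩) <;> linarith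
    · intro h; right; exact ⟨by linarith, by linarith⟩
  · exact ⟨fun h => by linarith, fun h => by linarith⟩
  · constructor
    · rintro (⟨h1, h2⟩ | ⟨h1, h2⟩) <;> linarith
    · intro h; left; exact ⟨by linarith, by linarith⟩
  · constructor
    · rintro (⟨h1, h2⟩ | ⟨h1, h2⟩) <;> linarith
    · intro h; right; exact ⟨by linarith, by linarith⟩
  · constructor
    · rintro (⟨h1, h2⟩ | ⟨h1, h2⟩) <;> linarith
    · intro h; right; exact ⟨by linarith, by linarith⟩
  · exact ⟨fun h => by linarith, fun h => by linarith⟩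

theorem adj_none (y : X) : R3ᶜ.Adj (toDy none) (toDy (some y)) ↔ col y = 0 := by
  rw [compl_adj_iff]
  simp only [toDy, base]
  rcases cases3 y with ⟨cy, hy1, hy2, ky⟩ | ⟨cy, hy1, hy2, ky⟩ | ⟨cy, hy1, hy2, ky⟩ <;>
  rw [cy]
  · refine ⟨?_, fun h => absurd h (by decide)⟩
    rintro (⟨h1, h2⟩ | ⟨h1, h2⟩) <;> exfalso <;> linarith
  · exact ⟨fun _ => rfl, fun _ => Or.inl ⟨by linarith, by linarith⟩⟩
  · refine ⟨?_, fun h => absurd h (by decide)⟩
    rintro (⟨h1, h2⟩ | ⟨h1, h2⟩) <;> exfalso <;> linarith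

theorem adj_iff (a b : Option X) : R3ᶜ.Adj (toDy a) (toDy b) ↔ (tri col).Adj a b := by
  rcases a with _ | x <;> rcases b with _ | y
  · exact ⟨fun h => absurd rfl h.ne, fun h => absurd rfl h.ne⟩
  · exact adj_none y
  · rw [SimpleGraph.adj_comm]
    exact adj_none x
  · exact adj_some x y

end DyadicModel

open DyadicModel

theorem dyadic_model :
    ∃ (X : Type) (_ : LinearOrder X) (_ : Countable X) (_ : Nonempty X) (c : X → Fin 3),
      Dense3 c ∧ Nonempty (R3ᶜ ≃g tri c) := by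
  refine ⟨DyadicModel.X, inferInstance, ?_, ?_, col, dense3, ⟨RelIso.symm ?_⟩⟩
  · exact Subtype.countable
  · exact ⟨⟨1 / 2, by norm_num, by norm_num, 1, 1, by norm_num⟩⟩
  · exact { toEquiv := Equiv.ofBijective toDy toDy_bijective
            map_rel_iff' := fun {a b} => adj_iff a b }

end SetHom
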