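import Pool.Agent.Helper76.SH.Defs

/-!
# MP_506470_co, module B : a linear order whose increasing partial maps come from the group
-/

namespace SetHom

open Filter

namespace ExistsOrder

/-- The iterated ultrafilter quantifier. -/
def Q {Ω : Type*} (U : Ultrafilter Ω) (P : List Ω → Prop) : ℕ → List Ω → Prop
  | 0, l => P l
  | n + 1, l => ∀ᶠ x in (U : Filter Ω), Q U P n (l ++ [x])

theorem Q_exists {Ω ι : Type*} (U : Ultrafilter Ω) (s : Finset ι) (P : ι → List Ω → Prop) :
    ∀ (n : ℕ) (l : List Ω), Q U (fun m => ∃ i ∈ s, P i m) n l → ∃ i ∈ s, Q U (P i) n l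
  | 0, l, h => h
  | n + 1, l, h => by
      have h1 : ∀ᶠ x in (U : Filter Ω), ∃ i ∈ s, Q U (P i) n (l ++ [x]) := by
        refine Filter.Eventually.mono h fun x hx => Q_exists U s P n (l ++ [x]) hx
      have h2 := (Ultrafilter.eventually_exists_mem_iff (f := U) (is := (s : Set ι))
        s.finite_toSet (P := fun i x => Q U (P i) n (l ++ [x]))).1 (by simpa using h1)
      obtain ⟨i, hi, h3⟩ := h2
      exact ⟨i, by simpa using hi, h3⟩

theorem Q_nodup {Ω : Type*} [Infinite Ω] (U : Ultrafilter Ω) (hU : (U : Filter Ω) ≤ cofinite)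
    (P : List Ω → Prop) (N : ℕ) (hP : ∀ m : List Ω, m.Nodup → m.length = N → P m) :
    ∀ (n : ℕ) (l : List Ω), l.Nodup → l.length + n = N → Q U P n l
  | 0, l, h, h' => hP l h (by simpa using h')
  | n + 1, l, h, h' => by
      have h1 : ∀ᶠ x in (U : Filter Ω), x ∉ l := by
        apply hU
        have : {x | x ∈ l}.Finite := List.finite_toSet l
        exact this.compl_mem_cofinite
      refine Filter.Eventually.mono h1 fun x hx => ?_
      apply Q_nodup U hU P N hP n (l ++ [x])
      · rw [List.nodup_append]
        refine ⟨h, by simp, ?_⟩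
        intro a ha b hb
        simp only [List.mem_singleton] at hb
        subst hb
        rintro rfl
        exact hx ha
      · simp only [List.length_append, List.length_singleton]; omega

/-- Equivalence of lists under the group. -/
def Eqv {Ω : Type*} (Γ : Subgroup (Equiv.Perm Ω)) (l l' : List Ω) : Prop :=
  ∃ g ∈ Γ, l.map g = l'

theorem Eqv.symm {Ω : Type*} {Γ : Subgroup (Equiv.Perm Ω)} {l l' : List Ω} (h : Eqv Γ l l') :
    Eqv Γ l' l := by
  obtain ⟨g, hg, rfl⟩ := h
  refine ⟨g⁻¹, Γ.inv_mem hg, ?_⟩
  simp [List.map_map, Function.comp_def]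

theorem Eqv.trans {Ω : Type*} {Γ : Subgroup (Equiv.Perm Ω)} {l l' l'' : List Ω}
    (h : Eqv Γ l l') (h' : Eqv Γ l' l'') : Eqv Γ l l'' := by
  obtain ⟨g, hg, rfl⟩ := h
  obtain ⟨g', hg', rfl⟩ := h'
  refine ⟨g' * g, Γ.mul_mem hg' hg, ?_⟩
  simp [List.map_map, Function.comp_def]

/-- The chosen class of lists of length `n`. -/
theorem exists_class {Ω : Type*} [Infinite Ω] (Γ : Subgroup (Equiv.Perm Ω))
    (h : ∀ S S' : Finset Ω, S.card = S'.card → 2 ≤ S.card →
      ∃ g ∈ Γ, g '' (S : Set Ω) = (S' : Set Ω))
    (U : Ultrafilter Ω) (hU : (U : Filter Ω) ≤ cofinite) (n : ℕ) (hn : 2 ≤ n) :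
    ∃ k : List Ω, Q U (fun m => Eqv Γ m k) n [] := by
  classical
  obtain ⟨S, hS⟩ : ∃ S : Finset Ω, S.card = n := Infinite.exists_subset_card_eq Ω n
  have hfin : {k : List Ω | k.Nodup ∧ k.toFinset = S}.Finite := by
    have : {k : List Ω | k.Nodup ∧ k.toFinset = S} ⊆
        (fun k : List S => k.map Subtype.val) '' {k : List S | k.length ≤ n} := by
      rintro k ⟨hk, hk'⟩
      refine ⟨k.attach.map fun x => ⟨x.1, by rw [← hk']; simpa using x.2⟩, ?_, ?_⟩
      · simp only [Set.mem_ofPred_eq, List.length_map, List.length_attach]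
        rw [← hS, ← hk', List.toFinset_card_of_nodup hk]
      · simp [List.map_map, Function.comp_def]
    exact (Set.Finite.image _ (List.finite_length_le _ _)).subset this
  obtain ⟨k, -, hk⟩ := Q_exists U hfin.toFinset (fun k m => Eqv Γ m k) n [] (by
    apply Q_nodup U hU _ n _ n [] (by simp) (by simp)
    intro m hm hml
    have hcard : m.toFinset.card = S.card := by
      rw [List.toFinset_card_of_nodup hm, hml, hS]
    obtain ⟨g, hg, hgS⟩ := h m.toFinset S hcard (by rw [hcard, hS]; exact hn)
    refine ⟨m.map g, ?_, g, hg, rfl⟩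
    simp only [Set.Finite.mem_toFinset, Set.mem_ofPred_eq]
    refine ⟨hm.map g.injective, ?_⟩
    apply Finset.coe_injective
    rw [← hgS]
    ext x
    simp only [List.coe_toFinset, Set.mem_ofPred_eq, List.mem_map, Set.mem_image])
  exact ⟨k, hk⟩

theorem exists_long {Ω : Type*} [Infinite Ω]
    (U : Ultrafilter Ω) (hU : (U : Filter Ω) ≤ cofinite) (P : ℕ → List Ω → Prop)
    (hP : ∀ n, Q U (P n) n []) (N : ℕ) : ∀ k : ℕ, k ≤ N → ∃ l : List Ω, l.length = k ∧ l.Nodup ∧
      ∀ m, m.Sublist l → ∀ n ≤ N, ∀ j, m.length + j = n → Q U (P n) j m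
  | 0, _ => by
      refine ⟨[], rfl, List.nodup_nil, ?_⟩
      intro m hm n _ j hj
      rw [List.sublist_nil] at hm
      subst hm
      simp only [List.length_nil, zero_add] at hj
      subst hj
      exact hP _
  | k + 1, hk => by
      obtain ⟨l, hl, hnd, hq⟩ := exists_long U hU P hP N k (by omega)
      have h1 : ∀ᶠ x in (U : Filter Ω), x ∉ l := by
        apply hU
        have : {x | x ∈ l}.Finite := List.finite_toSet l
        exact this.compl_mem_cofinite
      have h2 : ∀ᶠ x in (U : Filter Ω), ∀ m ∈ {m : List Ω | m.Sublist l}, ∀ n ∈ Set.Iic N,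
          m.length < n → Q U (P n) (n - m.length - 1) (m ++ [x]) := by
        have hf : {m : List Ω | m.Sublist l}.Finite := by
          have : {m : List Ω | m.Sublist l} = {m | m ∈ l.sublists} := by
            ext m; simp
          rw [this]
          exact List.finite_toSet _
        rw [Filter.eventually_all_finite hf]
        intro m hm
        rw [Filter.eventually_all_finite (Set.finite_Iic N)]
        intro n hn
        by_cases hlt : m.length < n
        · have := hq m hm n hn (n - m.length - 1 + 1) (by omega)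
          exact Filter.Eventually.mono this fun x hx _ => hx
        · exact Filter.Eventually.of_forall fun x h' => absurd h' hlt
      obtain ⟨x, hx1, hx2⟩ := (h1.and h2).exists
      refine ⟨l ++ [x], by simp [hl], ?_, ?_⟩
      · rw [List.nodup_append]
        refine ⟨hnd, by simp, ?_⟩
        intro a ha b hb
        simp only [List.mem_singleton] at hb
        subst hb
        rintro rfl
        exact hx1 ha
      · intro m hm n hn j hj
        rw [List.sublist_append_iff] at hm
        obtain ⟨m1, m2, rfl, hm1, hm2⟩ := hm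
        rw [List.sublist_singleton] at hm2
        rcases hm2 with rfl | rfl
        · simp only [List.append_nil] at hj ⊢
          exact hq m1 hm1 n hn j hj
        · have hj' : m1.length + 1 + j = n := by simpa using hj
          have := hx2 m1 hm1 n hn (by omega)
          have hjj : n - m1.length - 1 = j := by omega
          rwa [hjj] at this

end ExistsOrder

open ExistsOrder

theorem exists_order {Ω : Type*} [Infinite Ω] (Γ : Subgroup (Equiv.Perm Ω))
    (h : ∀ S S' : Finset Ω, S.card = S'.card → 2 ≤ S.card →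
      ∃ g ∈ Γ, g '' (S : Set Ω) = (S' : Set Ω)) :
    ∃ _ : LinearOrder Ω, GO Γ := by
  classical
  let U : Ultrafilter Ω := hyperfilter Ω
  have hU : (U : Filter Ω) ≤ cofinite := Filter.hyperfilter_le_cofinite
  -- the classes
  have hK : ∀ n : ℕ, ∃ k : List Ω, 2 ≤ n → Q U (fun m => Eqv Γ m k) n [] := by
    intro n
    by_cases hn : 2 ≤ n
    · obtain ⟨k, hk⟩ := exists_class Γ h U hU n hn
      exact ⟨k, fun _ => hk⟩
    · exact ⟨[], fun h' => absurd h' hn⟩
  choose K hK using hK
  let P : ℕ → List Ω → Prop := fun n m => 2 ≤ n → Eqv Γ m (K n)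
  have hP : ∀ n, Q U (P n) n [] := by
    intro n
    by_cases hn : 2 ≤ n
    · have : P n = fun m => Eqv Γ m (K n) := by
        funext m
        simp [P, hn]
      rw [this]
      exact hK n hn
    · apply Q_nodup U hU _ n _ n [] (by simp) (by simp)
      intro m _ _ h'
      exact absurd h' hn
  -- orderings of finite sets
  have hL : ∀ S : Finset Ω, ∃ l : List Ω, 2 ≤ S.card → l.Nodup ∧ l.toFinset = S ∧
      ∀ m, m.Sublist l → 2 ≤ m.length → Eqv Γ m (K m.length) := by
    intro S
    by_cases hS : 2 ≤ S.card
    · obtain ⟨l, hl, hnd, hq⟩ := exists_long U hU P hP S.card S.card le_rfl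
      have hcard : l.toFinset.card = S.card := by
        rw [List.toFinset_card_of_nodup hnd, hl]
      obtain ⟨g, hg, hgS⟩ := h l.toFinset S hcard (by omega)
      refine ⟨l.map g, fun _ => ⟨hnd.map g.injective, ?_, ?_⟩⟩
      · apply Finset.coe_injective
        rw [← hgS]
        ext x
        simp only [List.coe_toFinset, Set.mem_ofPred_eq, List.mem_map, Set.mem_image]
      · intro m hm hm2
        rw [List.sublist_map_iff] at hm
        obtain ⟨m', hm', rfl⟩ := hm
        have h1 := hq m' hm' m'.length (by rw [← hl]; exact hm'.length_le) 0 (by simp)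
        simp only [List.length_map] at hm2 ⊢
        have h2 : Eqv Γ m' (K m'.length) := h1 hm2
        have h3 : Eqv Γ m' (m'.map g) := ⟨g, hg, rfl⟩
        exact h3.symm.trans h2
    · exact ⟨[], fun h' => absurd h' hS⟩
  choose L hL using hL
  -- compactness
  let W : Ultrafilter (Finset Ω) := Ultrafilter.of atTop
  have hW : (W : Filter (Finset Ω)) ≤ atTop := Ultrafilter.of_le _
  let r : Ω → Ω → Prop := fun x y => ∀ᶠ S in (W : Filter (Finset Ω)),
    (L S).idxOf x < (L S).idxOf y
  have hmem : ∀ x : Ω, ∀ᶠ S in (W : Filter (Finset Ω)), x ∈ S := by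
    intro x
    apply hW
    filter_upwards [Filter.eventually_ge_atTop ({x} : Finset Ω)] with S hS
    exact hS (by simp)
  have hcard : ∀ᶠ S in (W : Filter (Finset Ω)), 2 ≤ S.card := by
    apply hW
    obtain ⟨T, hT⟩ : ∃ T : Finset Ω, T.card = 2 := Infinite.exists_subset_card_eq Ω 2
    filter_upwards [Filter.eventually_ge_atTop T] with S hS
    rw [← hT]
    exact Finset.card_le_card hS
  have hsto : IsStrictTotalOrder Ω r := by
    refine { trichotomous := ?_, irrefl := ?_, trans := ?_ }
    · intro x y h1 h2
      by_contra hxy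
      have h1' := Ultrafilter.eventually_not.2 h1
      have h2' := Ultrafilter.eventually_not.2 h2
      obtain ⟨S, hS1, hS2, hS3, hS4⟩ := (h1'.and (h2'.and ((hmem x).and hcard))).exists
      have h3 : (L S).idxOf x = (L S).idxOf y := by omega
      have hx : x ∈ L S := by
        rw [← List.mem_toFinset, (hL S hS4).2.1]
        exact hS3
      exact hxy ((List.idxOf_inj hx).1 h3)
    · intro x hx
      obtain ⟨S, hS⟩ := hx.exists
      omega
    · intro x y z hxy hyz
      filter_upwards [hxy, hyz] with S h1 h2
      omega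
  have key : ∀ l : List Ω, l.Pairwise r → 2 ≤ l.length → Eqv Γ l (K l.length) := by
    intro l hl hl2
    have h1 : ∀ᶠ S in (W : Filter (Finset Ω)), ∀ x ∈ {x | x ∈ l}, x ∈ S := by
      rw [Filter.eventually_all_finite (List.finite_toSet l)]
      intro x _
      exact hmem x
    have h2 : ∀ᶠ S in (W : Filter (Finset Ω)),
        l.Pairwise fun x y => (L S).idxOf x < (L S).idxOf y := by
      have h3 : ∀ᶠ S in (W : Filter (Finset Ω)), ∀ p ∈ {p : ℕ × ℕ | p.1 < l.length ∧ p.2 < l.length},
          ∀ (h1 : p.1 < l.length) (h2 : p.2 < l.length), p.1 < p.2 →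
            (L S).idxOf l[p.1] < (L S).idxOf l[p.2] := by
        have hf : {p : ℕ × ℕ | p.1 < l.length ∧ p.2 < l.length}.Finite := by
          have : {p : ℕ × ℕ | p.1 < l.length ∧ p.2 < l.length} =
              (Set.Iio l.length) ×ˢ (Set.Iio l.length) := by
            ext p; simp
          rw [this]
          exact (Set.finite_Iio _).prod (Set.finite_Iio _)
        rw [Filter.eventually_all_finite hf]
        intro p hp
        by_cases hlt : p.1 < p.2
        · have := (List.pairwise_iff_getElem.1 hl) p.1 p.2 hp.1 hp.2 hlt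
          exact Filter.Eventually.mono this fun S hS _ _ _ => hS
        · exact Filter.Eventually.of_forall fun S _ _ h' => absurd h' hlt
      refine Filter.Eventually.mono h3 fun S hS => ?_
      rw [List.pairwise_iff_getElem]
      intro i j hi hj hij
      exact hS (i, j) ⟨hi, hj⟩ hi hj hij
    obtain ⟨S, hS1, hS2, hS3⟩ := (h1.and (h2.and hcard)).exists
    obtain ⟨hnd, htf, hsub⟩ := hL S hS3
    apply hsub l _ hl2
    have hlnd : l.Nodup := by
      refine List.Pairwise.imp ?_ hS2
      rintro a b hab rfl
      omega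
    have hsp : l.Subperm (L S) := by
      apply List.subperm_of_subset hlnd
      intro x hx
      rw [← List.mem_toFinset, htf]
      exact hS1 x hx
    have hLs : (L S).Pairwise fun x y => (L S).idxOf x < (L S).idxOf y := by
      rw [List.pairwise_iff_getElem]
      intro i j hi hj hij
      rw [hnd.idxOf_getElem, hnd.idxOf_getElem]
      exact hij
    have : Std.Antisymm (fun x y : Ω => (L S).idxOf x < (L S).idxOf y) :=
      ⟨fun a b hab hba => by omega⟩
    exact List.sublist_of_subperm_of_pairwise hsp hS2 hLs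
  let _ : IsStrictTotalOrder Ω r := hsto
  refine ⟨linearOrderOfSTO r, ?_⟩
  intro l l' hl hl' hlen hl2
  have h1 := key l hl hl2
  have h2 := key l' hl' (by omega)
  rw [← hlen] at h2
  exact h1.trans h2.symm

end SetHom
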