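import Pool.Agent.Helper33.SH.ETail2

/-!
# Project RC, SHARP, zone I: bounds of the aligned moments `e_l(s)` (generated)
-/

set_option autoImplicit false
set_option maxRecDepth 100000

namespace Pool.Agent.Helper33.ET

open Pool.Agent.Helper35.Cas
open Helper27.SH (P2 evR)
open Pool.Agent.Helper33.SH (PI ZC z0I b0I)

def G12 (i : ℕ) : ℚ := [18890, 5396, 3639, 1503 / 2, 9412, 1508].getD i 0
/-- `|e_12| ≤` -/
def R12 : P2 :=
  [(4, 0, 8643 / 100), (1, 3, 1747 / 10), (6, 0, 3857 / 5), (4, 2, 2381 / 5), (3, 3, 1301), (1, 5, 4613 / 5),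
   (8, 0, 219200), (7, 1, 2747000), (6, 2, 14450000), (5, 3, 41580000), (4, 4, 71460000), (3, 5, 74510000),
   (2, 6, 45360000), (1, 7, 14330000), (0, 8, 1680000)]
theorem c12 : chkRow 12 8 (32000 * 16 ^ 8) G12 R12 = true := by decide +kernel

theorem e12_le (c : ZC) {A : ℝ} {B : ℂ} (hA : 0 ≤ A) (h : A + 3 / 2 * ‖B‖ ≤ 1 / 6) :
    ‖(PI c A B).eA (b0I A B) (z0I A B) 5‖ ≤ evR A ‖B‖ R12 := el6 c hA h 5 8 _ _ _ c12

def G14 (i : ℕ) : ℚ := [192500, 58720, 38810, 9412, 109800, 21750].getD i 0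
/-- `|e_14| ≤` -/
def R14 : P2 :=
  [(3, 1, 1221 / 100), (5, 1, 2607), (3, 3, 5829 / 100), (2, 4, 1360), (7, 1, 21700), (5, 3, 39010),
   (4, 4, 6512), (3, 5, 76610), (2, 6, 1185), (10, 0, 2854000), (9, 1, 44780000), (8, 2, 306900000),
   (7, 3, 1210000000), (6, 4, 3040000000), (5, 5, 5071000000), (4, 6, 5664000000), (3, 7, 4152000000),
   (2, 8, 1886000000), (1, 9, 467100000), (0, 10, 45330000)]
theorem c14 : chkRow 14 10 (32000 * 16 ^ 10) G14 R14 = true := by decide +kernel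

theorem e14_le (c : ZC) {A : ℝ} {B : ℂ} (hA : 0 ≤ A) (h : A + 3 / 2 * ‖B‖ ≤ 1 / 6) :
    ‖(PI c A B).eA (b0I A B) (z0I A B) 6‖ ≤ evR A ‖B‖ R14 := el6 c hA h 6 10 _ _ _ c14

def G16 (i : ℕ) : ℚ := [631100, 160900, 109800, 21750, 279700, 46010].getD i 0
/-- `|e_16| ≤` -/
def R16 : P2 :=
  [(2, 2, 4841 / 5), (4, 2, 8004), (2, 4, 7522), (7, 1, 5691), (6, 2, 13450), (4, 4, 157600), (3, 5, 3988),
   (2, 6, 158800), (10, 0, 8766000), (9, 1, 136300000), (8, 2, 927300000), (7, 3, 3643000000),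
   (6, 4, 9133000000), (5, 5, 15240000000), (4, 6, 17070000000), (3, 7, 12570000000), (2, 8, 5747000000),
   (1, 9, 1439000000), (0, 10, 141900000)]
theorem c16 : chkRow 16 10 (32000 * 16 ^ 10) G16 R16 = true := by decide +kernel

theorem e16_le (c : ZC) {A : ℝ} {B : ℂ} (hA : 0 ≤ A) (h : A + 3 / 2 * ‖B‖ ≤ 1 / 6) :
    ‖(PI c A B).eA (b0I A B) (z0I A B) 7‖ ≤ evR A ‖B‖ R16 := el6 c hA h 7 10 _ _ _ c16

end Pool.Agent.Helper33.ET
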