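import Pool.Agent.Helper33.SH.ETail2

/-!
# Project RC, SHARP, zone I: bounds of the aligned moments `e_l(s)` (generated)
-/

set_option autoImplicit false
set_option maxRecDepth 100000

namespace Pool.Agent.Helper33.ET

open Pool.Agent.Helper35.Cas
open Helper27.SH (P2 evR)
open Pool.Agent.Helper33.SH (PI ZC z0I b0I)

def G18 (i : ℕ) : ℚ := [1849000, 398500, 279700, 46010, 654200, 90860].getD i 0
/-- `|e_18| ≤` -/
def R18 : P2 :=
  [(1, 3, 1156), (6, 0, 5311 / 10), (3, 3, 31320), (1, 5, 9123), (8, 0, 4763), (6, 2, 45940), (5, 3, 244000),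
   (3, 5, 410700), (1, 7, 114500), (10, 0, 23460000), (9, 1, 361000000), (8, 2, 2440000000),
   (7, 3, 9537000000), (6, 4, 23860000000), (5, 5, 39780000000), (4, 6, 44610000000), (3, 7, 32990000000),
   (2, 8, 15200000000), (1, 9, 3851000000), (0, 10, 387500000)]
theorem c18 : chkRow 18 10 (32000 * 16 ^ 10) G18 R18 = true := by decide +kernel

theorem e18_le (c : ZC) {A : ℝ} {B : ℂ} (hA : 0 ≤ A) (h : A + 3 / 2 * ‖B‖ ≤ 1 / 6) :
    ‖(PI c A B).eA (b0I A B) (z0I A B) 8‖ ≤ evR A ‖B‖ R18 := el6 c hA h 8 10 _ _ _ c18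

def G20 (i : ℕ) : ℚ := [4934000, 909900, 654200, 90860, 1427000, 169700].getD i 0
/-- `|e_20| ≤` -/
def R20 : P2 :=
  [(0, 4, 1851 / 5), (5, 1, 7579 / 10), (2, 4, 25590), (0, 6, 1734), (7, 1, 58420), (5, 3, 27150),
   (4, 4, 533600), (2, 6, 303600), (0, 8, 42100), (10, 0, 60260000), (9, 1, 924600000), (8, 2, 6242000000),
   (7, 3, 24410000000), (6, 4, 61120000000), (5, 5, 102300000000), (4, 6, 115200000000), (3, 7, 85660000000),
   (2, 8, 39810000000), (1, 9, 10220000000), (0, 10, 1048000000)]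
theorem c20 : chkRow 20 10 (32000 * 16 ^ 10) G20 R20 = true := by decide +kernel

theorem e20_le (c : ZC) {A : ℝ} {B : ℂ} (hA : 0 ≤ A) (h : A + 3 / 2 * ‖B‖ ≤ 1 / 6) :
    ‖(PI c A B).eA (b0I A B) (z0I A B) 9‖ ≤ evR A ‖B‖ R20 := el6 c hA h 9 10 _ _ _ c20

end Pool.Agent.Helper33.ET
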