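import Pool.Agent.Helper33.SH.ETail2

/-!
# Project RC, SHARP, zone I: bounds of the aligned moments `e_l(s)` (generated)
-/

set_option autoImplicit false
set_option maxRecDepth 100000

namespace Pool.Agent.Helper33.ET

open Pool.Agent.Helper35.Cas
open Helper27.SH (P2 evR)
open Pool.Agent.Helper33.SH (PI ZC z0I b0I)

def G22 (i : ℕ) : ℚ := [58720000, 12180000, 8557000, 1427000, 20160000, 2931000].getD i 0
/-- `|e_22| ≤` -/
def R22 : P2 :=
  [(4, 2, 2827 / 5), (1, 5, 6878), (6, 2, 209300), (4, 4, 409600), (3, 5, 297000), (1, 7, 5428),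
   (9, 1, 58720), (8, 2, 4422000), (6, 4, 3028000), (5, 5, 7645000), (4, 6, 13080000), (3, 7, 5725000),
   (1, 9, 1557000), (12, 0, 884000000), (11, 1, 16300000000), (10, 2, 135300000000), (9, 3, 669000000000),
   (8, 4, 2195000000000), (7, 5, 5027000000000), (6, 6, 8228000000000), (5, 7, 9669000000000),
   (4, 8, 8063000000000), (3, 9, 4622000000000), (2, 10, 1710000000000), (1, 11, 359000000000),
   (0, 12, 31010000000)]
theorem c22 : chkRow 22 12 (32000 * 16 ^ 12) G22 R22 = true := by decide +kernel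

theorem e22_le (c : ZC) {A : ℝ} {B : ℂ} (hA : 0 ≤ A) (h : A + 3 / 2 * ‖B‖ ≤ 1 / 6) :
    ‖(PI c A B).eA (b0I A B) (z0I A B) 10‖ ≤ evR A ‖B‖ R22 := el6 c hA h 10 12 _ _ _ c22

def G24 (i : ℕ) : ℚ := [154100000, 28140000, 20160000, 2931000, 44790000, 5732000].getD i 0
/-- `|e_24| ≤` -/
def R24 : P2 :=
  [(3, 3, 17740), (8, 0, 16440), (5, 3, 659100), (3, 5, 907100), (2, 6, 49470), (10, 0, 181800),
   (8, 2, 763600), (7, 3, 15100000), (5, 5, 18240000), (4, 6, 1636000), (3, 7, 33210000), (2, 8, 1142000),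
   (12, 0, 2153000000), (11, 1, 39420000000), (10, 2, 325700000000), (9, 3, 1605000000000),
   (8, 4, 5252000000000), (7, 5, 12020000000000), (6, 6, 19650000000000), (5, 7, 23110000000000),
   (4, 8, 19300000000000), (3, 9, 11100000000000), (2, 10, 4126000000000), (1, 11, 873400000000),
   (0, 12, 76530000000)]
theorem c24 : chkRow 24 12 (32000 * 16 ^ 12) G24 R24 = true := by decide +kernel

theorem e24_le (c : ZC) {A : ℝ} {B : ℂ} (hA : 0 ≤ A) (h : A + 3 / 2 * ‖B‖ ≤ 1 / 6) :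
    ‖(PI c A B).eA (b0I A B) (z0I A B) 11‖ ≤ evR A ‖B‖ R24 := el6 c hA h 11 12 _ _ _ c24

end Pool.Agent.Helper33.ET
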