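import Pool.Agent.Helper33.SH.ETail2

/-!
# Project RC, SHARP, zone I: bounds of the aligned moments `e_l(s)` (generated)
-/

set_option autoImplicit false
set_option maxRecDepth 100000

namespace Pool.Agent.Helper33.ET

open Pool.Agent.Helper35.Cas
open Helper27.SH (P2 evR)
open Pool.Agent.Helper33.SH (PI ZC z0I b0I)

def G26 (i : ℕ) : ℚ := [379400000, 61430000, 44790000, 5732000, 94540000, 10750000].getD i 0
/-- `|e_26| ≤` -/
def R26 : P2 :=
  [(2, 4, 38840), (7, 1, 127000), (4, 4, 1714000), (2, 6, 653800), (9, 1, 2709000), (7, 3, 2921000),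
   (6, 4, 37040000), (4, 6, 38330000), (3, 7, 734300), (2, 8, 35800000), (12, 0, 5157000000),
   (11, 1, 94370000000), (10, 2, 779500000000), (9, 3, 3843000000000), (8, 4, 12590000000000),
   (7, 5, 28840000000000), (6, 6, 47270000000000), (5, 7, 55740000000000), (4, 8, 46730000000000),
   (3, 9, 27010000000000), (2, 10, 10110000000000), (1, 11, 2158000000000), (0, 12, 191600000000)]
theorem c26 : chkRow 26 12 (32000 * 16 ^ 12) G26 R26 = true := by decide +kernel

theorem e26_le (c : ZC) {A : ℝ} {B : ℂ} (hA : 0 ≤ A) (h : A + 3 / 2 * ‖B‖ ≤ 1 / 6) :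
    ‖(PI c A B).eA (b0I A B) (z0I A B) 12‖ ≤ evR A ‖B‖ R26 := el6 c hA h 12 12 _ _ _ c26

def G28 (i : ℕ) : ℚ := [883200000, 127700000, 94540000, 10750000, 191000000, 19420000].getD i 0
/-- `|e_28| ≤` -/
def R28 : P2 :=
  [(1, 5, 24940), (6, 2, 238100), (3, 5, 2048000), (1, 7, 252900), (8, 2, 13030000), (6, 4, 3807000),
   (5, 5, 63950000), (3, 7, 25640000), (1, 9, 17700000), (12, 0, 11550000000), (11, 1, 210700000000),
   (10, 2, 1737000000000), (9, 3, 8547000000000), (8, 4, 27970000000000), (7, 5, 64040000000000),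
   (6, 6, 105000000000000), (5, 7, 123900000000000), (4, 8, 104100000000000), (3, 9, 60240000000000),
   (2, 10, 22610000000000), (1, 11, 4848000000000), (0, 12, 433200000000)]
theorem c28 : chkRow 28 12 (32000 * 16 ^ 12) G28 R28 = true := by decide +kernel

theorem e28_le (c : ZC) {A : ℝ} {B : ℂ} (hA : 0 ≤ A) (h : A + 3 / 2 * ‖B‖ ≤ 1 / 6) :
    ‖(PI c A B).eA (b0I A B) (z0I A B) 13‖ ≤ evR A ‖B‖ R28 := el6 c hA h 13 12 _ _ _ c28

end Pool.Agent.Helper33.ET
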