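import Pool.Agent.Helper33.SH.Fast
import Pool.Agent.Helper27.SH.Num

/-!
# Project RC, SHARP, link (6): programs and their lemmas

`wF`: list of `∑_x K_x U^(m_x)` (parity part), order depending on the term; `eqP`: equality of lists by subtraction;
error polynomials (`P2` of helper27) with products and comparison.
-/

set_option autoImplicit false

namespace Pool.Agent.Helper33.GM

open Helper49.LT hiding sg s3
open Helper49.RC (om)
open Pool.Agent.Helper35.RC
open Pool.Agent.Helper35.Cas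
open Helper27.SH (P2 evR)
open Pool.Agent.Helper33.SH (Tm chkTm om2 om2_eq om_norm tm_err insF addF mulF sumF evP_addF evP_mulF evP_sumF)

/-! ### sums of powers of the unit vector -/

/-- term with its order -/
abbrev Tr := Tm × ℕ

/-- the list of the sum, denominator `2 d 16^N` -/
def wF (Z : Po) (sg : ℤ) (s N : ℕ) : List Tr → Po
  | [] => []
  | x :: L => addF (smP (mulC (om2 (sg * x.1.m)) (16 ^ (N - x.2), 0))
      (mulF x.1.kP (sumF Z x.1.m (-x.1.m) s x.2 x.2))) (wF Z sg s N L)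

/-- checks of a list -/
def chkL (s N : ℕ) (L : List Tr) : Bool := L.all fun x => chkTm s x.2 x.1 && Nat.ble x.2 N

theorem wF_err {Z : Po} {s N : ℕ} {sg : ℤ} {u v ζ : ℂ} {d X : ℝ} (hd : 0 < d) (hZ : evP u v Z = 4 * ζ)
    (hX : ‖ζ‖ ≤ X) (hX1 : X ≤ 2 / 5) (Mf : Tr → ℝ) : ∀ L : List Tr, chkL s N L = true →
    (∀ x ∈ L, ‖evP u v x.1.kP / d‖ ≤ Mf x) →
    ‖(L.map fun x => evP u v x.1.kP / d * om ^ (sg * x.1.m) *
        pp s ((x.1.m : ℝ) / 2) (-((x.1.m : ℝ) / 2)) ζ).sum
      - evP u v (wF Z sg s N L) / (2 * d * 16 ^ N)‖ ≤ (L.map fun x => Mf x * (x.1.G * X ^ x.2)).sum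
  | [], _, _ => by simp [wF]
  | x :: L, h1, h2 => by
    unfold chkL at h1
    rw [List.all_cons, Bool.and_eq_true, Bool.and_eq_true] at h1
    obtain ⟨⟨hx, hxN⟩, hL⟩ := h1
    have hxN' : x.2 ≤ N := Nat.le_of_ble_eq_true hxN
    have ih := wF_err (sg := sg) hd hZ hX hX1 Mf L hL (fun y hy => h2 y (List.mem_cons_of_mem _ hy))
    have h0 : ‖evP u v x.1.kP / d - evP u v x.1.kP / d‖ ≤ (0 : ℝ) := by rw [sub_self, norm_zero]
    have hx2 := tm_err hx hd hZ hX hX1 (h2 x List.mem_cons_self) h0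
    rw [add_zero] at hx2
    rw [List.map_cons, List.sum_cons, List.map_cons, List.sum_cons, wF, evP_addF, evP_sm, evC_mul, om2_eq, evP_mulF,
      evP_sumF]
    rw [evP_mul] at hx2
    have e16 : evC (16 ^ (N - x.2), 0) = 16 ^ (N - x.2) := by
      have := evC_int (16 ^ (N - x.2))
      rw [this]
      push_cast
      rfl
    rw [e16]
    have hN : (16 : ℂ) ^ N = 16 ^ (N - x.2) * 16 ^ x.2 := by rw [← pow_add]; congr 1; omega
    set S := evP u v (sumS Z x.1.m (-x.1.m) s x.2 x.2) with hS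
    set pq := pp s ((x.1.m : ℝ) / 2) (-((x.1.m : ℝ) / 2)) ζ with hpq
    set R := (L.map fun x => evP u v x.1.kP / d * om ^ (sg * x.1.m) *
        pp s ((x.1.m : ℝ) / 2) (-((x.1.m : ℝ) / 2)) ζ).sum with hR
    have e : evP u v x.1.kP / d * om ^ (sg * x.1.m) * pq + R
        - (2 * om ^ (sg * x.1.m) * 16 ^ (N - x.2) * (evP u v x.1.kP * S) + evP u v (wF Z sg s N L))
          / (2 * d * 16 ^ N) =
        om ^ (sg * x.1.m) * (evP u v x.1.kP / d * pq - evP u v x.1.kP * S / (d * 16 ^ x.2))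
        + (R - evP u v (wF Z sg s N L) / (2 * d * 16 ^ N)) := by
      have h16 : (16 : ℂ) ^ (N - x.2) ≠ 0 := pow_ne_zero _ (by norm_num)
      have h16' : (16 : ℂ) ^ x.2 ≠ 0 := pow_ne_zero _ (by norm_num)
      have hdc : (d : ℂ) ≠ 0 := by exact_mod_cast hd.ne'
      rw [hN]
      field_simp
      ring
    rw [e]
    refine (norm_add_le _ _).trans (add_le_add ?_ ih)
    rw [norm_mul, norm_zpow, om_norm, one_zpow, one_mul]
    exact hx2

/-! ### equality of lists -/

def zeroP (p : Po) : Bool := p.all fun x => x.2.1 == 0 && x.2.2 == 0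

theorem evP_zeroP (u v : ℂ) : ∀ p : Po, zeroP p = true → evP u v p = 0
  | [], _ => rfl
  | x :: p, h => by
    unfold zeroP at h
    rw [List.all_cons, Bool.and_eq_true, Bool.and_eq_true, beq_iff_eq, beq_iff_eq] at h
    rw [evP_cons, evP_zeroP u v p h.2]
    unfold evC
    rw [h.1.1, h.1.2]
    simp

def eqP (p q : Po) : Bool := zeroP (addF p (smP (-1, 0) q))

theorem eqP_ok {p q : Po} (h : eqP p q = true) (u v : ℂ) : evP u v p = evP u v q := by
  have h1 := evP_zeroP u v _ h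
  rw [evP_addF, evP_sm] at h1
  have : evC (-1, 0) = -1 := by simp [evC]
  rw [this] at h1
  linear_combination h1

/-! ### error polynomials -/

theorem evR_nil (A y : ℝ) : evR A y [] = 0 := by simp [evR]
theorem evR_cons (A y : ℝ) (m : ℕ × ℕ × ℚ) (L : P2) :
    evR A y (m :: L) = (m.2.2 : ℝ) * (A ^ m.1 * y ^ m.2.1) + evR A y L := by simp [evR]
theorem evR_append (A y : ℝ) (p q : P2) : evR A y (p ++ q) = evR A y p + evR A y q := by simp [evR]

/-- bound of a list -/
def abP : Po → P2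
  | [] => []
  | x :: p => (x.1.1 + x.1.2.1, x.1.2.2.1 + x.1.2.2.2, ((x.2.1.natAbs : ℚ) + 2 * (x.2.2.natAbs : ℚ))) :: abP p

theorem norm_s3 : ‖s3‖ ≤ 2 := by
  unfold s3
  rw [norm_mul, Complex.norm_I, one_mul, Complex.norm_real, Real.norm_of_nonneg (Real.sqrt_nonneg _)]
  nlinarith [Real.sqrt_nonneg 3, Real.sq_sqrt (show (0 : ℝ) ≤ 3 by norm_num)]

theorem norm_evC_le (c : Co) : ‖evC c‖ ≤ (c.1.natAbs : ℝ) + 2 * (c.2.natAbs : ℝ) := by
  unfold evC
  refine (norm_add_le _ _).trans ?_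
  rw [norm_mul, Complex.norm_intCast, Complex.norm_intCast]
  have h1 : |(c.1 : ℝ)| = (c.1.natAbs : ℝ) := (Nat.cast_natAbs c.1).trans (by push_cast; rfl) |>.symm
  have h2 : |(c.2 : ℝ)| = (c.2.natAbs : ℝ) := (Nat.cast_natAbs c.2).trans (by push_cast; rfl) |>.symm
  rw [h1, h2]
  have := norm_s3
  have h3 : (0 : ℝ) ≤ (c.2.natAbs : ℝ) := Nat.cast_nonneg _
  nlinarith

theorem norm_evP_le (u v : ℂ) : ∀ p : Po, ‖evP u v p‖ ≤ evR ‖u‖ ‖v‖ (abP p)
  | [] => by simp [abP, evR]
  | x :: p => by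
    rw [evP_cons, abP, evR_cons]
    refine (norm_add_le _ _).trans (add_le_add ?_ (norm_evP_le u v p))
    rw [norm_mul]
    have h1 := norm_evC_le x.2
    have h2 : ‖evM u v x.1‖ = ‖u‖ ^ (x.1.1 + x.1.2.1) * ‖v‖ ^ (x.1.2.2.1 + x.1.2.2.2) := by
      unfold evM
      simp only [norm_mul, norm_pow, Complex.norm_conj, pow_add]
      ring
    rw [h2]
    push_cast
    exact mul_le_mul_of_nonneg_right h1 (by positivity)

/-- multiple by a monomial -/
def mul1 (i j : ℕ) (c : ℚ) : P2 → P2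
  | [] => []
  | m :: L => (i + m.1, j + m.2.1, c * m.2.2) :: mul1 i j c L

theorem evR_mul1 (A y : ℝ) (i j : ℕ) (c : ℚ) : ∀ L : P2,
    evR A y (mul1 i j c L) = (c : ℝ) * (A ^ i * y ^ j) * evR A y L
  | [] => by simp [mul1, evR]
  | m :: L => by
    rw [mul1, evR_cons, evR_cons, evR_mul1 A y i j c L]
    push_cast
    rw [pow_add, pow_add]
    ring

/-- product -/
def mulR : P2 → P2 → P2
  | [], _ => []
  | m :: p, q => mul1 m.1 m.2.1 m.2.2 q ++ mulR p q

theorem evR_mulR (A y : ℝ) : ∀ p q : P2, evR A y (mulR p q) = evR A y p * evR A y q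
  | [], q => by simp [mulR, evR]
  | m :: p, q => by
    rw [mulR, evR_append, evR_mul1, evR_mulR A y p q, evR_cons]
    ring

/-- `(A + 3/2 y)^n` -/
def powX (n : ℕ) : P2 := (List.range (n + 1)).map fun j => (n - j, j, (n.choose j : ℚ) * (3 / 2) ^ j)

theorem sum_range_list (f : ℕ → ℝ) : ∀ n : ℕ, ((List.range n).map f).sum = ∑ i ∈ Finset.range n, f i
  | 0 => by simp
  | n + 1 => by
    rw [List.range_succ, List.map_append, List.sum_append, sum_range_list f n, Finset.sum_range_succ]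
    simp

theorem evR_powX (A y : ℝ) (n : ℕ) : evR A y (powX n) = (A + 3 / 2 * y) ^ n := by
  unfold powX evR
  rw [List.map_map, sum_range_list, add_comm A, add_pow]
  refine Finset.sum_congr rfl fun j _ => ?_
  simp only [Function.comp]
  push_cast
  rw [mul_pow]
  ring

/-- coefficient and rest -/
def coR (i j : ℕ) : P2 → ℚ
  | [] => 0
  | m :: p => cond (Nat.beq m.1 i && Nat.beq m.2.1 j) (m.2.2 + coR i j p) (coR i j p)
def dlR (i j : ℕ) : P2 → P2
  | [] => []
  | m :: p => cond (Nat.beq m.1 i && Nat.beq m.2.1 j) (dlR i j p) (m :: dlR i j p)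

theorem evR_dl (A y : ℝ) (i j : ℕ) : ∀ p : P2,
    evR A y p = (coR i j p : ℝ) * (A ^ i * y ^ j) + evR A y (dlR i j p)
  | [] => by simp [coR, dlR, evR]
  | m :: p => by
    have ih := evR_dl A y i j p
    rw [evR_cons, coR, dlR]
    cases h : (Nat.beq m.1 i && Nat.beq m.2.1 j) with
    | true =>
      rw [Bool.and_eq_true] at h
      rw [cond_true, cond_true, ih, Nat.eq_of_beq_eq_true h.1, Nat.eq_of_beq_eq_true h.2]
      push_cast
      ring
    | false =>
      rw [cond_false, cond_false, evR_cons, ih]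
      ring

/-- comparison -/
def leR : P2 → P2 → Bool
  | [], p => p.all fun m => decide (m.2.2 ≤ 0)
  | m :: q, p => decide (coR m.1 m.2.1 p ≤ m.2.2) && leR q (dlR m.1 m.2.1 p)

theorem leR_ok {A y : ℝ} (hA : 0 ≤ A) (hy : 0 ≤ y) : ∀ (q p : P2), leR q p = true → evR A y p ≤ evR A y q
  | [], p, h => by
    rw [evR_nil]
    unfold leR at h
    induction p with
    | nil => rw [evR_nil]
    | cons m p ih =>
      rw [List.all_cons, Bool.and_eq_true, decide_eq_true_eq] at h
      rw [evR_cons]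
      have h1 : (m.2.2 : ℝ) ≤ 0 := by exact_mod_cast h.1
      have h2 := ih h.2
      have h3 : 0 ≤ A ^ m.1 * y ^ m.2.1 := by positivity
      nlinarith
  | m :: q, p, h => by
    unfold leR at h
    rw [Bool.and_eq_true, decide_eq_true_eq] at h
    rw [evR_dl A y m.1 m.2.1 p, evR_cons]
    have h1 : (coR m.1 m.2.1 p : ℝ) ≤ (m.2.2 : ℝ) := by exact_mod_cast h.1
    exact add_le_add (mul_le_mul_of_nonneg_right h1 (by positivity)) (leR_ok hA hy q _ h.2)

/-- error of a list of terms -/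
def errL (d : ℕ) : List Tr → P2
  | [] => []
  | x :: L => mulR (mul1 0 0 (x.1.G / d) (abP x.1.kP)) (powX x.2) ++ errL d L

theorem errL_eq {A y : ℝ} (d : ℕ) (hd : 0 < d) : ∀ L : List Tr,
    (L.map fun x => evR A y (abP x.1.kP) / d * (x.1.G * (A + 3 / 2 * y) ^ x.2)).sum = evR A y (errL d L)
  | [] => by simp [errL, evR]
  | x :: L => by
    have hd' : ((d : ℕ) : ℝ) ≠ 0 := by exact_mod_cast hd.ne'
    rw [List.map_cons, List.sum_cons, errL, evR_append, errL_eq d hd L, evR_mulR, evR_mul1, evR_powX]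
    push_cast
    field_simp

end Pool.Agent.Helper33.GM
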