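import Pool.Agent.Helper35.SH.EM
import Pool.Agent.Helper33.SH.GFun

/-!
# Project RC, SHARP, zone I: bounds of the aligned moments `e_l(s)`, `l ≤ 30` (engine)

The engine of helper35 (resonant products) with larger exponents, on `A + (3/2)|B| ≤ 1/6`.
-/

set_option autoImplicit false

open MeasureTheory Set Filter Metric

namespace Pool.Agent.Helper33.ET

open Helper49.LT hiding sg s3
open Pool.Agent.Helper35.RC
open Pool.Agent.Helper35.Cas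
open Pool.Agent.Helper20.RC (eM lk)
open Helper27.SH (P2 evR)
open Pool.Agent.Helper33.GM (evR_nil evR_cons evR_append mul1 evR_mul1 mulR evR_mulR powX evR_powX leR leR_ok abP
  norm_evP_le)
open Pool.Agent.Helper33.SH (PI ZC z0I b0I Z1 Z2)

/-! ### constants on `‖ζ‖ ≤ 1/6` -/

/-- check of the constant -/
def chkE6 (a b G : ℚ) (K : ℕ) : Bool :=
  decide (0 ≤ serQ b (1 / 6) (1 / 3) 24) && decide (0 ≤ serQ a (1 / 6) (1 / 3) 24) && decide (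
  (serQ a (1 / 6) (1 / 3) 24 * serQ b (1 / 6) (1 / 3) 24
    - ∑ k ∈ Qs K, ggQ a b k * (1 / 6) ^ k) ≤ G * (1 / 6) ^ K)

theorem ser_ok6 (a : ℚ) (ha : |a| ≤ 16) :
    ∑' m : ℕ, |cb (a : ℝ) m| * (1 / 6 : ℝ) ^ m ≤ ((serQ a (1 / 6) (1 / 3) 24 : ℚ) : ℝ) := by
  have e25 : ((1 / 6 : ℚ) : ℝ) = 1 / 6 := by norm_num
  have ha1 : (a : ℝ) ≤ 16 := by
    have : a ≤ 16 := (abs_le.1 ha).2
    have h := (Rat.cast_le (K := ℝ)).2 this
    push_cast at h; exact h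
  have ha2 : -(16) ≤ (a : ℝ) := by
    have : -(16) ≤ a := (abs_le.1 ha).1
    have h := (Rat.cast_le (K := ℝ)).2 this
    push_cast at h; linarith
  have sa := ser_le a (1 / 6) (1 / 3) 24 (by norm_num) (by norm_num) (by norm_num) (by
    intro m hm
    have hm' : (24 : ℝ) ≤ m := by exact_mod_cast hm
    rw [abs_of_nonpos (by linarith)]
    push_cast
    linarith)
  rw [e25] at sa
  exact sa

theorem const_ok6 (a b G : ℚ) (K : ℕ) (ha : |a| ≤ 16) (hb : |b| ≤ 16) (h : chkE6 a b G K = true) :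
    ∃ S : ℝ, (∑' m : ℕ, |cb (a : ℝ) m| * (1 / 6 : ℝ) ^ m) * (∑' m : ℕ, |cb (b : ℝ) m| * (1 / 6 : ℝ) ^ m) ≤ S ∧
      (S - ∑ k ∈ Qs K, gg a b k * (1 / 6 : ℝ) ^ k) / (1 / 6 : ℝ) ^ K ≤ G := by
  unfold chkE6 at h
  rw [Bool.and_eq_true, Bool.and_eq_true, decide_eq_true_eq, decide_eq_true_eq, decide_eq_true_eq] at h
  obtain ⟨⟨h0, h00⟩, h⟩ := h
  have sa := ser_ok6 a ha
  have sb := ser_ok6 b hb
  refine ⟨((serQ a (1 / 6) (1 / 3) 24 * serQ b (1 / 6) (1 / 3) 24 : ℚ) : ℝ), ?_, ?_⟩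
  · push_cast at sa sb ⊢
    have hx : 0 ≤ ∑' m : ℕ, |cb (b : ℝ) m| * (1 / 6 : ℝ) ^ m := tsum_nonneg fun m => by positivity
    have hy : 0 ≤ ∑' m : ℕ, |cb (a : ℝ) m| * (1 / 6 : ℝ) ^ m := tsum_nonneg fun m => by positivity
    exact mul_le_mul sa sb hx (hy.trans sa)
  · rw [div_le_iff₀ (by positivity)]
    have h' : ((serQ a (1 / 6) (1 / 3) 24 * serQ b (1 / 6) (1 / 3) 24
      - ∑ k ∈ Qs K, ggQ a b k * (1 / 6) ^ k : ℚ) : ℝ) ≤ ((G * (1 / 6) ^ K : ℚ) : ℝ) := by exact_mod_cast h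
    refine le_trans (le_of_eq ?_) (h'.trans (le_of_eq ?_))
    · rw [Rat.cast_sub]
      congr 1
      rw [Rat.cast_sum]
      refine Finset.sum_congr rfl fun k _ => ?_
      rw [gg_cast]
      push_cast
      ring
    · push_cast
      ring

/-- the remainder on `‖ζ‖ ≤ 1/6` -/
theorem pp_rem6 (a b G : ℚ) (s K : ℕ) (hs : s < 2) (hK : K % 2 = s) (ha : |a| ≤ 16) (hb : |b| ≤ 16)
    (h : chkE6 a b G K = true) (ζ : ℂ) (hζ : ‖ζ‖ ≤ 1 / 6) :
    ‖pp s a b ζ - ∑ k ∈ (Finset.range K).filter (fun k => k % 2 = s), TT a b k ζ‖ ≤ (G : ℝ) * ‖ζ‖ ^ K := by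
  obtain ⟨S, hS, hG⟩ := const_ok6 a b G K ha hb h
  refine (sel_rem a b (1 / 6) S (by norm_num) (by norm_num) hS (fun k => k % 2 = s) K (Qs K) ?_ ζ hζ _
    (pp_hasSum a b s hs ζ (by linarith))).trans (mul_le_mul_of_nonneg_right hG (by positivity))
  intro k hk hk8
  unfold Qs
  simp only [Finset.mem_union, Finset.mem_range, Finset.mem_insert, Finset.mem_singleton]
  omega

/-- bound of a list, with `nC` -/
def abN : Po → P2
  | [] => []
  | x :: p => (x.1.1 + x.1.2.1, x.1.2.2.1 + x.1.2.2.2, (nC x.2 : ℚ) / 60) :: abN p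

theorem norm_evP_N (u v : ℂ) : ∀ p : Po, ‖evP u v p‖ ≤ evR ‖u‖ ‖v‖ (abN p)
  | [] => by simp [abN, evR]
  | x :: p => by
    rw [evP_cons, abN, evR_cons]
    refine (norm_add_le _ _).trans (add_le_add ?_ (norm_evP_N u v p))
    rw [norm_mul]
    have h1 := nC_le x.2
    have h2 : ‖evM u v x.1‖ = ‖u‖ ^ (x.1.1 + x.1.2.1) * ‖v‖ ^ (x.1.2.2.1 + x.1.2.2.2) := by
      unfold evM
      simp only [norm_mul, norm_pow, Complex.norm_conj, pow_add]
      ring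
    rw [h2]
    push_cast
    exact mul_le_mul_of_nonneg_right h1 (by positivity)

/-- checks of one term -/
def chk6 (x : It) : Bool :=
  decide (0 < x.D) && decide (x.K ≤ 12) && (x.K % 2 == 0) && decide (0 ≤ x.G) && parP 0 x.P
  && decide (|(x.p : ℚ) / 2| ≤ 16) && decide (|(x.q : ℚ) / 2| ≤ 16)
  && chkE6 ((x.p : ℚ) / 2) ((x.q : ℚ) / 2) x.G x.K && chkB x.p x.K && chkB x.q x.K

/-- the error of one term -/
def er6 (x : It) : P2 := mulR (mul1 0 0 (x.G / x.D) (abN x.P)) (powX x.K)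

/-- one term -/
theorem it_mean6 (A B : ℂ) (Z : Po) (zp zc : List Po) (hz : Pw Z zp) (hzc : Pw (cjP Z) zc) (hZ : parP 1 Z = true)
    (hζ : ∀ t, ‖evP (uu A t) (vv B t) Z / 4‖ ≤ ‖A‖ + 3 / 2 * ‖B‖) (hζr : ‖A‖ + 3 / 2 * ‖B‖ ≤ 1 / 6)
    (l : ℤ) (hs : l.natAbs % 2 = 0) (x : It) (hx : chk6 x = true) :
    ‖mean (fun t => ee ((l : ℝ) * t) * x.v A B Z t)
      - evP A B (resK zp zc x.P x.p x.q l 0 x.K x.K []) / ((x.D * 16 ^ x.K : ℕ) : ℂ)‖
      ≤ evR ‖A‖ ‖B‖ (er6 x) := by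
  unfold chk6 at hx
  simp only [Bool.and_eq_true, decide_eq_true_eq, beq_iff_eq] at hx
  obtain ⟨⟨⟨⟨⟨⟨⟨⟨⟨hD, hK8⟩, hKs⟩, hG⟩, hP⟩, hp⟩, hq⟩, hE⟩, hbp⟩, hbq⟩ := hx
  have hζ1 : ∀ t, ‖evP (uu A t) (vv B t) Z / 4‖ < 1 := fun t => (hζ t).trans_lt (by linarith)
  have hD0 : ((x.D : ℕ) : ℂ) ≠ 0 := by exact_mod_cast hD.ne'
  have c0 : Continuous fun t : ℝ => ee ((l : ℝ) * t) := continuous_ee.comp (by fun_prop)
  have cz := cont_zeta A B Z
  obtain ⟨ζ, hζd⟩ : ∃ ζ : ℝ → ℂ, ζ = fun t => evP (uu A t) (vv B t) Z / 4 := ⟨_, rfl⟩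
  obtain ⟨a, ha⟩ : ∃ a : ℝ, a = (x.p : ℝ) / 2 := ⟨_, rfl⟩
  obtain ⟨b, hb⟩ : ∃ b : ℝ, b = (x.q : ℝ) / 2 := ⟨_, rfl⟩
  have hζ' : ∀ t, ‖ζ t‖ ≤ ‖A‖ + 3 / 2 * ‖B‖ := fun t => by rw [hζd]; exact hζ t
  have hζ1' : ∀ t, ‖ζ t‖ < 1 := fun t => by rw [hζd]; exact hζ1 t
  have cz' : Continuous ζ := by rw [hζd]; exact cz
  have cT : Continuous fun t => ∑ k ∈ (Finset.range x.K).filter (fun k => k % 2 = 0), TT a b k (ζ t) := by
    refine continuous_finsetSum _ fun k _ => ?_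
    unfold TT
    exact continuous_finsetSum _ fun ij _ =>
      continuous_const.mul ((cz'.pow _).mul ((Complex.continuous_conj.comp cz').pow _))
  have cpp : Continuous fun t => pp 0 a b (ζ t) := by
    unfold pp
    have hn : ∀ t, ‖(fun t => -ζ t) t‖ < 1 := fun t => by rw [norm_neg]; exact hζ1' t
    exact ((cont_Ph a b cz' hζ1').add (continuous_const.mul (cont_Ph a b cz'.neg hn))).div_const 2
  -- first step: the factor 1/D
  have e1 : mean (fun t => ee ((l : ℝ) * t) * x.v A B Z t) =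
      1 / x.D * mean (fun t => ee ((l : ℝ) * t) * (evP (uu A t) (vv B t) x.P * Ph a b (ζ t))) := by
    rw [← mean_const_mul]
    congr 1
    funext t
    unfold It.v
    simp only [hζd, ha, hb]
    ring
  have e2 := mean_pp A B x.P Z a b l 0 0 (by rw [zero_add]; exact hs) hP hZ hζ1
  have e3 := evP_resK A B Z zp zc hz hzc x.P x.p x.q l 0 x.K hK8 hbp hbq x.K [] le_rfl
  rw [evP_nil, zero_add, ← ha, ← hb] at e3
  have h16 : (16 : ℂ) ^ x.K ≠ 0 := pow_ne_zero _ (by norm_num)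
  have e4 : evP A B (resK zp zc x.P x.p x.q l 0 x.K x.K []) / ((x.D * 16 ^ x.K : ℕ) : ℂ) =
      1 / x.D * mean (fun t => ee ((l : ℝ) * t) * (evP (uu A t) (vv B t) x.P *
        ∑ k ∈ (Finset.range x.K).filter (fun k => k % 2 = 0), TT a b k (ζ t))) := by
    rw [e3]
    push_cast
    field_simp
    try simp only [hζd]
  have e2' : mean (fun t => ee ((l : ℝ) * t) * (evP (uu A t) (vv B t) x.P * Ph a b (ζ t))) =
      mean (fun t => ee ((l : ℝ) * t) * (evP (uu A t) (vv B t) x.P * pp 0 a b (ζ t))) := by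
    rw [hζd]; exact e2
  rw [e1, e2', e4, ← mul_sub]
  have h1 := mean_add (F := fun t => ee ((l : ℝ) * t) * (evP (uu A t) (vv B t) x.P * (pp 0 a b (ζ t)
      - ∑ k ∈ (Finset.range x.K).filter (fun k => k % 2 = 0), TT a b k (ζ t))))
    (G := fun t => ee ((l : ℝ) * t) * (evP (uu A t) (vv B t) x.P *
      ∑ k ∈ (Finset.range x.K).filter (fun k => k % 2 = 0), TT a b k (ζ t)))
    (c0.mul ((cont_evP A B x.P).mul (cpp.sub cT))) (c0.mul ((cont_evP A B x.P).mul cT))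
  have e5 : (fun t => ee ((l : ℝ) * t) * (evP (uu A t) (vv B t) x.P * (pp 0 a b (ζ t)
      - ∑ k ∈ (Finset.range x.K).filter (fun k => k % 2 = 0), TT a b k (ζ t))) +
      ee ((l : ℝ) * t) * (evP (uu A t) (vv B t) x.P *
      ∑ k ∈ (Finset.range x.K).filter (fun k => k % 2 = 0), TT a b k (ζ t))) = fun t =>
      ee ((l : ℝ) * t) * (evP (uu A t) (vv B t) x.P * pp 0 a b (ζ t)) := by
    funext t; ring
  rw [e5] at h1
  rw [h1, add_sub_cancel_right, norm_mul, er6, evR_mulR, evR_mul1, evR_powX]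
  have hDr : ‖(1 / x.D : ℂ)‖ = 1 / (x.D : ℝ) := by
    rw [norm_div, norm_one, Complex.norm_natCast]
  rw [hDr]
  have hG' : (0 : ℝ) ≤ (x.G : ℝ) := by exact_mod_cast hG
  have hsum : 0 ≤ ‖A‖ + 3 / 2 * ‖B‖ := by positivity
  have hm : ‖mean (fun t => ee ((l : ℝ) * t) * (evP (uu A t) (vv B t) x.P * (pp 0 a b (ζ t)
      - ∑ k ∈ (Finset.range x.K).filter (fun k => k % 2 = 0), TT a b k (ζ t))))‖ ≤
      evR ‖A‖ ‖B‖ (abN x.P) * (x.G * (‖A‖ + 3 / 2 * ‖B‖) ^ x.K) := by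
    refine mean_norm fun t => ?_
    rw [norm_mul, norm_ee, one_mul, norm_mul]
    have hr := pp_rem6 ((x.p : ℚ) / 2) ((x.q : ℚ) / 2) x.G 0 x.K (by norm_num) hKs hp hq hE (ζ t)
      ((hζ' t).trans hζr)
    have ha' : ((((x.p : ℚ) / 2 : ℚ)) : ℝ) = a := by rw [ha]; push_cast; rfl
    have hb' : ((((x.q : ℚ) / 2 : ℚ)) : ℝ) = b := by rw [hb]; push_cast; rfl
    rw [ha', hb'] at hr
    have hP2 := norm_evP_N (uu A t) (vv B t) x.P
    have hu : ‖uu A t‖ = ‖A‖ := by unfold uu; rw [norm_mul, norm_ee, mul_one]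
    have hv : ‖vv B t‖ = ‖B‖ := by unfold vv; rw [norm_mul, norm_ee, mul_one]
    rw [hu, hv] at hP2
    refine mul_le_mul hP2 (hr.trans (mul_le_mul_of_nonneg_left (pow_le_pow_left₀ (norm_nonneg _) (hζ' t) _) hG'))
      (norm_nonneg _) ((norm_nonneg _).trans hP2)
  have hD1 : (0 : ℝ) < (x.D : ℝ) := by exact_mod_cast hD
  refine (mul_le_mul_of_nonneg_left hm (by positivity)).trans (le_of_eq ?_)
  push_cast
  field_simp
  try ring

/-- errors of a list -/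
def tot6 : List It → P2
  | [] => []
  | x :: F => er6 x ++ tot6 F

/-- a list of terms -/
theorem lf6 (A B : ℂ) (Z : Po) (zp zc : List Po) (hz : Pw Z zp) (hzc : Pw (cjP Z) zc) (hZ : parP 1 Z = true)
    (hζ : ∀ t, ‖evP (uu A t) (vv B t) Z / 4‖ ≤ ‖A‖ + 3 / 2 * ‖B‖) (hζr : ‖A‖ + 3 / 2 * ‖B‖ ≤ 1 / 6)
    (l : ℤ) (hs : l.natAbs % 2 = 0) (Dc : ℤ) (hDc : Dc ≠ 0) : ∀ (F : List It) (acc : Po),
    chkD Dc F = true → (F.all chk6) = true →
    ‖mean (fun t => ee ((l : ℝ) * t) * lfV A B Z F t) - (evP A B (totI zp zc l 0 Dc F acc) - evP A B acc) / Dc‖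
      ≤ evR ‖A‖ ‖B‖ (tot6 F)
  | [], acc, _, _ => by simp [totI, tot6, evR, lfV, mean]
  | x :: F, acc, hd, h => by
    unfold chkD at hd
    rw [List.all_cons, Bool.and_eq_true] at h hd
    have hζ1 : ∀ t, ‖evP (uu A t) (vv B t) Z / 4‖ < 1 := fun t => ((hζ t).trans hζr).trans_lt (by norm_num)
    have c0 : Continuous fun t : ℝ => ee ((l : ℝ) * t) := continuous_ee.comp (by fun_prop)
    have h1 := it_mean6 A B Z zp zc hz hzc hZ hζ hζr l hs x h.1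
    have h2 := lf6 A B Z zp zc hz hzc hZ hζ hζr l hs Dc hDc F
      (resK zp zc (smP (Dc / (x.D * 16 ^ x.K), 0) x.P) x.p x.q l 0 x.K x.K acc) hd.2 h.2
    have hx := h.1
    unfold chk6 at hx
    simp only [Bool.and_eq_true, decide_eq_true_eq, beq_iff_eq] at hx
    obtain ⟨⟨⟨⟨⟨⟨⟨⟨⟨hD, hK8⟩, hKs⟩, hG⟩, hP⟩, hp⟩, hq⟩, hE⟩, hbp⟩, hbq⟩ := hx
    have hdec : Dc / (x.D * 16 ^ x.K) * (x.D * 16 ^ x.K) = Dc := of_decide_eq_true hd.1
    have e1 : (fun t => ee ((l : ℝ) * t) * lfV A B Z (x :: F) t) = fun t =>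
        ee ((l : ℝ) * t) * x.v A B Z t + ee ((l : ℝ) * t) * lfV A B Z F t := by
      funext t
      simp only [lfV, List.map_cons, List.sum_cons]
      ring
    have hadd := mean_add (F := fun t => ee ((l : ℝ) * t) * x.v A B Z t) (G := fun t => ee ((l : ℝ) * t) * lfV A B Z F t)
      (c0.mul (cont_It A B Z hζ1 x)) (c0.mul (cont_lf A B Z hζ1 F))
    rw [resK_scale A B Z zp zc hz hzc x.P x.p x.q l 0 x.K _ hK8 hbp hbq acc] at h2
    obtain ⟨W, hW⟩ : ∃ W, W = evP A B (totI zp zc l 0 Dc F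
      (resK zp zc (smP (Dc / (x.D * 16 ^ x.K), 0) x.P) x.p x.q l 0 x.K x.K acc)) := ⟨_, rfl⟩
    obtain ⟨R, hR⟩ : ∃ R, R = evP A B (resK zp zc x.P x.p x.q l 0 x.K x.K []) := ⟨_, rfl⟩
    rw [← hW, ← hR] at h2
    rw [← hR] at h1
    have hDc' : (Dc : ℂ) ≠ 0 := by exact_mod_cast hDc
    have hcc : ((Dc / (x.D * 16 ^ x.K) : ℤ) : ℂ) * ((x.D * 16 ^ x.K : ℕ) : ℂ) = (Dc : ℂ) := by
      have := congrArg (fun z : ℤ => (z : ℂ)) hdec
      push_cast at this ⊢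
      exact this
    have hD0 : ((x.D * 16 ^ x.K : ℕ) : ℂ) ≠ 0 := by
      intro h0
      rw [h0, mul_zero] at hcc
      exact hDc' hcc.symm
    have e3 : R / ((x.D * 16 ^ x.K : ℕ) : ℂ) = ((Dc / (x.D * 16 ^ x.K) : ℤ) : ℂ) * R / Dc := by
      rw [div_eq_div_iff hD0 hDc', ← hcc]; ring
    rw [e3] at h1
    rw [e1, hadd, totI, tot6, evR_append]
    refine le_trans (le_of_eq ?_) ((norm_add_le _ _).trans (add_le_add h1 h2))
    congr 1
    rw [← hW]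
    field_simp
    ring

end Pool.Agent.Helper33.ET
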