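import Pool.Agent.Helper33.SH.W

/-!
# Project RC, SHARP: faster kernel arithmetic for the lists `Po`
-/

set_option autoImplicit false

namespace Pool.Agent.Helper33.SH

open Helper49.LT hiding sg s3
open Pool.Agent.Helper35.RC
open Pool.Agent.Helper35.Cas

/-- equality of monomials -/
def eqM (a b : Mo) : Bool :=
  Nat.beq a.1 b.1 && (Nat.beq a.2.1 b.2.1 && (Nat.beq a.2.2.1 b.2.2.1 && Nat.beq a.2.2.2 b.2.2.2))

theorem eqM_ok {a b : Mo} (h : eqM a b = true) : a = b := by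
  unfold eqM at h
  simp only [Bool.and_eq_true] at h
  obtain ⟨h1, h2, h3, h4⟩ := h
  exact Prod.ext (Nat.eq_of_beq_eq_true h1) (Prod.ext (Nat.eq_of_beq_eq_true h2)
    (Prod.ext (Nat.eq_of_beq_eq_true h3) (Nat.eq_of_beq_eq_true h4)))

/-- insertion of a term -/
def insF (m : Mo) (c : Co) : Po → Po
  | [] => [(m, c)]
  | x :: p => cond (eqM x.1 m) ((m, addC c x.2) :: p) (x :: insF m c p)

theorem evP_insF (u v : ℂ) (m : Mo) (c : Co) : ∀ p : Po,
    evP u v (insF m c p) = evC c * evM u v m + evP u v p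
  | [] => by simp [insF]
  | x :: p => by
    unfold insF
    cases h : eqM x.1 m with
    | true => rw [cond_true, evP_cons, evP_cons, evC_add, eqM_ok h]; ring
    | false => rw [cond_false, evP_cons, evP_cons, evP_insF u v m c p]; ring

/-- sum -/
def addF : Po → Po → Po
  | [], q => q
  | x :: p, q => addF p (insF x.1 x.2 q)

theorem evP_addF (u v : ℂ) : ∀ p q : Po, evP u v (addF p q) = evP u v p + evP u v q
  | [], q => by simp [addF]
  | x :: p, q => by
    rw [addF, evP_addF u v p, evP_insF, evP_cons]; ring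

/-- product -/
def mulF : Po → Po → Po
  | [], _ => []
  | x :: p, q => addF (mulT x.1 x.2 q) (mulF p q)

theorem evP_mulF (u v : ℂ) : ∀ p q : Po, evP u v (mulF p q) = evP u v p * evP u v q
  | [], q => by simp [mulF]
  | x :: p, q => by
    rw [mulF, evP_addF, evP_mulT, evP_mulF u v p, evP_cons]; ring

/-- power -/
def powF (p : Po) : ℕ → Po
  | 0 => [((0, 0, 0, 0), (1, 0))]
  | n + 1 => mulF p (powF p n)

theorem evP_powF (u v : ℂ) (p : Po) : ∀ n : ℕ, evP u v (powF p n) = evP u v p ^ n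
  | 0 => by simp [powF, evC, evM]
  | n + 1 => by
    rw [powF, evP_mulF, evP_powF u v p n, pow_succ]; ring

/-- term of `TT` -/
def TkTF (Z : Po) (p q : ℤ) (k i : ℕ) : Po :=
  smP (bi p i * bi q (k - i), 0) (mulF (powF Z i) (powF (cjP Z) (k - i)))

def TkSF (Z : Po) (p q : ℤ) (k : ℕ) : ℕ → Po
  | 0 => []
  | n + 1 => addF (TkTF Z p q k n) (TkSF Z p q k n)

def TkPF (Z : Po) (p q : ℤ) (k : ℕ) : Po := TkSF Z p q k (k + 1)

theorem evP_TkTF (u v : ℂ) (Z : Po) (p q : ℤ) (k i : ℕ) : evP u v (TkTF Z p q k i) = evP u v (TkT Z p q k i) := by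
  unfold TkTF TkT
  rw [evP_sm, evP_sm, evP_mulF, evP_mul, evP_powF, evP_powF, evP_pow, evP_pow]

theorem evP_TkSF (u v : ℂ) (Z : Po) (p q : ℤ) (k : ℕ) : ∀ n : ℕ,
    evP u v (TkSF Z p q k n) = evP u v (TkS Z p q k n)
  | 0 => rfl
  | n + 1 => by rw [TkSF, TkS, evP_addF, evP_add, evP_TkTF, evP_TkSF u v Z p q k n]

/-- `16^K ∑_{k < n, k ≡ s} TT_k` -/
def sumF (Z : Po) (p q : ℤ) (s K : ℕ) : ℕ → Po
  | 0 => []
  | n + 1 => cond (Nat.beq (n % 2) s) (addF (smP (16 ^ (K - n), 0) (TkPF Z p q n)) (sumF Z p q s K n))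
      (sumF Z p q s K n)

theorem evP_sumF (u v : ℂ) (Z : Po) (p q : ℤ) (s K : ℕ) : ∀ n : ℕ,
    evP u v (sumF Z p q s K n) = evP u v (sumS Z p q s K n)
  | 0 => rfl
  | n + 1 => by
    rw [sumF, sumS]
    by_cases h : n % 2 = s
    · rw [if_pos h]
      have h' : Nat.beq (n % 2) s = true := by rw [h]; exact Nat.beq_refl s
      rw [h', cond_true, evP_addF, evP_add, evP_sm, evP_sm, evP_sumF u v Z p q s K n]
      unfold TkPF TkP
      rw [evP_TkSF]
    · rw [if_neg h]
      have h' : Nat.beq (n % 2) s = false := by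
        rw [← Bool.not_eq_true]
        exact fun h9 => h (Nat.eq_of_beq_eq_true h9)
      rw [h', cond_false, evP_sumF u v Z p q s K n]

end Pool.Agent.Helper33.SH
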