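import Pool.Agent.Helper43.SH.Exp2

/-!
# Project RC, SHARP, link (6): the linear part `LinP` as three means (statements)

`LinP = ⟨Re (conj GZ ρ)⟩ + ⟨2 Re GX β₂ + 2 Im GY β₃⟩ + (rows l ≥ 12 of (D2))`,
`GZ = 2 (V1 - V2)`, `GX = om V1 + om² V2 + X0`, `GY = (s3 + 1/4) V1 + (s3 - 1/4) V2 + Y0`, `V1`, `V2` the total local
directions (local term, `2 H₀ e₀(R)`, the rows `l = 2, 4, .., 10` of (D2)).
-/

set_option autoImplicit false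

open MeasureTheory Set Filter Topology

namespace Pool.Agent.Helper33.GL

open Helper49.LT hiding sg
open Helper49.RC (om)
open Helper49.Sharp
open Helper56.RC (fc)
open Helper87.RC (BM)
open Helper95.SH (Dat)
open Pool.Agent.Helper20.RC (lk lk_ge lk_sq)
open Pool.Agent.Helper43.SH

section defs

variable (P : Par) (bs zs : ℝ → ℂ)

/-- `c_l e^{ilt}`, `c_l = 2 H_l(s) - ν e_l(s)/(l²-1)`, `l = lk k = 2 k + 2` -/
noncomputable def Cl (k : ℕ) (t : ℝ) : ℂ :=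
  (2 * Hk (P.dal bs) k - (P.nu : ℂ) * P.eA bs zs k / ((lk k : ℂ) ^ 2 - 1)) * ee (lk k * t)

/-- total local direction `1` -/
noncomputable def V1 (t : ℝ) : ℂ :=
  W1 P t + (P.H0 bs : ℂ) * P.v1 t + 1 / 2 * ∑ k ∈ Finset.range 5,
    ((1 - (lk k : ℂ)) / 2 * (Cl P bs zs k t * P.v1 t ^ (2 * k + 3))
      + (1 + (lk k : ℂ)) / 2 * (starRingEnd ℂ) (Cl P bs zs k t * P.v1 t ^ (2 * k + 1)))

/-- total local direction `2` -/
noncomputable def V2 (t : ℝ) : ℂ :=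
  W2 P t + (P.H0 bs : ℂ) * P.v2 t + 1 / 2 * ∑ k ∈ Finset.range 5,
    ((1 - (lk k : ℂ)) / 2 * (Cl P bs zs k t * P.v2 t ^ (2 * k + 3))
      + (1 + (lk k : ℂ)) / 2 * (starRingEnd ℂ) (Cl P bs zs k t * P.v2 t ^ (2 * k + 1)))

/-- `Ê_l = (e_l(s) - (2/ν)(l²-1) H_l(s)) e^{ilt}` -/
noncomputable def El (k : ℕ) (t : ℝ) : ℂ :=
  (P.eA bs zs k - 2 / (P.nu : ℂ) * ((lk k : ℂ) ^ 2 - 1) * Hk (P.dal bs) k) * ee (lk k * t)

/-- `q = 1 + η e^{2it}/3 - conj η e^{-2it} + ∑ α_{2j}/(2j+1) e^{2ijt}` -/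
noncomputable def qb (t : ℝ) : ℂ :=
  1 + P.eta * ee (2 * t) / 3 - (starRingEnd ℂ) P.eta * ee (-2 * t)
    + ∑ j ∈ Finset.Icc (-6 : ℤ) 6, fc (P.al bs) (2 * j) / (2 * (j : ℂ) + 1) * ee (((2 * j : ℤ) : ℝ) * t)

/-- the explicit part of the row of `β₂` -/
noncomputable def X0 (t : ℝ) : ℂ :=
  2 / 3 * ((P.eta + P.sig bs) * ee (2 * t)) + qb P bs t + ((P.e00 bs zs - P.pr2 * (P.H0 bs - P.h0) : ℝ) : ℂ)
    - ∑ k ∈ Finset.range 4, El P bs zs (k + 1) t / ((lk (k + 1) : ℂ) ^ 2 - 1) + (9 - (P.cs : ℂ)) * ((bs t).re : ℂ)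

/-- the explicit part of the row of `β₃` -/
noncomputable def Y0 (t : ℝ) : ℂ :=
  -(2 / 3 * ((P.eta + P.sig bs) * ee (2 * t))) + qb P bs t / 2
    + ∑ k ∈ Finset.range 4, (lk (k + 1) : ℂ) / (2 * ((lk (k + 1) : ℂ) ^ 2 - 1)) * El P bs zs (k + 1) t
    + (9 - (P.cs : ℂ)) * (Complex.I * ((bs t).im : ℂ))

/-- the three gradient functions -/
noncomputable def GZ (t : ℝ) : ℂ := 2 * (V1 P bs zs t - V2 P bs zs t)
noncomputable def GX (t : ℝ) : ℂ := om * V1 P bs zs t + om ^ 2 * V2 P bs zs t + X0 P bs zs t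
noncomputable def GY (t : ℝ) : ℂ := (Complex.I * (Real.sqrt 3 : ℂ) + 1 / 4) * V1 P bs zs t
    + (Complex.I * (Real.sqrt 3 : ℂ) - 1 / 4) * V2 P bs zs t + Y0 P bs zs t

/-- the rows `l ≥ 12` of (D2), linear part -/
noncomputable def TailL (β ρ : ℝ → ℂ) : ℝ :=
  ∑' k : ℕ, (2 * (Hk (P.dal bs) (k + 5) * (starRingEnd ℂ) (eR P β ρ (k + 5))).re
      + 2 * (hK β (k + 5) * (starRingEnd ℂ) (P.eA bs zs (k + 5))).re
      - 4 / P.nu * (lk (k + 5) ^ 2 - 1) * ((starRingEnd ℂ) (Hk (P.dal bs) (k + 5)) * hK β (k + 5)).re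
      - P.nu * ((starRingEnd ℂ) (P.eA bs zs (k + 5)) * eR P β ρ (k + 5)).re / (lk (k + 5) ^ 2 - 1))

end defs

/-- hypotheses on the rest -/
structure RB (β ρ : ℝ → ℂ) : Prop where
  bb : ∃ C, BM β C
  br : ∃ C, BM ρ C
  pb : ∀ t, β (t + Real.pi) = β t
  pr : ∀ t, ρ (t + Real.pi) = -ρ t

/-- (GA1): the families -/
def StGA1 : Prop := ∀ (P : Par) (bs zs β ρ : ℝ → ℂ), P.Reg → RB β ρ →
  2 * P.H0 bs * e0R P β ρ
    + (∑ k ∈ Finset.range 5, (2 * (Hk (P.dal bs) k * (starRingEnd ℂ) (eR P β ρ k)).re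
      - P.nu * ((starRingEnd ℂ) (P.eA bs zs k) * eR P β ρ k).re / (lk k ^ 2 - 1)))
    + mean (fun t => 2 * ((starRingEnd ℂ) (W1 P t) * g1L (β t) (ρ t)).re
      + 2 * ((starRingEnd ℂ) (W2 P t) * g2L (β t) (ρ t)).re) =
  mean (fun t => 2 * ((starRingEnd ℂ) (V1 P bs zs t) * g1L (β t) (ρ t)).re
      + 2 * ((starRingEnd ℂ) (V2 P bs zs t) * g2L (β t) (ρ t)).re)

/-- (GA2): the explicit rows -/
def StGA2 : Prop := ∀ (P : Par) (bs zs β ρ : ℝ → ℂ), P.Reg → Dat bs zs → RB β ρ →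
  (∀ j : ℤ, 6 < |j| → fc (P.al bs) (2 * j) = 0) →
  4 / 3 * ((starRingEnd ℂ) (P.eta + P.sig bs) * sgR β).re
    + 2 * (fc (dl β) 0 + (starRingEnd ℂ) P.eta * fc (dl β) 2 / 3 - P.eta * fc (dl β) (-2)).re
    + (∑' j : ℤ, 2 * ((starRingEnd ℂ) (fc (P.al bs) (2 * j)) * fc (dl β) (2 * j)).re / (2 * (j : ℝ) + 1))
    + 2 * hR β * P.e00 bs zs - 2 * P.pr2 * (P.H0 bs - P.h0) * hR β
    + (∑ k ∈ Finset.range 5, (2 * (hK β k * (starRingEnd ℂ) (P.eA bs zs k)).re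
      - 4 / P.nu * (lk k ^ 2 - 1) * ((starRingEnd ℂ) (Hk (P.dal bs) k) * hK β k).re))
    + mean (fun t => 2 * (9 - P.cs) * ((starRingEnd ℂ) (bs t) * β t).re) =
  mean (fun t => 2 * (X0 P bs zs t).re * (β t).re + 2 * (Y0 P bs zs t).im * (β t).im)

/-- (GA): the assembly -/
def StGA : Prop := ∀ (P : Par) (bs zs β ρ : ℝ → ℂ), P.Reg → (P.ga = fun _ => 0) → Dat bs zs → RB β ρ →
  (∀ j : ℤ, 6 < |j| → fc (P.al bs) (2 * j) = 0) →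
  LinP P bs zs β ρ = mean (fun t => ((starRingEnd ℂ) (GZ P bs zs t) * ρ t).re)
    + mean (fun t => 2 * (GX P bs zs t).re * (β t).re + 2 * (GY P bs zs t).im * (β t).im) + TailL P bs zs β ρ

end Pool.Agent.Helper33.GL
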