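import Pool.Agent.Helper33.SH.GDef
import Pool.Agent.Helper33.SH.Fast

/-!
# Project RC, SHARP, link (6): the literal lists and the statements of the models (generated)
-/

set_option autoImplicit false

open MeasureTheory Set Filter Topology

namespace Pool.Agent.Helper33.GM

open Helper49.LT hiding sg s3
open Helper49.RC (om)
open Helper49.Sharp
open Helper56.RC (fc)
open Pool.Agent.Helper20.RC (lk)
open Pool.Agent.Helper35.Cas (Po evP uu vv)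
open Pool.Agent.Helper33.SH (PI ZC b0I z0I)
open Pool.Agent.Helper33.GL (Cl El qb X0 Y0)

/-- `25600 e_l(s)` through the degree 4, `l = 2 j` -/
def eP : ℕ → Po
  | 0 =>
  [((0, 0, 0, 0), (51200, 0)), ((1, 1, 0, 0), (8576, 0)), ((0, 0, 1, 1), (15360, 0)), ((2, 2, 0, 0), (4304, 0)),
     ((1, 1, 1, 1), (-82280, 0)), ((0, 0, 2, 2), (1119, 0))]
  | 1 =>
  [((1, 0, 0, 1), (7232, 0)), ((2, 1, 0, 1), (-51228, 0)), ((1, 0, 1, 2), (13725, 0))]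
  | 2 =>
  [((2, 0, 0, 2), (111632, 0)), ((0, 3, 1, 0), (309520, 0))]
  | 3 =>
  [((0, 2, 0, 0), (7680, 0)), ((1, 3, 0, 0), (-1002680, 0)), ((0, 2, 1, 1), (1415780, 0))]
  | 4 =>
  [((0, 1, 0, 1), (864096, 0)), ((1, 2, 0, 1), (-2078968, 0)), ((0, 1, 1, 2), (-5116676, 0))]
  | 5 =>
  [((0, 0, 0, 2), (-507440, 0)), ((1, 1, 0, 2), (7887240, 0)), ((0, 0, 1, 3), (2295513, 0))]
  | _ => []

/-- denominator of `cP` -/
def dC : ℕ := 1064448000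

/-- `dC c_l(s)` through the degree 4, `c_l = 2 H_l - e_l/(12 (l²-1))`, `l = 2 k + 2` -/
def cP : ℕ → Po
  | 0 =>
  [((1, 0, 0, 1), (-8352960, 0)), ((2, 1, 0, 1), (59168340, 0)), ((1, 0, 1, 2), (-15852375, 0))]
  | 1 =>
  [((2, 0, 0, 2), (-329509488, 0)), ((0, 3, 1, 0), (-246068592, 0))]
  | 2 =>
  [((0, 2, 0, 0), (53678592, 0)), ((1, 3, 0, 0), (99265320, 0)), ((0, 2, 1, 1), (80634708, 0))]
  | 3 =>
  [((0, 1, 0, 1), (-126091680, 0)), ((1, 2, 0, 1), (34932040, 0)), ((0, 1, 1, 2), (272631260, 0))]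
  | 4 =>
  [((0, 0, 0, 2), (21523600, 0)), ((1, 1, 0, 2), (-154125720, 0)), ((0, 0, 1, 3), (-80342955, 0))]
  | _ => []

/-- `200 H₀(s)` -/
def h0P : Po :=
  [((1, 1, 0, 0), (33, 0)), ((0, 0, 1, 1), (-45, 0)), ((1, 1, 1, 1), (248, 0))]

/-- denominators of `x0P`, `y0P` -/
def dX : ℕ := 1153152000
def dY : ℕ := 1153152000

/-- `dX X0` through the degree 4 -/
def x0P : Po :=
  [((0, 0, 0, 0), (3459456000, 0)), ((2, 0, 0, 0), (-508395888, 0)), ((1, 1, 0, 0), (2236682448, 0)),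
   ((1, 0, 1, 0), (2778499152, 0)), ((1, 0, 0, 1), (-6001867872, 0)), ((0, 2, 0, 0), (158455440, 0)),
   ((0, 1, 1, 0), (-236107872, 0)), ((0, 1, 0, 1), (1232108592, 0)), ((0, 0, 2, 0), (499539040, 0)),
   ((0, 0, 1, 1), (-1831349520, 0)), ((0, 0, 0, 2), (790469680, 0)), ((3, 0, 0, 1), (-149909760, 0)),
   ((2, 2, 0, 0), (193873680, 0)), ((2, 1, 1, 0), (-64247040, 0)), ((2, 1, 0, 1), (-380540160, 0)),
   ((2, 0, 1, 1), (249080832, 0)), ((2, 0, 0, 2), (-4228272048, 0)), ((1, 3, 0, 0), (1290449160, 0)),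
   ((1, 2, 1, 0), (380540160, 0)), ((1, 2, 0, 1), (432334760, 0)), ((1, 1, 2, 0), (138378240, 0)),
   ((1, 1, 1, 1), (-10855845000, 0)), ((1, 1, 0, 2), (-2009924280, 0)), ((1, 0, 2, 1), (9060480, 0)),
   ((1, 0, 1, 2), (518918400, 0)), ((1, 0, 0, 3), (-12862080, 0)), ((0, 3, 1, 0), (-3238098864, 0)),
   ((0, 2, 2, 0), (-384384000, 0)), ((0, 2, 1, 1), (1038367044, 0)), ((0, 1, 3, 0), (5765760, 0)),
   ((0, 1, 2, 1), (-518918400, 0)), ((0, 1, 1, 2), (3525627820, 0)), ((0, 0, 2, 2), (50405355, 0)),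
   ((0, 0, 1, 3), (-1044458415, 0))]

/-- `dY Y0` through the degree 4 -/
def y0P : Po :=
  [((0, 0, 0, 0), (576576000, 0)), ((2, 0, 0, 0), (-2794663872, 0)), ((1, 1, 0, 0), (95135040, 0)),
   ((1, 0, 1, 0), (5086759392, 0)), ((1, 0, 0, 1), (5483814336, 0)), ((0, 2, 0, 0), (730686528, 0)),
   ((0, 1, 1, 0), (-2381835456, 0)), ((0, 1, 0, 1), (1427451168, 0)), ((0, 0, 2, 0), (-454518064, 0)),
   ((0, 0, 1, 1), (-129729600, 0)), ((0, 0, 0, 2), (-942477536, 0)), ((3, 0, 0, 1), (-74954880, 0)),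
   ((2, 1, 1, 0), (-32123520, 0)), ((2, 1, 0, 1), (190270080, 0)), ((2, 0, 1, 1), (124540416, 0)),
   ((2, 0, 0, 2), (8594922336, 0)), ((1, 3, 0, 0), (-3871347480, 0)), ((1, 2, 1, 0), (190270080, 0)),
   ((1, 2, 0, 1), (-1827356960, 0)), ((1, 1, 2, 0), (69189120, 0)), ((1, 1, 1, 1), (714954240, 0)),
   ((1, 1, 0, 2), (10015026840, 0)), ((1, 0, 2, 1), (4530240, 0)), ((1, 0, 1, 2), (-259459200, 0)),
   ((1, 0, 0, 3), (-6431040, 0)), ((0, 3, 1, 0), (6378179808, 0)), ((0, 2, 2, 0), (-192192000, 0)),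
   ((0, 2, 1, 1), (-3149695692, 0)), ((0, 1, 3, 0), (2882880, 0)), ((0, 1, 2, 1), (-259459200, 0)),
   ((0, 1, 1, 2), (-14186114800, 0)), ((0, 0, 1, 3), (5222292075, 0))]

/-- the moments at the base (interface to the module of the moments): `|e_{2j}(s) - eP j / 25600| ≤ δ j` -/
structure EH (P : Par) (A : ℝ) (B : ℂ) (δ : ℕ → ℝ) : Prop where
  e0 : |P.e00 (b0I A B) (z0I A B) - (evP A B (eP 0) / 25600).re| ≤ δ 0
  el : ∀ k < 5, ‖P.eA (b0I A B) (z0I A B) k - evP A B (eP (k + 1)) / 25600‖ ≤ δ (k + 1)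

/-- the numbers which enter the rows -/
structure OKc (c : ZC) (A : ℝ) (B : ℂ) : Prop where
  cs : c.cs = 11 / 40
  pr2 : c.pr2 = 6
  h0 : c.h0 = 33 / 200 * A ^ 2 - 9 / 40 * ‖B‖ ^ 2

/-- (C): `C_l e^{ilt}` and `H₀` at the base -/
def StC : Prop := ∀ (c : ZC) (A : ℝ) (B : ℂ) (δ : ℕ → ℝ), OKc c A B → EH (PI c A B) A B δ →
  (∀ k < 5, ∀ t : ℝ, ‖Cl (PI c A B) (b0I A B) (z0I A B) k t - evP (uu A t) (vv B t) (cP k) / dC‖
    ≤ 1 / 12 / (lk k ^ 2 - 1) * δ (k + 1))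
  ∧ (∀ t : ℝ, (((PI c A B).H0 (b0I A B) : ℝ) : ℂ) = evP (uu A t) (vv B t) h0P / 200)
  ∧ (∀ j : ℤ, 6 < |j| → fc ((PI c A B).al (b0I A B)) (2 * j) = 0)

/-- (X): the explicit rows at the base -/
def StX : Prop := ∀ (c : ZC) (A : ℝ) (B : ℂ) (δ : ℕ → ℝ), OKc c A B → EH (PI c A B) A B δ → ∀ t : ℝ,
  ‖X0 (PI c A B) (b0I A B) (z0I A B) t - evP (uu A t) (vv B t) x0P / dX‖
    ≤ δ 0 + ∑ k ∈ Finset.range 4, 1 / (lk (k + 1) ^ 2 - 1) * δ (k + 2)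
  ∧ ‖Y0 (PI c A B) (b0I A B) (z0I A B) t - evP (uu A t) (vv B t) y0P / dY‖
    ≤ ∑ k ∈ Finset.range 4, lk (k + 1) / (2 * (lk (k + 1) ^ 2 - 1)) * δ (k + 2)

end Pool.Agent.Helper33.GM
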