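import Pool.Agent.Helper33.SH.GMod4
import Pool.Agent.Helper43.SH.GoodI

/-!
# Project RC, SHARP, link (6): (G-LOC) = the rows of `LinP` at the base of zone I
-/

set_option autoImplicit false

open MeasureTheory Set Filter Topology

namespace Pool.Agent.Helper33.GM

open Helper49.LT hiding sg s3
open Helper49.Sharp
open Helper56.RC (fc)
open Helper95.SH (Dat)
open Pool.Agent.Helper20.RC (lk)
open Pool.Agent.Helper33.SH (PI ZC b0I z0I)
open Pool.Agent.Helper33.GL (TailL RB)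
open Pool.Agent.Helper43.SH (LinP)
open Pool.Agent.Helper26.SH (N2)
open Helper27.SH (P2 evR)
open Pool.Agent.Helper7.GX (hStX)

/-- errors of the three functions -/
noncomputable def eZ (A y : ℝ) (δ : ℕ → ℝ) : ℝ := 4 * (evR A y evo + rmV δ)
noncomputable def eX (A y : ℝ) (δ : ℕ → ℝ) : ℝ := 4 * (evR A y eve + rmV δ) + 2 * rmX δ
noncomputable def eY (A y : ℝ) (δ : ℕ → ℝ) : ℝ := 7 * (evR A y eve + rmV δ) + 2 * rmY δ

/-- (G-LOC) -/
theorem gloc (hR : StR) {c : ZC} {A : ℝ} {B : ℂ} {δ : ℕ → ℝ} (ok : OKc c A B) (hρ : 100 ≤ c.rho) (hm : c.lam ≤ c.m)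
    (hA : 0 ≤ A) (hZ : A + 2 * ‖B‖ ≤ 1 / 4) (hE : EH (PI c A B) A B δ) {β ρ : ℝ → ℂ} (h : RB β ρ) :
    |LinP (PI c A B) (b0I A B) (z0I A B) β ρ - (rsm A B (rwZ dz qz) (fc ρ)
      + rsm A B (rwP dx qx) (fc fun t => ((β t).re : ℂ)) + rsm A B (rwR dy qy) (fc fun t => ((β t).im : ℂ)))| ≤
    eZ A ‖B‖ δ * N2 (fun t => ‖ρ t‖) + eX A ‖B‖ δ * N2 (fun t => (β t).re) + eY A ‖B‖ δ * N2 (fun t => (β t).im)
      + |TailL (PI c A B) (b0I A B) (z0I A B) β ρ| := by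
  have hB := norm_nonneg B
  have hZ' : |A| + 2 * ‖B‖ ≤ 1 / 4 := by rwa [abs_of_nonneg hA]
  have hM := mod_PI hStC hStX ok hE hA (by linarith)
  have h3 := (hStC c A B δ ok hE).2.2
  have h4 := hR c A B _ _ _ β ρ (by rw [abs_of_nonneg hA]; linarith)
    (Pool.Agent.Helper43.SH.reg_PI hZ' hρ hm) (Pool.Agent.Helper43.SH.dat_PI hZ') h3 hM h
  have e2 : 2 * (2 * (evR A ‖B‖ eve + rmV δ) + rmX δ) = eX A ‖B‖ δ := by unfold eX; ring
  have e3 : 2 * (7 / 2 * (evR A ‖B‖ eve + rmV δ) + rmY δ) = eY A ‖B‖ δ := by unfold eY; ring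
  rw [e2, e3] at h4
  exact h4

end Pool.Agent.Helper33.GM
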