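import Pool.Agent.Helper33.SH.GRow
import Pool.Agent.Helper33.SH.GFun

/-!
# Project RC, SHARP, link (6): the model of the total directions
-/

set_option autoImplicit false

open MeasureTheory Set Filter Topology

namespace Pool.Agent.Helper33.GM

open Helper49.LT hiding sg s3
open Helper49.RC (om)
open Helper49.Sharp
open Helper56.RC (fc)
open Pool.Agent.Helper20.RC (lk lk_ge lk_sq)
open Pool.Agent.Helper35.RC
open Pool.Agent.Helper35.Cas
open Helper27.SH (P2 evR)
open Pool.Agent.Helper33.SH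
open Pool.Agent.Helper33.GL (Cl V1 V2)

/-! ### the list of the powers -/

theorem k1 : eqP (addF (kp 0) (addF (kp 1) (kp 2)))
    (addF [((0, 0, 0, 0), (4257792000, 0))] (smP (21288960, 0) h0P)) = true := by decide +kernel
theorem k3 : eqP (addF (kp 3) (kp 4)) (addF [((1, 0, 0, 1), (-2838528000, 0))] (smP (-1, 0) (cP 0))) = true := by
  decide +kernel
theorem km1 : eqP (addF (kp 5) (kp 6)) (addF [((0, 1, 1, 0), (8515584000, 0))] (smP (3, 0) (cjP (cP 0)))) = true := by
  decide +kernel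
theorem k5 : eqP (kp 7) (smP (-3, 0) (cP 1)) = true := by decide +kernel
theorem km3 : eqP (kp 8) (smP (5, 0) (cjP (cP 1))) = true := by decide +kernel
theorem k7 : eqP (addF (kp 9) (kp 10)) (smP (-5, 0) (cP 2)) = true := by decide +kernel
theorem km5 : eqP (addF (kp 11) (kp 12)) (smP (7, 0) (cjP (cP 2))) = true := by decide +kernel
theorem k9 : eqP (addF (kp 13) (kp 14)) (smP (-7, 0) (cP 3)) = true := by decide +kernel
theorem km7 : eqP (addF (kp 15) (kp 16)) (smP (9, 0) (cjP (cP 3))) = true := by decide +kernel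
theorem k11 : eqP (addF (kp 17) (kp 18)) (smP (-9, 0) (cP 4)) = true := by decide +kernel
theorem km9 : eqP (addF (kp 19) (kp 20)) (smP (11, 0) (cjP (cP 4))) = true := by decide +kernel

/-- the sum of the powers, `F m` in the place of the `m`-th power -/
noncomputable def SV (u v : ℂ) (F : ℤ → ℂ) : ℂ :=
  (1 + evP u v h0P / 200) * F 1
    + (-(2 / 3) * (u * (starRingEnd ℂ) v)) * F 3 + 2 * ((starRingEnd ℂ) u * v) * F (-1)
    + 1 / 2 * ∑ k ∈ Finset.range 5, ((1 - (lk k : ℂ)) / 2 * (evP u v (cP k) / dC * F (2 * k + 3))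
      + (1 + (lk k : ℂ)) / 2 * ((starRingEnd ℂ) (evP u v (cP k) / dC) * F (-(2 * k + 1))))

theorem evC_r (n : ℤ) : evC (n, 0) = (n : ℂ) := by simp [evC]

theorem SV_lin (u v : ℂ) (F : ℤ → ℂ) : 
    evP u v (kp 0) / dK * F 1 + (evP u v (kp 1) / dK * F 1 + (evP u v (kp 2) / dK * F 1
    + (evP u v (kp 3) / dK * F 3 + (evP u v (kp 4) / dK * F 3 + (evP u v (kp 5) / dK * F (-1)
    + (evP u v (kp 6) / dK * F (-1) + (evP u v (kp 7) / dK * F 5 + (evP u v (kp 8) / dK * F (-3)
    + (evP u v (kp 9) / dK * F 7 + (evP u v (kp 10) / dK * F 7 + (evP u v (kp 11) / dK * F (-5)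
    + (evP u v (kp 12) / dK * F (-5) + (evP u v (kp 13) / dK * F 9 + (evP u v (kp 14) / dK * F 9
    + (evP u v (kp 15) / dK * F (-7) + (evP u v (kp 16) / dK * F (-7) + (evP u v (kp 17) / dK * F 11
    + (evP u v (kp 18) / dK * F 11 + (evP u v (kp 19) / dK * F (-9) + (evP u v (kp 20) / dK * F (-9)
    )))))))))))))))))))) = SV u v F := by
  have h1 := eqP_ok k1 u v
  have h3 := eqP_ok k3 u v
  have m1 := eqP_ok km1 u v
  have h5 := eqP_ok k5 u v
  have m3 := eqP_ok km3 u v
  have h7 := eqP_ok k7 u v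
  have m5 := eqP_ok km5 u v
  have h9 := eqP_ok k9 u v
  have m7 := eqP_ok km7 u v
  have h11 := eqP_ok k11 u v
  have m9 := eqP_ok km9 u v
  simp only [evP_addF, evP_sm, evC_r, evP_cj, evP_cons, evP_nil, evM] at h1 h3 m1 h5 m3 h7 m5 h9 m7 h11 m9
  push_cast at h1 h3 m1 h5 m3 h7 m5 h9 m7 h11 m9
  unfold SV lk
  simp only [Finset.sum_range_succ, Finset.sum_range_zero, map_div₀, map_natCast, dK, dC]
  push_cast
  norm_num
  linear_combination (F 1 / 4257792000) * h1 + (F 3 / 4257792000) * h3 + (F (-1) / 4257792000) * m1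
    + (F 5 / 4257792000) * h5 + (F (-3) / 4257792000) * m3 + (F 7 / 4257792000) * h7 + (F (-5) / 4257792000) * m5
    + (F 9 / 4257792000) * h9 + (F (-7) / 4257792000) * m7 + (F 11 / 4257792000) * h11 + (F (-9) / 4257792000) * m9

theorem SV_lo (u v : ℂ) (F : ℤ → ℂ) : (Lo.map fun x => evP u v x.1.kP / dK * F x.1.m).sum = SV u v F := by
  rw [← SV_lin]
  simp only [Lo, List.map_cons, List.map_nil, List.sum_cons, List.sum_nil, add_zero]

theorem SV_le (u v : ℂ) (F : ℤ → ℂ) : (Le.map fun x => evP u v x.1.kP / dK * F x.1.m).sum = SV u v F := by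
  rw [← SV_lin]
  simp only [Le, List.map_cons, List.map_nil, List.sum_cons, List.sum_nil, add_zero]

end Pool.Agent.Helper33.GM
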