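import Pool.Agent.Helper35.RC.PhiNum

/-!
# Project RC, SHARP: powers of the unit vector `(1 + ζ)/|1 + ζ|`: Taylor polynomial of any degree with remainder
-/

set_option autoImplicit false

open MeasureTheory Filter Metric Finset

namespace Pool.Agent.Helper33.SH

open Helper49.LT hiding sg
open Pool.Agent.Helper35.RC

/-- `(1 + ζ)^a conj((1 + ζ)^b)` -/
noncomputable def gpw (a b : ℝ) (ζ : ℂ) : ℂ := (1 + ζ) ^ (a : ℂ) * (starRingEnd ℂ) ((1 + ζ) ^ (b : ℂ))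

theorem gpw_hasSum (a b : ℝ) (ζ : ℂ) (h : ‖ζ‖ < 1) : HasSum (fun k : ℕ => TT a b k ζ) (gpw a b ζ) := by
  have h' : ‖(starRingEnd ℂ) ζ‖ < 1 := by rwa [Complex.norm_conj]
  have s1 := summ_pow a ζ h
  have s2 := summ_pow b ((starRingEnd ℂ) ζ) h'
  set f : ℕ → ℂ := fun m => (cb a m : ℂ) * ζ ^ m with hf
  set g : ℕ → ℂ := fun m => (cb b m : ℂ) * (starRingEnd ℂ) ζ ^ m with hg
  have e : (fun k : ℕ => TT a b k ζ) = fun k => ∑ ij ∈ antidiagonal k, f ij.1 * g ij.2 := by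
    funext k
    unfold TT
    refine sum_congr rfl fun ij _ => ?_
    simp only [hf, hg]
    push_cast
    ring
  have k1 : Summable fun k => ‖∑ ij ∈ antidiagonal k, f ij.1 * g ij.2‖ :=
    summable_norm_sum_mul_antidiagonal_of_summable_norm s1 s2
  have k2 : (∑' m, f m) * (∑' m, g m) = ∑' k, ∑ ij ∈ antidiagonal k, f ij.1 * g ij.2 :=
    tsum_mul_tsum_eq_tsum_sum_antidiagonal_of_summable_norm s1 s2
  rw [e]
  have hs := k1.of_norm.hasSum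
  rw [← k2, (hasSum_pow a ζ h).tsum_eq, (hasSum_pow b _ h').tsum_eq] at hs
  have h4 : (1 + ζ).arg ≠ Real.pi :=
    (Complex.mem_slitPlane_iff_arg.1 (Complex.mem_slitPlane_of_norm_lt_one h)).1
  have h3 := Complex.conj_cpow (1 + ζ) ((b : ℝ) : ℂ) h4
  rw [map_add, map_one, Complex.conj_ofReal] at h3
  unfold gpw
  rw [← h3]
  exact hs

/-- the Taylor polynomial of degree `N - 1` -/
noncomputable def tay (a b : ℝ) (N : ℕ) (ζ : ℂ) : ℂ := ∑ k ∈ range N, TT a b k ζ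

/-- the remainder -/
theorem gpw_tay (a b ρ S : ℝ) (N : ℕ) (h0 : 0 < ρ) (h1 : ρ < 1)
    (hS : (∑' m : ℕ, |cb a m| * ρ ^ m) * (∑' m : ℕ, |cb b m| * ρ ^ m) ≤ S) (ζ : ℂ) (hζ : ‖ζ‖ ≤ ρ) :
    ‖gpw a b ζ - tay a b N ζ‖ ≤ (S - ∑ k ∈ range N, gg a b k * ρ ^ k) / ρ ^ N * ‖ζ‖ ^ N := by
  have hz1 : ‖ζ‖ < 1 := lt_of_le_of_lt hζ h1
  have hs := gpw_hasSum a b ζ hz1
  obtain ⟨sg, eg⟩ := gg_summ a b ρ h0.le h1
  have hs1 : HasSum (fun i : ℕ => TT a b (i + N) ζ) (gpw a b ζ - tay a b N ζ) :=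
    (hasSum_nat_add_iff' N).2 hs
  have hg1 : HasSum (fun i : ℕ => gg a b (i + N) * ρ ^ (i + N))
      (∑' k : ℕ, gg a b k * ρ ^ k - ∑ k ∈ range N, gg a b k * ρ ^ k) :=
    (hasSum_nat_add_iff' (f := fun k => gg a b k * ρ ^ k) N).2 sg.hasSum
  have hg2 := hg1.mul_right ((‖ζ‖ / ρ) ^ N)
  have hq : ‖ζ‖ / ρ ≤ 1 := (div_le_one h0).2 hζ
  have hq0 : 0 ≤ ‖ζ‖ / ρ := by positivity
  have hb : ∀ i, ‖TT a b (i + N) ζ‖ ≤ gg a b (i + N) * ρ ^ (i + N) * (‖ζ‖ / ρ) ^ N := by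
    intro i
    refine (TT_norm a b (i + N) ζ).trans ?_
    rw [mul_assoc]
    refine mul_le_mul_of_nonneg_left ?_ (gg_nonneg a b _)
    have e5 : ‖ζ‖ ^ (i + N) = ρ ^ (i + N) * (‖ζ‖ / ρ) ^ (i + N) := by
      rw [div_pow]; field_simp
    rw [e5]
    exact mul_le_mul_of_nonneg_left (pow_le_pow_of_le_one hq0 hq (by omega)) (by positivity)
  have hfin : ‖gpw a b ζ - tay a b N ζ‖ ≤
      (∑' k : ℕ, gg a b k * ρ ^ k - ∑ k ∈ range N, gg a b k * ρ ^ k) * (‖ζ‖ / ρ) ^ N := by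
    rw [← hs1.tsum_eq]
    exact tsum_of_norm_bounded hg2 hb
  refine hfin.trans ?_
  rw [eg, div_pow]
  have h8 : (0 : ℝ) < ρ ^ N := by positivity
  rw [div_mul_eq_mul_div, ← mul_div_assoc]
  gcongr

/-- check of the constant: `M` terms, then a geometric series with the ratio `θ` -/
def chkT (a b ρ θ G : ℚ) (M N : ℕ) : Bool :=
  decide (0 ≤ serQ b ρ θ M) && decide (
  (serQ a ρ θ M * serQ b ρ θ M - ∑ k ∈ range N, ggQ a b k * ρ ^ k) ≤ G * ρ ^ N)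

/-- the remainder with a rational constant; `|a|, |b| ≤ p` and the ratio condition at `M` -/
theorem gpw_tay_G (a b ρ θ G p : ℚ) (M N : ℕ) (h0 : 0 < ρ) (h1 : ρ < 1) (hθ0 : 0 ≤ θ) (hθ : θ < 1)
    (ha : |a| ≤ p) (hb : |b| ≤ p) (hpθ : ρ ≤ θ) (hM : (p + M) * ρ ≤ θ * (M + 1))
    (h : chkT a b ρ θ G M N = true) (ζ : ℂ) (hζ : ‖ζ‖ ≤ (ρ : ℝ)) :
    ‖gpw (a : ℝ) (b : ℝ) ζ - tay (a : ℝ) (b : ℝ) N ζ‖ ≤ (G : ℝ) * ‖ζ‖ ^ N := by
  unfold chkT at h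
  rw [Bool.and_eq_true, decide_eq_true_eq, decide_eq_true_eq] at h
  obtain ⟨hb0, h⟩ := h
  have hr : ∀ c : ℚ, |c| ≤ p → ∀ m : ℕ, M ≤ m → |(c : ℝ) - m| * (ρ : ℝ) ≤ (θ : ℝ) * ((m : ℝ) + 1) := by
    intro c hc m hm
    have hc' : |(c : ℝ)| ≤ (p : ℝ) := by exact_mod_cast hc
    have hm' : (M : ℝ) ≤ m := by exact_mod_cast hm
    have h0' : (0 : ℝ) < ρ := by exact_mod_cast h0
    have hpθ' : (ρ : ℝ) ≤ θ := by exact_mod_cast hpθ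
    have hM' : ((p : ℝ) + M) * ρ ≤ θ * (M + 1) := by exact_mod_cast hM
    have h2 : |(c : ℝ) - m| ≤ p + m := by
      refine (abs_sub _ _).trans ?_
      have : |(m : ℝ)| = m := abs_of_nonneg (by positivity)
      linarith
    have h3 := mul_le_mul_of_nonneg_right h2 h0'.le
    nlinarith
  have sa := ser_le a ρ θ M h0.le hθ0 hθ (hr a ha)
  have sb := ser_le b ρ θ M h0.le hθ0 hθ (hr b hb)
  have hρ0 : (0 : ℝ) < ρ := by exact_mod_cast h0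
  have hρ1 : (ρ : ℝ) < 1 := by exact_mod_cast h1
  have hS : (∑' m : ℕ, |cb (a : ℝ) m| * (ρ : ℝ) ^ m) * (∑' m : ℕ, |cb (b : ℝ) m| * (ρ : ℝ) ^ m)
      ≤ ((serQ a ρ θ M * serQ b ρ θ M : ℚ) : ℝ) := by
    push_cast
    have hx : 0 ≤ ∑' m : ℕ, |cb (b : ℝ) m| * (ρ : ℝ) ^ m := tsum_nonneg fun m => by positivity
    have hy : 0 ≤ ∑' m : ℕ, |cb (a : ℝ) m| * (ρ : ℝ) ^ m := tsum_nonneg fun m => by positivity
    exact mul_le_mul sa sb hx (hy.trans sa)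
  have hmain := gpw_tay (a : ℝ) (b : ℝ) (ρ : ℝ) _ N hρ0 hρ1 hS ζ hζ
  refine hmain.trans (mul_le_mul_of_nonneg_right ?_ (by positivity))
  rw [div_le_iff₀ (by positivity)]
  have h' : ((serQ a ρ θ M * serQ b ρ θ M - ∑ k ∈ range N, ggQ a b k * ρ ^ k : ℚ) : ℝ) ≤
      ((G * ρ ^ N : ℚ) : ℝ) := by exact_mod_cast h
  refine le_trans (le_of_eq ?_) (h'.trans (le_of_eq ?_))
  · rw [Rat.cast_sub]
    congr 1
    rw [Rat.cast_sum]
    refine sum_congr rfl fun k _ => ?_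
    rw [gg_cast]
    push_cast
    ring
  · push_cast
    ring

/-- powers of the unit vector -/
theorem unit_pow (m : ℤ) (ζ : ℂ) (h : ‖ζ‖ < 1) :
    ((1 + ζ) / (‖1 + ζ‖ : ℂ)) ^ m = gpw ((m : ℝ) / 2) (-(m : ℝ) / 2) ζ := by
  have hF : 1 + ζ ≠ 0 := by
    intro h0
    have : ζ = -1 := by linear_combination h0
    rw [this] at h
    simp at h
  have hp : 0 < ‖1 + ζ‖ := norm_pos_iff.2 hF
  unfold gpw
  rw [cpow_ofReal _ hF, cpow_ofReal _ hF, map_mul, Complex.conj_ofReal, ← Complex.exp_conj]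
  have e1 : (starRingEnd ℂ) (((-(m : ℝ) / 2 * (1 + ζ).arg : ℝ) : ℂ) * Complex.I) =
      -(((-(m : ℝ) / 2 * (1 + ζ).arg : ℝ) : ℂ) * Complex.I) := by
    rw [map_mul, Complex.conj_I, Complex.conj_ofReal]; ring
  rw [e1]
  have e2 : ((‖1 + ζ‖ ^ ((m : ℝ) / 2) : ℝ) : ℂ) * ((‖1 + ζ‖ ^ (-(m : ℝ) / 2) : ℝ) : ℂ) = 1 := by
    rw [← Complex.ofReal_mul, ← Real.rpow_add hp]
    rw [show ((m : ℝ) / 2 + -(m : ℝ) / 2) = 0 by ring, Real.rpow_zero, Complex.ofReal_one]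
  have e3 : Complex.exp ((((m : ℝ) / 2 * (1 + ζ).arg : ℝ) : ℂ) * Complex.I) *
      Complex.exp (-(((-(m : ℝ) / 2 * (1 + ζ).arg : ℝ) : ℂ) * Complex.I)) =
      Complex.exp (((1 + ζ).arg : ℂ) * Complex.I) ^ m := by
    rw [← Complex.exp_add, ← Complex.exp_int_mul]
    congr 1
    push_cast
    ring
  have e4 : (1 + ζ) / (‖1 + ζ‖ : ℂ) = Complex.exp (((1 + ζ).arg : ℂ) * Complex.I) := by
    have h1 := Complex.norm_mul_exp_arg_mul_I (1 + ζ)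
    have h2 : (‖1 + ζ‖ : ℂ) ≠ 0 := by exact_mod_cast hp.ne'
    field_simp
    exact h1.symm
  rw [e4, ← e3]
  linear_combination (-(Complex.exp ((((m : ℝ) / 2 * (1 + ζ).arg : ℝ) : ℂ) * Complex.I) *
      Complex.exp (-(((-(m : ℝ) / 2 * (1 + ζ).arg : ℝ) : ℂ) * Complex.I)))) * e2

/-- UNIT VECTOR, degree 5: `‖u - U5(ζ)‖ ≤ (3/4) ‖ζ‖⁶` for `‖ζ‖ ≤ 2/5` -/
theorem unit_U5 (ζ : ℂ) (hζ : ‖ζ‖ ≤ 2 / 5) :
    ‖(1 + ζ) / (‖1 + ζ‖ : ℂ) - tay (1 / 2) (-(1 / 2)) 6 ζ‖ ≤ 3 / 4 * ‖ζ‖ ^ 6 := by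
  have h := gpw_tay_G (1 / 2) (-(1 / 2)) (2 / 5) (41 / 100) (3 / 4) (1 / 2) 40 6 (by norm_num) (by norm_num)
    (by norm_num) (by norm_num) (by norm_num) (by norm_num) (by norm_num) (by norm_num)
    (by decide +kernel) ζ (by push_cast; exact hζ)
  have h1 := unit_pow 1 ζ (by linarith)
  rw [zpow_one] at h1
  rw [h1]
  push_cast at h ⊢
  convert h using 3 <;> norm_num

end Pool.Agent.Helper33.SH
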