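import Pool.Agent.Helper33.SH.GMod
import Pool.Agent.Helper33.SH.Uni
import Pool.Agent.Helper19.SH.GC
import Pool.Agent.Helper7.SH.GX

/-!
# Project RC, SHARP, link (6): the model of the total directions, second part
-/

set_option autoImplicit false

open MeasureTheory Set Filter Topology

namespace Pool.Agent.Helper33.GM

open Helper49.LT hiding sg s3
open Helper49.RC (om)
open Helper49.Sharp
open Helper56.RC (fc)
open Pool.Agent.Helper20.RC (lk lk_ge lk_sq)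
open Pool.Agent.Helper35.RC
open Pool.Agent.Helper35.Cas
open Helper27.SH (P2 evR)
open Pool.Agent.Helper33.SH
open Pool.Agent.Helper33.GL (Cl V1 V2)

/-! ### the direction against the sum -/

/-- the direction with abstract data -/
noncomputable def VG (E H U : ℂ) (C : ℕ → ℂ) : ℂ :=
  (1 + E * U ^ 2 / 3 - (starRingEnd ℂ) (E * U ^ 2)) * U + H * U
    + 1 / 2 * ∑ k ∈ Finset.range 5, ((1 - (lk k : ℂ)) / 2 * (C k * U ^ (2 * k + 3))
      + (1 + (lk k : ℂ)) / 2 * (starRingEnd ℂ) (C k * U ^ (2 * k + 1)))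

theorem conj_unit {U : ℂ} (hU : ‖U‖ = 1) : (starRingEnd ℂ) U = U⁻¹ := by
  rw [Complex.inv_def, Complex.normSq_eq_norm_sq, hU]
  simp

/-- remainder through the moments -/
noncomputable def rmV (δ : ℕ → ℝ) : ℝ := ∑ k ∈ Finset.range 5, lk k / 2 * (1 / 12 / (lk k ^ 2 - 1) * δ (k + 1))

theorem VG_SV {E H U u v : ℂ} {C : ℕ → ℂ} {δ : ℕ → ℝ} (hU : ‖U‖ = 1) (hE : E = -2 * (u * (starRingEnd ℂ) v))
    (hH : H = evP u v h0P / 200)
    (hC : ∀ k < 5, ‖C k - evP u v (cP k) / dC‖ ≤ 1 / 12 / (lk k ^ 2 - 1) * δ (k + 1)) :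
    ‖VG E H U C - SV u v (fun m => U ^ m)‖ ≤ rmV δ := by
  have hU0 : U ≠ 0 := by
    intro h0
    rw [h0, norm_zero] at hU
    exact zero_ne_one hU
  have hcU : (starRingEnd ℂ) U = U⁻¹ := conj_unit hU
  have e : VG E H U C - SV u v (fun m => U ^ m) =
      ∑ k ∈ Finset.range 5, ((1 - (lk k : ℂ)) / 4 * ((C k - evP u v (cP k) / dC) * U ^ (2 * k + 3))
      + (1 + (lk k : ℂ)) / 4 * (starRingEnd ℂ) ((C k - evP u v (cP k) / dC) * U ^ (2 * k + 1))) := by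
    have hz : ∀ k : ℕ, (U : ℂ) ^ (2 * (k : ℤ) + 3) = U ^ (2 * k + 3) := by
      intro k
      rw [show (2 * (k : ℤ) + 3) = ((2 * k + 3 : ℕ) : ℤ) by push_cast; ring, zpow_natCast]
    have hz' : ∀ k : ℕ, (U : ℂ) ^ (-(2 * (k : ℤ) + 1)) = (starRingEnd ℂ) (U ^ (2 * k + 1)) := by
      intro k
      rw [map_pow, hcU, inv_pow, zpow_neg, show (2 * (k : ℤ) + 1) = ((2 * k + 1 : ℕ) : ℤ) by push_cast; ring,
        zpow_natCast]
    unfold VG SV
    rw [hH, hE]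
    have h3 : (U : ℂ) ^ (3 : ℤ) = U ^ 3 := by
      rw [show (3 : ℤ) = ((3 : ℕ) : ℤ) by norm_num, zpow_natCast]
    have h1 : (U : ℂ) ^ (-1 : ℤ) = (starRingEnd ℂ) U := by rw [hcU, zpow_neg_one]
    have hsum : ∑ k ∈ Finset.range 5, ((1 - (lk k : ℂ)) / 2 * (evP u v (cP k) / dC * U ^ (2 * (k : ℤ) + 3))
        + (1 + (lk k : ℂ)) / 2 * ((starRingEnd ℂ) (evP u v (cP k) / dC) * U ^ (-(2 * (k : ℤ) + 1)))) =
        ∑ k ∈ Finset.range 5, ((1 - (lk k : ℂ)) / 2 * (evP u v (cP k) / dC * U ^ (2 * k + 3))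
        + (1 + (lk k : ℂ)) / 2 * ((starRingEnd ℂ) (evP u v (cP k) / dC) * (starRingEnd ℂ) (U ^ (2 * k + 1)))) :=
      Finset.sum_congr rfl fun k _ => by rw [hz, hz']
    simp only [zpow_one, h3, h1]
    rw [hsum]
    have hs : ∀ f g : ℕ → ℂ, 1 / 2 * ∑ k ∈ Finset.range 5, f k - 1 / 2 * ∑ k ∈ Finset.range 5, g k =
        ∑ k ∈ Finset.range 5, 1 / 2 * (f k - g k) := by
      intro f g
      rw [← mul_sub, ← Finset.sum_sub_distrib, Finset.mul_sum]
    have hs2 := hs (fun k => (1 - (lk k : ℂ)) / 2 * (C k * U ^ (2 * k + 3))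
        + (1 + (lk k : ℂ)) / 2 * (starRingEnd ℂ) (C k * U ^ (2 * k + 1)))
      (fun k => (1 - (lk k : ℂ)) / 2 * (evP u v (cP k) / dC * U ^ (2 * k + 3))
        + (1 + (lk k : ℂ)) / 2 * ((starRingEnd ℂ) (evP u v (cP k) / dC) * (starRingEnd ℂ) (U ^ (2 * k + 1))))
    have hr : ∑ k ∈ Finset.range 5, 1 / 2 * ((1 - (lk k : ℂ)) / 2 * (C k * U ^ (2 * k + 3))
        + (1 + (lk k : ℂ)) / 2 * (starRingEnd ℂ) (C k * U ^ (2 * k + 1))
        - ((1 - (lk k : ℂ)) / 2 * (evP u v (cP k) / dC * U ^ (2 * k + 3))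
        + (1 + (lk k : ℂ)) / 2 * ((starRingEnd ℂ) (evP u v (cP k) / dC) * (starRingEnd ℂ) (U ^ (2 * k + 1))))) =
        ∑ k ∈ Finset.range 5, ((1 - (lk k : ℂ)) / 4 * ((C k - evP u v (cP k) / dC) * U ^ (2 * k + 3))
      + (1 + (lk k : ℂ)) / 4 * (starRingEnd ℂ) ((C k - evP u v (cP k) / dC) * U ^ (2 * k + 1))) := by
      refine Finset.sum_congr rfl fun k _ => ?_
      rw [map_mul, map_mul, map_sub]
      ring
    rw [← hr, ← hs2]
    simp only [map_mul, map_neg, Complex.conj_conj, map_pow]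
    have h2 : (starRingEnd ℂ) (2 : ℂ) = 2 := Complex.conj_ofReal 2
    rw [h2, hcU]
    field_simp
    ring
  rw [e]
  refine (norm_sum_le _ _).trans ?_
  unfold rmV
  refine Finset.sum_le_sum fun k hk => ?_
  have hl := lk_ge k
  have hCk := hC k (Finset.mem_range.1 hk)
  set D := C k - evP u v (cP k) / dC with hD
  have e1 : ‖(1 - (lk k : ℂ)) / 4‖ = (lk k - 1) / 4 := by
    rw [show (1 - (lk k : ℂ)) / 4 = (((1 - lk k) / 4 : ℝ) : ℂ) by push_cast; ring, Complex.norm_real,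
      Real.norm_eq_abs, abs_of_nonpos (by linarith)]
    ring
  have e2 : ‖(1 + (lk k : ℂ)) / 4‖ = (lk k + 1) / 4 := by
    rw [show (1 + (lk k : ℂ)) / 4 = (((1 + lk k) / 4 : ℝ) : ℂ) by push_cast; ring, Complex.norm_real,
      Real.norm_eq_abs, abs_of_nonneg (by linarith)]
    ring
  refine (norm_add_le _ _).trans ?_
  rw [norm_mul, e1, norm_mul D, norm_mul ((1 + (lk k : ℂ)) / 4), e2, Complex.norm_conj, norm_mul D, norm_pow,
    norm_pow, hU, one_pow, one_pow, mul_one]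
  have h3 : (lk k - 1) / 4 * ‖D‖ + (lk k + 1) / 4 * ‖D‖ = lk k / 2 * ‖D‖ := by ring
  rw [h3]
  exact mul_le_mul_of_nonneg_left hCk (by linarith)

/-! ### the two directions of the instance -/

theorem E_uv (c : ZC) (A : ℝ) (B : ℂ) (t : ℝ) :
    (PI c A B).eta * ee (2 * t) = -2 * (uu A t * (starRingEnd ℂ) (vv B t)) := by
  have h : (starRingEnd ℂ) (ee (-5 * t)) = ee (5 * t) := by
    rw [conj_ee]; congr 1; ring
  show -2 * (A : ℂ) * (starRingEnd ℂ) B * ee (2 * t) = _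
  unfold uu vv
  rw [map_mul, h, show (2 * t) = -3 * t + 5 * t by ring, ee_add]
  ring

theorem V1_VG (c : ZC) (A : ℝ) (B : ℂ) (t : ℝ) : V1 (PI c A B) (b0I A B) (z0I A B) t =
    VG ((PI c A B).eta * ee (2 * t)) (((PI c A B).H0 (b0I A B) : ℝ) : ℂ) ((PI c A B).u1 t)
      (fun k => Cl (PI c A B) (b0I A B) (z0I A B) k t) := by
  have h : Pool.Agent.Helper43.SH.W1 (PI c A B) t = W1 (PI c A B) t := rfl
  unfold V1 VG
  rw [h, W1_eq, v1_eq]

theorem V2_VG (c : ZC) (A : ℝ) (B : ℂ) (t : ℝ) : V2 (PI c A B) (b0I A B) (z0I A B) t =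
    VG ((PI c A B).eta * ee (2 * t)) (((PI c A B).H0 (b0I A B) : ℝ) : ℂ) ((PI c A B).u2 t)
      (fun k => Cl (PI c A B) (b0I A B) (z0I A B) k t) := by
  have h : Pool.Agent.Helper43.SH.W2 (PI c A B) t = W2 (PI c A B) t := rfl
  unfold V2 VG
  rw [h, W2_eq, v2_eq]

theorem norm_unit {ζ : ℂ} (h : ‖ζ‖ < 1) : ‖(1 + ζ) / (‖1 + ζ‖ : ℂ)‖ = 1 := by
  have hF : 1 + ζ ≠ 0 := by
    intro h0
    have : ζ = -1 := by linear_combination h0
    rw [this] at h
    simp at h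
  have hp : 0 < ‖1 + ζ‖ := norm_pos_iff.2 hF
  rw [norm_div, Complex.norm_real, norm_norm, div_self hp.ne']

/-- the powers of the unit vectors -/
theorem u_pow {k : ℕ} {ζ U : ℂ} (h : ‖ζ‖ < 1) (hU : U = om ^ k * ((1 + ζ) / (‖1 + ζ‖ : ℂ))) (m : ℤ) :
    U ^ m = om ^ ((k : ℤ) * m) * Ph ((m : ℝ) / 2) (-((m : ℝ) / 2)) ζ := by
  rw [hU, mul_zpow, unit_pow m ζ h, ← zpow_natCast, ← zpow_mul]
  unfold gpw Ph
  rw [neg_div]

theorem SV_par (u v : ℂ) (F : ℤ → ℂ) : SV (-u) (-v) F = SV u v F := by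
  unfold SV
  have h0 := evP_neg u v 0 h0P (by decide +kernel)
  rw [pow_zero, one_mul] at h0
  have hc : ∀ k ∈ Finset.range 5, evP (-u) (-v) (cP k) = evP u v (cP k) := by
    intro k hk
    have hk5 := Finset.mem_range.1 hk
    have : parP 0 (cP k) = true := by
      interval_cases k <;> decide +kernel
    have h := evP_neg u v 0 (cP k) this
    rwa [pow_zero, one_mul] at h
  rw [h0, map_neg, map_neg, neg_mul_neg, neg_mul_neg]
  congr 1
  congr 1
  exact Finset.sum_congr rfl fun k hk => by rw [hc k hk]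

theorem SV_avg (u v : ℂ) (s : ℕ) (F G : ℤ → ℂ) : (SV u v F + (-1) ^ s * SV u v G) / 2 =
    SV u v (fun m => (F m + (-1) ^ s * G m) / 2) := by
  unfold SV
  simp only [Finset.sum_range_succ, Finset.sum_range_zero]
  ring

end Pool.Agent.Helper33.GM
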