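import Pool.Agent.Helper33.SH.GMod2

/-!
# Project RC, SHARP, link (6): the parity parts of the total directions
-/

set_option autoImplicit false

open MeasureTheory Set Filter Topology

namespace Pool.Agent.Helper33.GM

open Helper49.LT hiding sg s3
open Helper49.RC (om)
open Helper49.Sharp
open Helper56.RC (fc)
open Pool.Agent.Helper20.RC (lk lk_ge lk_sq)
open Pool.Agent.Helper35.RC
open Pool.Agent.Helper35.Cas
open Helper27.SH (P2 evR)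
open Pool.Agent.Helper33.SH
open Pool.Agent.Helper33.GL (Cl V1 V2)

theorem ζ1_pi (A : ℝ) (B : ℂ) (t : ℝ) : ζ1 A B (t + Real.pi) = -ζ1 A B t := by
  have h1 := Z1_eq A B (t + Real.pi)
  rw [uu_pi, vv_pi, evP_neg _ _ 1 Z1 (by decide +kernel), Z1_eq] at h1
  linear_combination (-(1 : ℂ) / 4) * h1

theorem ζ2_pi (A : ℝ) (B : ℂ) (t : ℝ) : ζ2 A B (t + Real.pi) = -ζ2 A B t := by
  have h1 := Z2_eq A B (t + Real.pi)
  rw [uu_pi, vv_pi, evP_neg _ _ 1 Z2 (by decide +kernel), Z2_eq] at h1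
  linear_combination (-(1 : ℂ) / 4) * h1

/-- parity part of an abstract direction -/
theorem par_V {V Z : ℝ → ℂ} {A B : ℂ} {k s : ℕ} {r : ℝ}
    (h : ∀ t, ‖V t - SV (uu A t) (vv B t) (fun m => om ^ ((k : ℤ) * m) * Ph ((m : ℝ) / 2) (-((m : ℝ) / 2)) (Z t))‖ ≤ r)
    (hZ : ∀ t, Z (t + Real.pi) = -Z t) (t : ℝ) :
    ‖(V t + (-1) ^ s * V (t + Real.pi)) / 2
      - SV (uu A t) (vv B t) (fun m => om ^ ((k : ℤ) * m) * pp s ((m : ℝ) / 2) (-((m : ℝ) / 2)) (Z t))‖ ≤ r := by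
  have h1 := h t
  have h2 := h (t + Real.pi)
  rw [uu_pi, vv_pi, SV_par, hZ] at h2
  set F : ℤ → ℂ := fun m => om ^ ((k : ℤ) * m) * Ph ((m : ℝ) / 2) (-((m : ℝ) / 2)) (Z t) with hF
  set G : ℤ → ℂ := fun m => om ^ ((k : ℤ) * m) * Ph ((m : ℝ) / 2) (-((m : ℝ) / 2)) (-Z t) with hG
  have e : SV (uu A t) (vv B t) (fun m => om ^ ((k : ℤ) * m) * pp s ((m : ℝ) / 2) (-((m : ℝ) / 2)) (Z t)) =
      (SV (uu A t) (vv B t) F + (-1) ^ s * SV (uu A t) (vv B t) G) / 2 := by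
    rw [SV_avg]
    congr 1
    funext m
    unfold pp
    simp only [hF, hG]
    ring
  rw [e]
  have e2 : (V t + (-1) ^ s * V (t + Real.pi)) / 2 - (SV (uu A t) (vv B t) F
      + (-1) ^ s * SV (uu A t) (vv B t) G) / 2 = ((V t - SV (uu A t) (vv B t) F)
      + (-1) ^ s * (V (t + Real.pi) - SV (uu A t) (vv B t) G)) / 2 := by ring
  rw [e2, norm_div, Complex.norm_two]
  have h3 : ‖(V t - SV (uu A t) (vv B t) F) + (-1) ^ s * (V (t + Real.pi) - SV (uu A t) (vv B t) G)‖ ≤ r + r := by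
    refine (norm_add_le _ _).trans (add_le_add h1 ?_)
    rw [norm_mul, norm_pow, norm_neg, norm_one, one_pow, one_mul]
    exact h2
  linarith

theorem norm_uu (A : ℝ) (hA : 0 ≤ A) (t : ℝ) : ‖uu (A : ℂ) t‖ = A := by
  unfold uu
  rw [norm_mul, norm_ee, mul_one, Complex.norm_real, Real.norm_of_nonneg hA]

theorem norm_vv (B : ℂ) (t : ℝ) : ‖vv B t‖ = ‖B‖ := by
  unfold vv
  rw [norm_mul, norm_ee, mul_one]

section main

variable {c : ZC} {A : ℝ} {B : ℂ} {δ : ℕ → ℝ}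

theorem z0_lt (hA : 0 ≤ A) (hR : A + 3 / 2 * ‖B‖ ≤ 2 / 5) (t : ℝ) : ‖z0I A B t‖ ≤ A + 3 / 2 * ‖B‖ ∧
    ‖z0I A B t‖ < 1 := by
  have h := norm_z0I A B t
  rw [abs_of_nonneg hA] at h
  exact ⟨h, by linarith⟩

theorem V1_SV (hS : StC) (ok : OKc c A B) (hE : EH (PI c A B) A B δ) (hA : 0 ≤ A) (hR : A + 3 / 2 * ‖B‖ ≤ 2 / 5)
    (t : ℝ) : ‖V1 (PI c A B) (b0I A B) (z0I A B) t - SV (uu A t) (vv B t)
      (fun m => om ^ (((1 : ℕ) : ℤ) * m) * Ph ((m : ℝ) / 2) (-((m : ℝ) / 2)) (ζ1 A B t))‖ ≤ rmV δ := by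
  obtain ⟨s1, s2, -⟩ := hS c A B δ ok hE
  have hz := (z0_lt hA hR t).2
  have hz1 : ‖ζ1 A B t‖ < 1 := by rwa [norm_ζ1]
  have hU := u1_eq c A B t hz
  have hn : ‖(PI c A B).u1 t‖ = 1 := by rw [hU, norm_mul, om_norm, one_mul, norm_unit hz1]
  rw [V1_VG]
  have h := VG_SV hn (E_uv c A B t) (s2 t) (fun k hk => s1 k hk t)
  have hp : (fun m : ℤ => (PI c A B).u1 t ^ m) =
      (fun m => om ^ (((1 : ℕ) : ℤ) * m) * Ph ((m : ℝ) / 2) (-((m : ℝ) / 2)) (ζ1 A B t)) := by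
    funext m
    exact u_pow hz1 (k := 1) (by rw [pow_one]; exact hU) m
  rw [hp] at h
  exact h

theorem V2_SV (hS : StC) (ok : OKc c A B) (hE : EH (PI c A B) A B δ) (hA : 0 ≤ A) (hR : A + 3 / 2 * ‖B‖ ≤ 2 / 5)
    (t : ℝ) : ‖V2 (PI c A B) (b0I A B) (z0I A B) t - SV (uu A t) (vv B t)
      (fun m => om ^ (((2 : ℕ) : ℤ) * m) * Ph ((m : ℝ) / 2) (-((m : ℝ) / 2)) (ζ2 A B t))‖ ≤ rmV δ := by
  obtain ⟨s1, s2, -⟩ := hS c A B δ ok hE
  have hz := (z0_lt hA hR t).2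
  have hz2 : ‖ζ2 A B t‖ < 1 := by rwa [norm_ζ2]
  have hU := u2_eq c A B t hz
  have hn : ‖(PI c A B).u2 t‖ = 1 := by rw [hU, norm_mul, norm_pow, om_norm, one_pow, one_mul, norm_unit hz2]
  rw [V2_VG]
  have h := VG_SV hn (E_uv c A B t) (s2 t) (fun k hk => s1 k hk t)
  have hp : (fun m : ℤ => (PI c A B).u2 t ^ m) =
      (fun m => om ^ (((2 : ℕ) : ℤ) * m) * Ph ((m : ℝ) / 2) (-((m : ℝ) / 2)) (ζ2 A B t)) := by
    funext m
    exact u_pow hz2 (k := 2) hU m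
  rw [hp] at h
  exact h

theorem chk_lo : chkL 1 7 Lo = true := by decide +kernel
theorem chk_le : chkL 0 6 Le = true := by decide +kernel
theorem err_lo : leR evo (errL dK Lo) = true := by decide +kernel
theorem err_le : leR eve (errL dK Le) = true := by decide +kernel

/-- the error of the sums -/
theorem sum_err {Z : Po} {s N : ℕ} {sg : ℤ} {ζ : ℂ} {L : List Tr} {q : P2} (hA : 0 ≤ A) (hR : A + 3 / 2 * ‖B‖ ≤ 2 / 5)
    (t : ℝ) (hZ : evP (uu A t) (vv B t) Z = 4 * ζ) (hζ : ‖ζ‖ ≤ A + 3 / 2 * ‖B‖) (h1 : chkL s N L = true)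
    (h2 : leR q (errL dK L) = true) :
    ‖(L.map fun x => evP (uu A t) (vv B t) x.1.kP / dK * (om ^ (sg * x.1.m) *
        pp s ((x.1.m : ℝ) / 2) (-((x.1.m : ℝ) / 2)) ζ)).sum
      - evP (uu A t) (vv B t) (wF Z sg s N L) / (2 * dK * 16 ^ N)‖ ≤ evR A ‖B‖ q := by
  have hd : (0 : ℝ) < ((dK : ℕ) : ℝ) := by unfold dK; norm_num
  have h := wF_err (sg := sg) hd hZ hζ hR (fun x => evR A ‖B‖ (abP x.1.kP) / dK) L h1 (fun x _ => by
    have hn := norm_evP_le (uu A t) (vv B t) x.1.kP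
    rw [norm_uu A hA, norm_vv] at hn
    rw [norm_div, Complex.norm_real, Real.norm_of_nonneg hd.le]
    exact div_le_div_of_nonneg_right hn hd.le)
  rw [errL_eq dK (by unfold dK; norm_num)] at h
  have h3 := leR_ok hA (norm_nonneg B) q _ h2
  have e : (L.map fun x => evP (uu A t) (vv B t) x.1.kP / ((dK : ℕ) : ℝ) * om ^ (sg * x.1.m) *
        pp s ((x.1.m : ℝ) / 2) (-((x.1.m : ℝ) / 2)) ζ) = (L.map fun x => evP (uu A t) (vv B t) x.1.kP / dK *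
        (om ^ (sg * x.1.m) * pp s ((x.1.m : ℝ) / 2) (-((x.1.m : ℝ) / 2)) ζ)) := by
    refine List.map_congr_left fun x _ => ?_
    push_cast
    ring
  rw [e] at h
  refine le_trans (le_of_eq ?_) (h.trans h3)
  push_cast
  rfl

theorem V1o (hS : StC) (ok : OKc c A B) (hE : EH (PI c A B) A B δ) (hA : 0 ≤ A) (hR : A + 3 / 2 * ‖B‖ ≤ 2 / 5)
    (t : ℝ) : ‖(V1 (PI c A B) (b0I A B) (z0I A B) t + (-1) ^ 1 * V1 (PI c A B) (b0I A B) (z0I A B) (t + Real.pi)) / 2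
      - evP (uu A t) (vv B t) (wF Z1 1 1 7 Lo) / (2 * dK * 16 ^ 7)‖ ≤ evR A ‖B‖ evo + rmV δ := by
  have h1 := par_V (s := 1) (V1_SV hS ok hE hA hR) (ζ1_pi A B) t
  rw [← SV_lo] at h1
  have h2 := sum_err (sg := 1) hA hR t (Z1_eq A B t) (by rw [norm_ζ1]; exact (z0_lt hA hR t).1) chk_lo err_lo
  refine le_trans ?_ ((add_le_add h1 h2).trans (le_of_eq (add_comm _ _)))
  refine le_trans (le_of_eq ?_) (norm_add_le _ _)
  congr 1
  push_cast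
  ring

theorem V2o (hS : StC) (ok : OKc c A B) (hE : EH (PI c A B) A B δ) (hA : 0 ≤ A) (hR : A + 3 / 2 * ‖B‖ ≤ 2 / 5)
    (t : ℝ) : ‖(V2 (PI c A B) (b0I A B) (z0I A B) t + (-1) ^ 1 * V2 (PI c A B) (b0I A B) (z0I A B) (t + Real.pi)) / 2
      - evP (uu A t) (vv B t) (wF Z2 2 1 7 Lo) / (2 * dK * 16 ^ 7)‖ ≤ evR A ‖B‖ evo + rmV δ := by
  have h1 := par_V (s := 1) (V2_SV hS ok hE hA hR) (ζ2_pi A B) t
  rw [← SV_lo] at h1
  have h2 := sum_err (sg := 2) hA hR t (Z2_eq A B t) (by rw [norm_ζ2]; exact (z0_lt hA hR t).1) chk_lo err_lo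
  refine le_trans ?_ ((add_le_add h1 h2).trans (le_of_eq (add_comm _ _)))
  refine le_trans (le_of_eq ?_) (norm_add_le _ _)
  congr 1
  push_cast
  ring

theorem V1e (hS : StC) (ok : OKc c A B) (hE : EH (PI c A B) A B δ) (hA : 0 ≤ A) (hR : A + 3 / 2 * ‖B‖ ≤ 2 / 5)
    (t : ℝ) : ‖(V1 (PI c A B) (b0I A B) (z0I A B) t + (-1) ^ 0 * V1 (PI c A B) (b0I A B) (z0I A B) (t + Real.pi)) / 2
      - evP (uu A t) (vv B t) (wF Z1 1 0 6 Le) / (2 * dK * 16 ^ 6)‖ ≤ evR A ‖B‖ eve + rmV δ := by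
  have h1 := par_V (s := 0) (V1_SV hS ok hE hA hR) (ζ1_pi A B) t
  rw [← SV_le] at h1
  have h2 := sum_err (sg := 1) hA hR t (Z1_eq A B t) (by rw [norm_ζ1]; exact (z0_lt hA hR t).1) chk_le err_le
  refine le_trans ?_ ((add_le_add h1 h2).trans (le_of_eq (add_comm _ _)))
  refine le_trans (le_of_eq ?_) (norm_add_le _ _)
  congr 1
  push_cast
  ring

theorem V2e (hS : StC) (ok : OKc c A B) (hE : EH (PI c A B) A B δ) (hA : 0 ≤ A) (hR : A + 3 / 2 * ‖B‖ ≤ 2 / 5)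
    (t : ℝ) : ‖(V2 (PI c A B) (b0I A B) (z0I A B) t + (-1) ^ 0 * V2 (PI c A B) (b0I A B) (z0I A B) (t + Real.pi)) / 2
      - evP (uu A t) (vv B t) (wF Z2 2 0 6 Le) / (2 * dK * 16 ^ 6)‖ ≤ evR A ‖B‖ eve + rmV δ := by
  have h1 := par_V (s := 0) (V2_SV hS ok hE hA hR) (ζ2_pi A B) t
  rw [← SV_le] at h1
  have h2 := sum_err (sg := 2) hA hR t (Z2_eq A B t) (by rw [norm_ζ2]; exact (z0_lt hA hR t).1) chk_le err_le
  refine le_trans ?_ ((add_le_add h1 h2).trans (le_of_eq (add_comm _ _)))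
  refine le_trans (le_of_eq ?_) (norm_add_le _ _)
  congr 1
  push_cast
  ring

end main

end Pool.Agent.Helper33.GM
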