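import Pool.Agent.Helper33.SH.GMod3

/-!
# Project RC, SHARP, link (6): the models of `GZ`, `GX`, `GY` (kernel equalities)
-/

set_option autoImplicit false

open MeasureTheory Set Filter Topology

namespace Pool.Agent.Helper33.GM

open Helper49.LT hiding sg s3
open Helper49.RC (om)
open Helper49.Sharp
open Helper56.RC (fc)
open Pool.Agent.Helper20.RC (lk lk_ge lk_sq)
open Pool.Agent.Helper35.RC
open Pool.Agent.Helper35.Cas
open Helper27.SH (P2 evR)
open Pool.Agent.Helper33.SH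
open Pool.Agent.Helper33.GL (V1 V2 X0 Y0 GZ GX GY)

/-- `dz (wF1 - wF2) = dK 16^7 qz` -/
theorem kz : eqP (smP (14745600, 0) (addF (wF Z1 1 1 7 Lo) (smP (-1, 0) (wF Z2 2 1 7 Lo))))
    (smP (1142942337073152000, 0) qz) = true := by decide +kernel

/-- `dx dX (2 om wF1 + 2 om² wF2) + 4 dx dK 16^6 x0P = 4 dK 16^6 dX qx` -/
theorem kx : eqP (addF (smP (127656915369984000000, 0) (addF (smP (1, 1) (wF Z1 1 0 6 Le)) (smP (-1, 1) (wF Z2 2 0 6 Le))))
      (smP (31631669805133905002496000000, 0) x0P))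
    (smP (329496560470144843776000000, 0) qx) = true := by decide +kernel

/-- `dy dY ((4 s3 + 1) wF1 + (4 s3 - 1) wF2) + 8 dy dK 16^6 y0P = 8 dK 16^6 dY qy` -/
theorem ky : eqP (addF (smP (510627661479936000000, 0) (addF (smP (1, 4) (wF Z1 1 0 6 Le)) (smP (-1, 4) (wF Z2 2 0 6 Le))))
      (smP (253053358441071240019968000000, 0) y0P))
    (smP (658993120940289687552000000, 0) qy) = true := by decide +kernel

section main

variable {c : ZC} {A : ℝ} {B : ℂ} {δ : ℕ → ℝ}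

/-- remainders through the moments -/
noncomputable def rmX (δ : ℕ → ℝ) : ℝ := δ 0 + ∑ k ∈ Finset.range 4, 1 / (lk (k + 1) ^ 2 - 1) * δ (k + 2)
noncomputable def rmY (δ : ℕ → ℝ) : ℝ :=
  ∑ k ∈ Finset.range 4, lk (k + 1) / (2 * (lk (k + 1) ^ 2 - 1)) * δ (k + 2)

theorem GZ_mod (hS : StC) (ok : OKc c A B) (hE : EH (PI c A B) A B δ) (hA : 0 ≤ A) (hR : A + 3 / 2 * ‖B‖ ≤ 2 / 5)
    (t : ℝ) : ‖(GZ (PI c A B) (b0I A B) (z0I A B) t - GZ (PI c A B) (b0I A B) (z0I A B) (t + Real.pi)) / 2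
      - evP (uu A t) (vv B t) qz / (dz : ℂ)‖ ≤ 4 * (evR A ‖B‖ evo + rmV δ) := by
  have h1 := V1o hS ok hE hA hR t
  have h2 := V2o hS ok hE hA hR t
  have h := eqP_ok kz (uu A t) (vv B t)
  rw [evP_sm, evP_sm, evP_addF, evP_sm, evC_r, evC_r, evC_r] at h
  set a := evP (uu A t) (vv B t) (wF Z1 1 1 7 Lo) with ha
  set b := evP (uu A t) (vv B t) (wF Z2 2 1 7 Lo) with hb
  have e : (GZ (PI c A B) (b0I A B) (z0I A B) t - GZ (PI c A B) (b0I A B) (z0I A B) (t + Real.pi)) / 2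
      - evP (uu A t) (vv B t) qz / (dz : ℂ) =
      2 * ((V1 (PI c A B) (b0I A B) (z0I A B) t + (-1) ^ 1 * V1 (PI c A B) (b0I A B) (z0I A B) (t + Real.pi)) / 2
        - a / (2 * dK * 16 ^ 7))
      - 2 * ((V2 (PI c A B) (b0I A B) (z0I A B) t + (-1) ^ 1 * V2 (PI c A B) (b0I A B) (z0I A B) (t + Real.pi)) / 2
        - b / (2 * dK * 16 ^ 7)) := by
    unfold GZ dz dK
    push_cast
    push_cast at h
    linear_combination (1 / (14745600 * 1142942337073152000) : ℂ) * h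
  rw [e]
  refine (norm_sub_le _ _).trans ?_
  rw [norm_mul, norm_mul, Complex.norm_two]
  linarith

theorem GX_mod (hS : StC) (hX : StX) (ok : OKc c A B) (hE : EH (PI c A B) A B δ) (hA : 0 ≤ A)
    (hR : A + 3 / 2 * ‖B‖ ≤ 2 / 5) (t : ℝ) :
    ‖(GX (PI c A B) (b0I A B) (z0I A B) t + GX (PI c A B) (b0I A B) (z0I A B) (t + Real.pi)) / 2
      - evP (uu A t) (vv B t) qx / (dx : ℂ)‖ ≤ 2 * (evR A ‖B‖ eve + rmV δ) + rmX δ := by
  have h1 := V1e hS ok hE hA hR t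
  have h2 := V2e hS ok hE hA hR t
  have h3 := (hX c A B δ ok hE t).1
  have h4 := (hX c A B δ ok hE (t + Real.pi)).1
  rw [uu_pi, vv_pi, evP_neg _ _ 0 x0P (by decide +kernel), pow_zero, one_mul] at h4
  have h := eqP_ok kx (uu A t) (vv B t)
  rw [evP_sm, evP_addF, evP_sm, evP_addF, evP_sm, evP_sm, evP_sm, evC_r, evC_r, evC_r] at h
  set a := evP (uu A t) (vv B t) (wF Z1 1 0 6 Le) with ha
  set b := evP (uu A t) (vv B t) (wF Z2 2 0 6 Le) with hb
  set p := evP (uu A t) (vv B t) x0P with hp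
  set X := X0 (PI c A B) (b0I A B) (z0I A B) with hXd
  have e : (GX (PI c A B) (b0I A B) (z0I A B) t + GX (PI c A B) (b0I A B) (z0I A B) (t + Real.pi)) / 2
      - evP (uu A t) (vv B t) qx / (dx : ℂ) =
      (om * ((V1 (PI c A B) (b0I A B) (z0I A B) t + (-1) ^ 0 * V1 (PI c A B) (b0I A B) (z0I A B) (t + Real.pi)) / 2
        - a / (2 * dK * 16 ^ 6))
      + om ^ 2 * ((V2 (PI c A B) (b0I A B) (z0I A B) t
        + (-1) ^ 0 * V2 (PI c A B) (b0I A B) (z0I A B) (t + Real.pi)) / 2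
        - b / (2 * dK * 16 ^ 6)))
      + ((X t - p / dX) + (X (t + Real.pi) - p / dX)) / 2 := by
    unfold GX dx dK dX
    have hom : om ^ 2 = om - 1 := om_sq
    have hv := om_val
    rw [hom, hv]
    unfold evC at h
    push_cast
    push_cast at h
    linear_combination (1 / (110702592000 * 329496560470144843776000000) : ℂ) * h
  rw [e]
  refine (norm_add_le _ _).trans (add_le_add ((norm_add_le _ _).trans ?_) ?_)
  · rw [norm_mul, norm_mul, norm_pow, om_norm, one_pow, one_mul, one_mul]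
    linarith
  · rw [norm_div, Complex.norm_two]
    have := norm_add_le (X t - p / dX) (X (t + Real.pi) - p / dX)
    have h5 : rmX δ = δ 0 + ∑ k ∈ Finset.range 4, 1 / (lk (k + 1) ^ 2 - 1) * δ (k + 2) := rfl
    rw [h5]
    linarith

theorem GY_mod (hS : StC) (hX : StX) (ok : OKc c A B) (hE : EH (PI c A B) A B δ) (hA : 0 ≤ A)
    (hR : A + 3 / 2 * ‖B‖ ≤ 2 / 5) (t : ℝ) :
    ‖(GY (PI c A B) (b0I A B) (z0I A B) t + GY (PI c A B) (b0I A B) (z0I A B) (t + Real.pi)) / 2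
      - evP (uu A t) (vv B t) qy / (dy : ℂ)‖ ≤ 7 / 2 * (evR A ‖B‖ eve + rmV δ) + rmY δ := by
  have h1 := V1e hS ok hE hA hR t
  have h2 := V2e hS ok hE hA hR t
  have h3 := (hX c A B δ ok hE t).2
  have h4 := (hX c A B δ ok hE (t + Real.pi)).2
  rw [uu_pi, vv_pi, evP_neg _ _ 0 y0P (by decide +kernel), pow_zero, one_mul] at h4
  have h := eqP_ok ky (uu A t) (vv B t)
  rw [evP_sm, evP_addF, evP_sm, evP_addF, evP_sm, evP_sm, evP_sm, evC_r, evC_r, evC_r] at h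
  set a := evP (uu A t) (vv B t) (wF Z1 1 0 6 Le) with ha
  set b := evP (uu A t) (vv B t) (wF Z2 2 0 6 Le) with hb
  set p := evP (uu A t) (vv B t) y0P with hp
  set X := Y0 (PI c A B) (b0I A B) (z0I A B) with hXd
  have hs : (Complex.I * (Real.sqrt 3 : ℂ)) = s3 := rfl
  have e : (GY (PI c A B) (b0I A B) (z0I A B) t + GY (PI c A B) (b0I A B) (z0I A B) (t + Real.pi)) / 2
      - evP (uu A t) (vv B t) qy / (dy : ℂ) =
      ((s3 + 1 / 4) * ((V1 (PI c A B) (b0I A B) (z0I A B) t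
        + (-1) ^ 0 * V1 (PI c A B) (b0I A B) (z0I A B) (t + Real.pi)) / 2 - a / (2 * dK * 16 ^ 6))
      + (s3 - 1 / 4) * ((V2 (PI c A B) (b0I A B) (z0I A B) t
        + (-1) ^ 0 * V2 (PI c A B) (b0I A B) (z0I A B) (t + Real.pi)) / 2
        - b / (2 * dK * 16 ^ 6)))
      + ((X t - p / dY) + (X (t + Real.pi) - p / dY)) / 2 := by
    unfold GY dy dK dY
    rw [hs]
    unfold evC at h
    push_cast
    push_cast at h
    linear_combination (1 / (442810368000 * 658993120940289687552000000) : ℂ) * h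
  have n1 : ‖s3 + 1 / 4‖ = 7 / 4 := by
    have h5 : ‖s3 + 1 / 4‖ ^ 2 = (7 / 4) ^ 2 := by
      rw [← Complex.normSq_eq_norm_sq, Complex.normSq_apply]
      unfold s3
      simp
      nlinarith [Real.sq_sqrt (show (0 : ℝ) ≤ 3 by norm_num)]
    exact (pow_left_inj₀ (norm_nonneg _) (by norm_num) (by norm_num)).1 h5
  have n2 : ‖s3 - 1 / 4‖ = 7 / 4 := by
    have h5 : ‖s3 - 1 / 4‖ ^ 2 = (7 / 4) ^ 2 := by
      rw [← Complex.normSq_eq_norm_sq, Complex.normSq_apply]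
      unfold s3
      simp
      nlinarith [Real.sq_sqrt (show (0 : ℝ) ≤ 3 by norm_num)]
    exact (pow_left_inj₀ (norm_nonneg _) (by norm_num) (by norm_num)).1 h5
  rw [e]
  refine (norm_add_le _ _).trans (add_le_add ((norm_add_le _ _).trans ?_) ?_)
  · rw [norm_mul, norm_mul, n1, n2]
    linarith
  · rw [norm_div, Complex.norm_two]
    have := norm_add_le (X t - p / dY) (X (t + Real.pi) - p / dY)
    have h5 : rmY δ = ∑ k ∈ Finset.range 4, lk (k + 1) / (2 * (lk (k + 1) ^ 2 - 1)) * δ (k + 2) := rfl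
    rw [h5]
    linarith

/-- THE MODELS -/
theorem mod_PI (hS : StC) (hX : StX) (ok : OKc c A B) (hE : EH (PI c A B) A B δ) (hA : 0 ≤ A)
    (hR : A + 3 / 2 * ‖B‖ ≤ 2 / 5) :
    MOD (PI c A B) (b0I A B) (z0I A B) A B (4 * (evR A ‖B‖ evo + rmV δ)) (2 * (evR A ‖B‖ eve + rmV δ) + rmX δ)
      (7 / 2 * (evR A ‖B‖ eve + rmV δ) + rmY δ) :=
  ⟨GZ_mod hS ok hE hA hR, GX_mod hS hX ok hE hA hR, GY_mod hS hX ok hE hA hR⟩

end main

end Pool.Agent.Helper33.GM
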