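import Pool.Agent.Helper33.SH.GLists
import Pool.Agent.Helper33.SH.GFun
import Pool.Agent.Helper27.SH.Num

/-!
# Project RC, SHARP, link (6): the literal lists of the total directions and of the gradient (generated)
-/

set_option autoImplicit false

namespace Pool.Agent.Helper33.GM

open Pool.Agent.Helper35.Cas (Po)
open Helper27.SH (P2)
open Pool.Agent.Helper33.SH (Tm)

/-- the coefficients of the powers of the unit vector, denominator `dK` -/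
def dK : ℕ := 4257792000

def kp : ℕ → Po
  | 0 =>
  [((0, 0, 0, 0), (4257792000, 0))]
  | 1 =>
  [((1, 1, 0, 0), (702535680, 0)), ((0, 0, 1, 1), (-958003200, 0))]
  | 2 =>
  [((1, 1, 1, 1), (5279662080, 0))]
  | 3 =>
  [((1, 0, 0, 1), (-2830175040, 0))]
  | 4 =>
  [((2, 1, 0, 1), (-59168340, 0)), ((1, 0, 1, 2), (15852375, 0))]
  | 5 =>
  [((0, 1, 1, 0), (8490525120, 0))]
  | 6 =>
  [((1, 2, 1, 0), (177505020, 0)), ((0, 1, 2, 1), (-47557125, 0))]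
  | 7 =>
  [((2, 0, 0, 2), (988528464, 0)), ((0, 3, 1, 0), (738205776, 0))]
  | 8 =>
  [((3, 0, 0, 1), (-1230342960, 0)), ((0, 2, 2, 0), (-1647547440, 0))]
  | 9 =>
  [((0, 2, 0, 0), (-268392960, 0))]
  | 10 =>
  [((1, 3, 0, 0), (-496326600, 0)), ((0, 2, 1, 1), (-403173540, 0))]
  | 11 =>
  [((2, 0, 0, 0), (375750144, 0))]
  | 12 =>
  [((3, 1, 0, 0), (694857240, 0)), ((2, 0, 1, 1), (564442956, 0))]
  | 13 =>
  [((0, 1, 0, 1), (882641760, 0))]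
  | 14 =>
  [((1, 2, 0, 1), (-244524280, 0)), ((0, 1, 1, 2), (-1908418820, 0))]
  | 15 =>
  [((1, 0, 1, 0), (-1134825120, 0))]
  | 16 =>
  [((2, 1, 1, 0), (314388360, 0)), ((1, 0, 2, 1), (2453681340, 0))]
  | 17 =>
  [((0, 0, 0, 2), (-193712400, 0))]
  | 18 =>
  [((1, 1, 0, 2), (1387131480, 0)), ((0, 0, 1, 3), (723086595, 0))]
  | 19 =>
  [((0, 0, 2, 0), (236759600, 0))]
  | 20 =>
  [((1, 1, 2, 0), (-1695382920, 0)), ((0, 0, 3, 1), (-883772505, 0))]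
  | _ => []

/-- terms: exponent, coefficient, constant of the remainder, order -/
def Lo : List Tr := [
  (⟨1, kp 0, 489 / 1000⟩, 7),
  (⟨1, kp 1, 571 / 1000⟩, 5),
  (⟨1, kp 2, 717 / 1000⟩, 3),
  (⟨3, kp 3, 911 / 100⟩, 5),
  (⟨3, kp 4, 709 / 100⟩, 3),
  (⟨-1, kp 5, 571 / 1000⟩, 5),
  (⟨-1, kp 6, 717 / 1000⟩, 3),
  (⟨5, kp 7, 329 / 10⟩, 3),
  (⟨-3, kp 8, 709 / 100⟩, 3),
  (⟨7, kp 9, 301⟩, 5),
  (⟨7, kp 10, 109⟩, 3),
  (⟨-5, kp 11, 647 / 10⟩, 5),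
  (⟨-5, kp 12, 329 / 10⟩, 3),
  (⟨9, kp 13, 1090⟩, 5),
  (⟨9, kp 14, 302⟩, 3),
  (⟨-7, kp 15, 301⟩, 5),
  (⟨-7, kp 16, 109⟩, 3),
  (⟨11, kp 17, 3370⟩, 5),
  (⟨11, kp 18, 782⟩, 3),
  (⟨-9, kp 19, 1090⟩, 5),
  (⟨-9, kp 20, 302⟩, 3)]

/-- terms: exponent, coefficient, constant of the remainder, order -/
def Le : List Tr := [
  (⟨1, kp 0, 21 / 40⟩, 6),
  (⟨1, kp 1, 631 / 1000⟩, 4),
  (⟨1, kp 2, 213 / 250⟩, 2),
  (⟨3, kp 3, 204 / 25⟩, 4),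
  (⟨3, kp 4, 581 / 100⟩, 2),
  (⟨-1, kp 5, 631 / 1000⟩, 4),
  (⟨-1, kp 6, 213 / 250⟩, 2),
  (⟨5, kp 7, 101 / 5⟩, 2),
  (⟨-3, kp 8, 581 / 100⟩, 2),
  (⟨7, kp 9, 189⟩, 4),
  (⟨7, kp 10, 551 / 10⟩, 2),
  (⟨-5, kp 11, 479 / 10⟩, 4),
  (⟨-5, kp 12, 101 / 5⟩, 2),
  (⟨9, kp 13, 599⟩, 4),
  (⟨9, kp 14, 139⟩, 2),
  (⟨-7, kp 15, 189⟩, 4),
  (⟨-7, kp 16, 551 / 10⟩, 2),
  (⟨11, kp 17, 1690⟩, 4),
  (⟨11, kp 18, 342⟩, 2),
  (⟨-9, kp 19, 599⟩, 4),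
  (⟨-9, kp 20, 139⟩, 2)]

/-- error polynomials of the total directions -/
def evo : P2 := [(0, 7, 2300), (1, 6, 9830), (2, 5, 19000), (3, 4, 20100), (4, 3, 11900), (5, 2, 3820), (6, 1, 619), (7, 0, 217 / 5)]
def eve : P2 := [(0, 6, 761), (1, 5, 2910), (2, 4, 4840), (3, 3, 4050), (4, 2, 1700), (5, 1, 330), (6, 0, 53 / 2)]

def dz : ℕ := 14745600
def dx : ℕ := 110702592000
def dy : ℕ := 442810368000

/-- `dz GZ` (odd part) through the degree 5 -/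
def qz : Po :=
  [((1, 0, 0, 0), (29491200, 0)), ((0, 1, 0, 0), (14745600, 0)), ((0, 0, 1, 0), (22118400, 0)),
   ((3, 0, 0, 0), (-14856192, 0)), ((2, 1, 0, 0), (2045952, 0)), ((2, 0, 1, 0), (-44643456, 0)),
   ((2, 0, 0, 1), (35855616, 0)), ((1, 2, 0, 0), (-16109568, 0)), ((1, 1, 1, 0), (-9065472, 0)),
   ((1, 1, 0, 1), (-71660928, 0)), ((1, 0, 2, 0), (-3218880, 0)), ((1, 0, 1, 1), (16479936, 0)),
   ((1, 0, 0, 2), (-47325504, 0)), ((0, 3, 0, 0), (2709504, 0)), ((0, 2, 1, 0), (29695488, 0)),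
   ((0, 2, 0, 1), (57923712, 0)), ((0, 1, 2, 0), (8748480, 0)), ((0, 1, 1, 1), (-45635904, 0)),
   ((0, 1, 0, 2), (90124608, 0)), ((0, 0, 3, 0), (4848480, 0)), ((0, 0, 2, 1), (5381280, 0)),
   ((0, 0, 1, 2), (-27648000, 0)), ((0, 0, 0, 3), (24202080, 0)), ((5, 0, 0, 0), (16273152, 0)),
   ((4, 1, 0, 0), (31987392, 0)), ((4, 0, 1, 0), (-94453776, 0)), ((4, 0, 0, 1), (22420096, 0)),
   ((3, 2, 0, 0), (6224736, 0)), ((3, 1, 1, 0), (321360576, 0)), ((3, 1, 0, 1), (55059792, 0)),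
   ((3, 0, 2, 0), (-545920696, 0)), ((3, 0, 1, 1), (444122232, 0)), ((3, 0, 0, 2), (-24678264, 0)),
   ((2, 3, 0, 0), (29989824, 0)), ((2, 2, 1, 0), (250709136, 0)), ((2, 2, 0, 1), (313118112, 0)),
   ((2, 1, 2, 0), (142964568, 0)), ((2, 1, 1, 1), (316361760, 0)), ((2, 1, 0, 2), (27637296, 0)),
   ((2, 0, 3, 0), (-728462892, 0)), ((2, 0, 2, 1), (807403992, 0)), ((2, 0, 1, 2), (-74862948, 0)),
   ((2, 0, 0, 3), (-75953508, 0)), ((1, 4, 0, 0), (36695136, 0)), ((1, 3, 1, 0), (60135552, 0)),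
   ((1, 3, 0, 1), (-226718608, 0)), ((1, 2, 2, 0), (251657856, 0)), ((1, 2, 1, 1), (752365176, 0)),
   ((1, 2, 0, 2), (-1065473952, 0)), ((1, 1, 3, 0), (-270389724, 0)), ((1, 1, 2, 1), (625893360, 0)),
   ((1, 1, 1, 2), (572448264, 0)), ((1, 1, 0, 3), (-821239416, 0)), ((1, 0, 4, 0), (-323550948, 0)),
   ((1, 0, 3, 1), (199538976, 0)), ((1, 0, 2, 2), (245004600, 0)), ((1, 0, 1, 3), (-115042380, 0)),
   ((1, 0, 0, 4), (-104641770, 0)), ((0, 5, 0, 0), (-41354496, 0)), ((0, 4, 1, 0), (94512480, 0)),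
   ((0, 4, 0, 1), (-504535584, 0)), ((0, 3, 2, 0), (7693120, 0)), ((0, 3, 1, 1), (383412816, 0)),
   ((0, 3, 0, 2), (-1128149520, 0)), ((0, 2, 3, 0), (-14010552, 0)), ((0, 2, 2, 1), (314821932, 0)),
   ((0, 2, 1, 2), (-103109268, 0)), ((0, 2, 0, 3), (-809699124, 0)), ((0, 1, 4, 0), (-112446672, 0)),
   ((0, 1, 3, 1), (102097392, 0)), ((0, 1, 2, 2), (502957788, 0)), ((0, 1, 1, 3), (-631422354, 0)),
   ((0, 1, 0, 4), (-118128462, 0)), ((0, 0, 5, 0), (-30267720, 0)), ((0, 0, 4, 1), (-98667009, 0)),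
   ((0, 0, 3, 2), (151737174, 0)), ((0, 0, 2, 3), (41186880, 0)), ((0, 0, 1, 4), (-201726189, 0)),
   ((0, 0, 0, 5), (33727725, 0))]

/-- `dx GX` (even part) through the degree 4 -/
def qx : Po :=
  [((0, 0, 0, 0), (221405184000, 0)), ((2, 0, 0, 0), (-86251156992, 0)), ((1, 1, 0, 0), (224131235328, 0)),
   ((1, 0, 1, 0), (138535892352, 0)), ((1, 0, 0, 1), (-447243468672, 0)), ((0, 2, 0, 0), (-19323532800, 0)),
   ((0, 1, 1, 0), (488030070528, 0)), ((0, 1, 0, 1), (-1531028928, 0)), ((0, 0, 2, 0), (-10091841760, 0)),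
   ((0, 0, 1, 1), (-47117790720, 0)), ((0, 0, 0, 2), (3541836480, 0)), ((4, 0, 0, 0), (89807477760, 0)),
   ((3, 1, 0, 0), (31507716240, 0)), ((3, 0, 1, 0), (393548795640, 0)), ((3, 0, 0, 1), (5200475280, 0)),
   ((2, 2, 0, 0), (-51009678720, 0)), ((2, 1, 1, 0), (692296553520, 0)), ((2, 1, 0, 1), (-418555257120, 0)),
   ((2, 0, 2, 0), (115087272300, 0)), ((2, 0, 1, 1), (596040340896, 0)), ((2, 0, 0, 2), (-490765815540, 0)),
   ((1, 3, 0, 0), (61752010320, 0)), ((1, 2, 1, 0), (-19056917880, 0)), ((1, 2, 0, 1), (242926798400, 0)),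
   ((1, 1, 2, 0), (638714316240, 0)), ((1, 1, 1, 1), (-1788007941720, 0)), ((1, 1, 0, 2), (386267689080, 0)),
   ((1, 0, 3, 0), (-283388455350, 0)), ((1, 0, 2, 1), (872630401500, 0)), ((1, 0, 1, 2), (-97680262680, 0)),
   ((1, 0, 0, 3), (59643738000, 0)), ((0, 4, 0, 0), (115493938560, 0)), ((0, 3, 1, 0), (-489096880272, 0)),
   ((0, 3, 0, 1), (954141748560, 0)), ((0, 2, 2, 0), (30391921560, 0)), ((0, 2, 1, 1), (-277701251256, 0)),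
   ((0, 2, 0, 2), (1414656783540, 0)), ((0, 1, 3, 0), (-21846644820, 0)), ((0, 1, 2, 1), (-140952471660, 0)),
   ((0, 1, 1, 2), (578002033180, 0)), ((0, 1, 0, 3), (537820633350, 0)), ((0, 0, 4, 0), (-103563409950, 0)),
   ((0, 0, 3, 1), (126236089980, 0)), ((0, 0, 2, 2), (18088900830, 0)), ((0, 0, 1, 3), (74794519800, 0)),
   ((0, 0, 0, 4), (7579046475, 0))]

/-- `dy GY` (even part) through the degree 4 -/
def qy : Po :=
  [((0, 0, 0, 0), (-996323328000, 0)), ((2, 0, 0, 0), (-1360507180032, 0)), ((1, 1, 0, 0), (140038778880, 0)),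
   ((1, 0, 1, 0), (1057745227968, 0)), ((1, 0, 0, 1), (2737277647104, 0)), ((0, 2, 0, 0), (274317069312, 0)),
   ((0, 1, 1, 0), (2342631747456, 0)), ((0, 1, 0, 1), (183973924992, 0)), ((0, 0, 2, 0), (-539710947776, 0)),
   ((0, 0, 1, 1), (867631564800, 0)), ((0, 0, 0, 2), (-707602101024, 0)), ((4, 0, 0, 0), (564289165440, 0)),
   ((3, 1, 0, 0), (398269151280, 0)), ((3, 0, 1, 0), (1297246270320, 0)), ((3, 0, 0, 1), (392474082000, 0)),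
   ((2, 2, 0, 0), (-326209403520, 0)), ((2, 1, 1, 0), (5058915301440, 0)), ((2, 1, 0, 1), (-2390483014920, 0)),
   ((2, 0, 2, 0), (-1913624933220, 0)), ((2, 0, 1, 1), (4976479275768, 0)), ((2, 0, 0, 2), (3028521151656, 0)),
   ((1, 3, 0, 0), (-2264067645840, 0)), ((1, 2, 1, 0), (638147109600, 0)), ((1, 2, 0, 1), (-2102432000240, 0)),
   ((1, 1, 2, 0), (3389066520840, 0)), ((1, 1, 1, 1), (-3920660944200, 0)), ((1, 1, 0, 2), (5700559541040, 0)),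
   ((1, 0, 3, 0), (-3203959949190, 0)), ((1, 0, 2, 1), (5686250761620, 0)), ((1, 0, 1, 2), (-390417087060, 0)),
   ((1, 0, 0, 3), (240774381540, 0)), ((0, 4, 0, 0), (503420037120, 0)), ((0, 3, 1, 0), (1199617539120, 0)),
   ((0, 3, 0, 1), (5938596223560, 0)), ((0, 2, 2, 0), (317286829860, 0)), ((0, 2, 1, 1), (-6048989657568, 0)),
   ((0, 2, 0, 2), (10713634871940, 0)), ((0, 1, 3, 0), (-383601057840, 0)), ((0, 1, 2, 1), (-329120031240, 0)),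
   ((0, 1, 1, 2), (-6575171600140, 0)), ((0, 1, 0, 3), (5276805443910, 0)), ((0, 0, 4, 0), (-739381017375, 0)),
   ((0, 0, 3, 1), (308742393960, 0)), ((0, 0, 2, 2), (273630807450, 0)), ((0, 0, 1, 3), (2834915543460, 0)),
   ((0, 0, 0, 4), (427811734350, 0))]

end Pool.Agent.Helper33.GM
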