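import Pool.Agent.Helper33.SH.GLists
import Pool.Agent.Helper33.SH.GWLists
import Pool.Agent.Helper26.SH.TailG
import Pool.Agent.Helper40.NR.Prog

/-!
# Project RC, SHARP, link (6): from the models of `GZ`, `GX`, `GY` to the rows of the budget (statement)
-/

set_option autoImplicit false

open MeasureTheory Set Filter Topology

namespace Pool.Agent.Helper33.GM

open Helper49.LT hiding sg s3
open Helper49.Sharp
open Helper56.RC (fc)
open Helper95.SH (Dat)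
open Pool.Agent.Helper20.RC (lk)
open Pool.Agent.Helper35.Cas (Po Co Mo evP uu vv)
open Pool.Agent.Helper33.SH (PI ZC b0I z0I)
open Pool.Agent.Helper33.GL (GZ GX GY TailL RB)
open Pool.Agent.Helper43.SH (LinP)
open Pool.Agent.Helper26.SH (N2)
open Pool.Agent.Helper40.NR (Z4 M3 PZ FP evF)

/-- the models of the three gradient functions (odd part of `GZ`, even parts of `GX`, `GY`) -/
structure MOD (P : Par) (bs zs : ℝ → ℂ) (A : ℝ) (B : ℂ) (ez ex ey : ℝ) : Prop where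
  z : ∀ t : ℝ, ‖(GZ P bs zs t - GZ P bs zs (t + Real.pi)) / 2 - evP (uu A t) (vv B t) qz / (dz : ℂ)‖ ≤ ez
  x : ∀ t : ℝ, ‖(GX P bs zs t + GX P bs zs (t + Real.pi)) / 2 - evP (uu A t) (vv B t) qx / (dx : ℂ)‖ ≤ ex
  y : ∀ t : ℝ, ‖(GY P bs zs t + GY P bs zs (t + Real.pi)) / 2 - evP (uu A t) (vv B t) qy / (dy : ℂ)‖ ≤ ey

/-- coefficient `k c` in the language of the budget -/
def c4 (k : ℤ) (c : Co) : Z4 := (k * c.1, 0, 0, k * c.2)
/-- coefficient `-i k c` -/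
def c4i (k : ℤ) (c : Co) : Z4 := (0, k * c.2, -(k * c.1), 0)
/-- monomial at real `A` -/
def m3 (m : Mo) : M3 := (m.1 + m.2.1, m.2.2.1, m.2.2.2)

/-- the rows of `ρ`, `Re β`, `Im β`: pairs (harmonic, fraction) -/
def rwZ (d : ℕ) (q : Po) : List (ℤ × FP) :=
  q.map fun x => (Pool.Agent.Helper35.Cas.frq x.1, ((d : ℤ), [(m3 x.1, c4 1 x.2)]))
def rwP (d : ℕ) (q : Po) : List (ℤ × FP) :=
  q.map fun x => (Pool.Agent.Helper35.Cas.frq x.1, ((d : ℤ), [(m3 x.1, c4 2 x.2)]))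
def rwR (d : ℕ) (q : Po) : List (ℤ × FP) :=
  q.map fun x => (Pool.Agent.Helper35.Cas.frq x.1, ((d : ℤ), [(m3 x.1, c4i 2 x.2)]))

/-- `∑ Re (conj g_n x_n)` -/
noncomputable def rsm (A : ℝ) (B : ℂ) (L : List (ℤ × FP)) (x : ℤ → ℂ) : ℝ :=
  (L.map fun e => ((starRingEnd ℂ) (evF A B e.2) * x e.1).re).sum

/-- (R): the rows of `LinP` -/
def StR : Prop := ∀ (c : ZC) (A : ℝ) (B : ℂ) (ez ex ey : ℝ) (β ρ : ℝ → ℂ), |A| + 3 / 2 * ‖B‖ ≤ 1 / 4 →
  (PI c A B).Reg → Dat (b0I A B) (z0I A B) → (∀ j : ℤ, 6 < |j| → fc ((PI c A B).al (b0I A B)) (2 * j) = 0) →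
  MOD (PI c A B) (b0I A B) (z0I A B) A B ez ex ey → RB β ρ →
  |LinP (PI c A B) (b0I A B) (z0I A B) β ρ - (rsm A B (rwZ dz qz) (fc ρ)
      + rsm A B (rwP dx qx) (fc fun t => ((β t).re : ℂ)) + rsm A B (rwR dy qy) (fc fun t => ((β t).im : ℂ)))| ≤
    ez * N2 (fun t => ‖ρ t‖) + 2 * ex * N2 (fun t => (β t).re) + 2 * ey * N2 (fun t => (β t).im)
      + |TailL (PI c A B) (b0I A B) (z0I A B) β ρ|

end Pool.Agent.Helper33.GM
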