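import Pool.Agent.Helper33.SH.Lin
import Pool.Agent.Helper43.SH.Base
import Pool.Agent.Helper99.RC.KcSin
import Pool.Agent.Helper35.RC.Cas

/-!
# Project RC, SHARP: the instance of the skeleton in zone I (`A + 2 |B| ≤ 1/4`, `A ≥ 0` real)

`PI c A B`: `c` collects the numbers which are fixed by the budget (`lam, pr2, h0, cs, m, rho`).
Base: `z0 = A e^{-3it} + B e^{-5it} - (1/2) conj B e^{5it}`, `b2_0 = (33/200) A² - (1/4)|B|² - (57/1000) 2Re(conj u²)`,
`b3_0 = 2Re(-(71/250) i conj u²)`, `u = A e^{-3it}` (helper43's `zB`, `bB cF`); `η = -2 A conj B`, `k = A`,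
`d = (17/20) A² - (2/5)|B|²`, directions and alignments at `(0, z0)`.
-/

set_option autoImplicit false

open MeasureTheory Set Filter Metric

namespace Pool.Agent.Helper33.SH

open Helper49.LT hiding sg s3
open Helper49.RC Helper44.GQ Helper49.Sharp
open Pool.Agent.Helper43.SH
open Pool.Agent.Helper35.Cas
open Helper95.RC (Lf)
open Pool.Agent.Helper20.RC (wR hw)

/-- the numbers of the budget -/
structure ZC where
  lam : ℝ
  pr2 : ℝ
  h0 : ℝ
  cs : ℝ
  m : ℝ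
  rho : ℝ

/-- the coefficients of `b0` -/
noncomputable def cI : BC := ⟨33 / 200, -9 / 40, -31 / 100, -11 / 200, 57 / 200, 1 / 20, -19 / 50, -7 / 25, 51 / 100, -9 / 200⟩

/-- the base -/
noncomputable def z0I (A : ℝ) (B : ℂ) : ℝ → ℂ := zB A B
noncomputable def b0I (A : ℝ) (B : ℂ) : ℝ → ℂ := bB cI A B

/-- lag and swing -/
noncomputable def dI (A : ℝ) (B : ℂ) : ℝ := 17 / 20 * A ^ 2 - 2 / 5 * ‖B‖ ^ 2

/-- THE INSTANCE -/
noncomputable def PI (c : ZC) (A : ℝ) (B : ℂ) : Par where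
  eta := -2 * A * (starRingEnd ℂ) B
  a0 := fun _ => 0
  a1 := fun t => (om + z0I A B t).arg
  a2 := fun t => (om ^ 2 - z0I A B t).arg
  ph1 := fun θ => θ - Real.pi / 3 + (om + z0I A B (θ - Real.pi / 3)).arg
  ph2 := fun θ => θ - 2 * Real.pi / 3 + (om ^ 2 - z0I A B (θ - 2 * Real.pi / 3)).arg
  rho := c.rho
  ps := Pool.Agent.Helper99.RC.ps (dI A B) A Real.pi
  nu := 1 / 12
  ga := fun _ => 0
  lam := c.lam
  pr2 := c.pr2
  h0 := c.h0
  cs := c.cs
  m := c.m
  lo := fun t b z => (21 / 25 - 4 / 5 * ‖z0I A B t‖ ^ 2) * Lf (z - z0I A B t)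
    - (b.re - (b0I A B t).re) ^ 2 - 3 / 2 * (b.im - (b0I A B t).im) ^ 2

variable (c : ZC) (A : ℝ) (B : ℂ)

/-- relative positions -/
noncomputable def ζ1 (t : ℝ) : ℂ := (starRingEnd ℂ) om * z0I A B t
noncomputable def ζ2 (t : ℝ) : ℂ := om * z0I A B t

theorem om_val : om = (1 + s3) / 2 := by
  unfold om s3 ee
  rw [show ((Real.pi / 3 : ℝ) : ℂ) * Complex.I = ((Real.pi / 3 : ℝ) : ℂ) * Complex.I from rfl, Complex.exp_mul_I,
    ← Complex.ofReal_cos, ← Complex.ofReal_sin, Real.cos_pi_div_three, Real.sin_pi_div_three]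
  push_cast
  ring

theorem om_conj : (starRingEnd ℂ) om = (1 - s3) / 2 := by
  rw [om_val]
  have h2 : (starRingEnd ℂ) (2 : ℂ) = 2 := Complex.conj_ofReal 2
  rw [map_div₀, map_add, map_one, s3_conj, h2]
  ring

theorem om_mul : om * (starRingEnd ℂ) om = 1 := by
  rw [om_conj, om_val]
  linear_combination (-(1 : ℂ) / 4) * s3_sq

theorem om_norm : ‖om‖ = 1 := by
  unfold om
  exact norm_ee _

theorem om_sq : om ^ 2 = om - 1 := by
  rw [om_val]
  linear_combination ((1 : ℂ) / 4) * s3_sq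

theorem om_cube : om ^ 3 = -1 := by
  have h := om_sq
  linear_combination (om + 1) * h

theorem e1_eq (t : ℝ) : om + z0I A B t = om * (1 + ζ1 A B t) := by
  unfold ζ1
  linear_combination (-z0I A B t) * om_mul

theorem e2_eq (t : ℝ) : om ^ 2 - z0I A B t = om ^ 2 * (1 + ζ2 A B t) := by
  unfold ζ2
  linear_combination (-z0I A B t) * om_cube

theorem norm_ζ1 (t : ℝ) : ‖ζ1 A B t‖ = ‖z0I A B t‖ := by
  unfold ζ1
  rw [norm_mul, Complex.norm_conj, om_norm, one_mul]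

theorem norm_ζ2 (t : ℝ) : ‖ζ2 A B t‖ = ‖z0I A B t‖ := by
  unfold ζ2
  rw [norm_mul, om_norm, one_mul]

theorem norm_z0I (t : ℝ) : ‖z0I A B t‖ ≤ |A| + 3 / 2 * ‖B‖ := by
  unfold z0I
  rw [zB_eq]
  refine (norm_sub_le _ _).trans ?_
  refine (add_le_add (norm_add_le _ _) le_rfl).trans ?_
  rw [norm_mul, norm_mul, norm_mul, norm_mul, norm_ee, norm_ee, norm_ee, Complex.norm_conj, Complex.norm_real,
    Real.norm_eq_abs]
  norm_num
  linarith

/-- unit vectors of the base -/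
theorem ee_arg {x : ℂ} (hx : x ≠ 0) : ee x.arg = x / (‖x‖ : ℂ) := by
  have h1 := Complex.norm_mul_exp_arg_mul_I x
  have h2 : (‖x‖ : ℂ) ≠ 0 := by
    simpa using hx
  unfold ee
  rw [eq_div_iff h2, mul_comm]
  exact h1

theorem u1_eq (t : ℝ) (h : ‖z0I A B t‖ < 1) :
    (PI c A B).u1 t = om * ((1 + ζ1 A B t) / (‖1 + ζ1 A B t‖ : ℂ)) := by
  show ee (om + z0I A B t).arg = _
  have hz : ‖ζ1 A B t‖ < 1 := by rwa [norm_ζ1]
  have hF : 1 + ζ1 A B t ≠ 0 := by
    intro h0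
    have : ζ1 A B t = -1 := by linear_combination h0
    rw [this] at hz
    simp at hz
  have hom : om ≠ 0 := by
    intro h0
    have := om_norm
    rw [h0] at this
    simp at this
  rw [e1_eq, ee_arg (mul_ne_zero hom hF), norm_mul, om_norm, one_mul, mul_div_assoc]

theorem u2_eq (t : ℝ) (h : ‖z0I A B t‖ < 1) :
    (PI c A B).u2 t = om ^ 2 * ((1 + ζ2 A B t) / (‖1 + ζ2 A B t‖ : ℂ)) := by
  show ee (om ^ 2 - z0I A B t).arg = _
  have hz : ‖ζ2 A B t‖ < 1 := by rwa [norm_ζ2]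
  have hF : 1 + ζ2 A B t ≠ 0 := by
    intro h0
    have : ζ2 A B t = -1 := by linear_combination h0
    rw [this] at hz
    simp at hz
  have hom : om ^ 2 ≠ 0 := by
    intro h0
    have := om_norm
    rw [pow_eq_zero_iff (by norm_num)] at h0
    rw [h0] at this
    simp at this
  rw [e2_eq, ee_arg (mul_ne_zero hom hF), norm_mul, norm_pow, om_norm, one_pow, one_mul, mul_div_assoc]

theorem v1_eq (t : ℝ) : (PI c A B).v1 t = (PI c A B).u1 t := by
  show ee (t + Real.pi / 3 - Real.pi / 3 + (om + z0I A B (t + Real.pi / 3 - Real.pi / 3)).arg - t) =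
    ee (om + z0I A B t).arg
  rw [add_sub_cancel_right]
  congr 1
  ring

theorem v2_eq (t : ℝ) : (PI c A B).v2 t = (PI c A B).u2 t := by
  show ee (t + 2 * Real.pi / 3 - 2 * Real.pi / 3 +
    (om ^ 2 - z0I A B (t + 2 * Real.pi / 3 - 2 * Real.pi / 3)).arg - t) = ee (om ^ 2 - z0I A B t).arg
  rw [add_sub_cancel_right]
  congr 1
  ring

/-- the support function of the weight: `H + i H' = 1 + E/3 - conj E`, `E = η e^{2iφ}` -/
theorem H_hw (φ : ℝ) : ((PI c A B).H φ : ℂ) + Complex.I * ((PI c A B).H1 φ : ℂ) =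
    1 + (PI c A B).eta * ee (2 * φ) / 3 - (starRingEnd ℂ) ((PI c A B).eta * ee (2 * φ)) := by
  have h0 : hA (fun _ => (0 : ℂ)) φ = 0 := by
    unfold hA
    simp
  have h1 : hA1 (fun _ => (0 : ℂ)) φ = 0 := by
    unfold hA1
    simp
  have e0 : (PI c A B).H φ = hw (PI c A B).eta 0 0 φ + hA (fun _ => (0 : ℂ)) φ := rfl
  have e1 : (PI c A B).H1 φ = 4 / 3 * ((PI c A B).eta * ee (2 * φ)).im + hA1 (fun _ => (0 : ℂ)) φ := rfl
  rw [e0, e1, h0, h1]
  unfold hw
  set E := (PI c A B).eta * ee (2 * φ)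
  apply Complex.ext
  · simp
    ring
  · simp
    ring

/-- the local directions of zone I -/
theorem W1_eq (t : ℝ) : W1 (PI c A B) t = (1 + (PI c A B).eta * ee (2 * t) * (PI c A B).u1 t ^ 2 / 3
      - (starRingEnd ℂ) ((PI c A B).eta * ee (2 * t) * (PI c A B).u1 t ^ 2)) * (PI c A B).u1 t := by
  unfold W1
  rw [H_hw, v1_eq, sub_self, mul_zero, sub_zero]
  have e : ee (2 * (PI c A B).th1 t) = ee (2 * t) * (PI c A B).u1 t ^ 2 := by
    show ee (2 * (t + (PI c A B).a1 t)) = ee (2 * t) * ee ((PI c A B).a1 t) ^ 2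
    rw [sq, ← ee_add, ← ee_add]
    congr 1
    ring
  rw [e, mul_assoc]

theorem W2_eq (t : ℝ) : W2 (PI c A B) t = (1 + (PI c A B).eta * ee (2 * t) * (PI c A B).u2 t ^ 2 / 3
      - (starRingEnd ℂ) ((PI c A B).eta * ee (2 * t) * (PI c A B).u2 t ^ 2)) * (PI c A B).u2 t := by
  unfold W2
  rw [H_hw, v2_eq, sub_self, mul_zero, sub_zero]
  have e : ee (2 * (PI c A B).th2 t) = ee (2 * t) * (PI c A B).u2 t ^ 2 := by
    show ee (2 * (t + (PI c A B).a2 t)) = ee (2 * t) * ee ((PI c A B).a2 t) ^ 2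
    rw [sq, ← ee_add, ← ee_add]
    congr 1
    ring
  rw [e, mul_assoc]

end Pool.Agent.Helper33.SH
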