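import Pool.Agent.Helper49.RC.StSharp

/-!
# Project RC, SHARP, link (6): the linear part of the local term `w TL` in the rest variables (skeleton v3)
-/

set_option autoImplicit false

open MeasureTheory Set Filter Metric

namespace Pool.Agent.Helper33.SH

open Helper49.LT hiding sg
open Helper49.RC Helper44.GQ Helper49.Sharp

theorem g1_re (b z : ℂ) : (g1 b z).re = Real.sqrt 3 * b.im + (1 + b.re) / 2 + z.re := by
  simp [g1, cQ, aQ]
  ring

theorem g1_im (b z : ℂ) : (g1 b z).im = Real.sqrt 3 / 2 * (1 - b.re) + b.im / 4 + z.im := by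
  simp [g1, cQ, aQ]
  ring

theorem g2_re (b z : ℂ) : (g2 b z).re = Real.sqrt 3 * b.im - (1 + b.re) / 2 - z.re := by
  simp [g2, cQ, aQ]
  ring

theorem g2_im (b z : ℂ) : (g2 b z).im = Real.sqrt 3 / 2 * (1 - b.re) - b.im / 4 - z.im := by
  simp [g2, cQ, aQ]
  ring

/-- the local directions -/
noncomputable def W1 (P : Par) (t : ℝ) : ℂ :=
  ((P.H (P.th1 t) : ℂ) + Complex.I * (P.H1 (P.th1 t) : ℂ)) * P.u1 t - (P.lam : ℂ) * (P.u1 t - P.v1 t)
noncomputable def W2 (P : Par) (t : ℝ) : ℂ :=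
  ((P.H (P.th2 t) : ℂ) + Complex.I * (P.H1 (P.th2 t) : ℂ)) * P.u2 t - (P.lam : ℂ) * (P.u2 t - P.v2 t)

/-- gradient functions of the affine part and of `(9 - cs) |b|²` at `b0`, in the variables `ρ`, `β₂`, `β₃` -/
noncomputable def gz (P : Par) (t : ℝ) : ℂ := 2 * (W1 P t - W2 P t)
noncomputable def gb2 (P : Par) (b0 : ℝ → ℂ) (t : ℝ) : ℝ :=
  (W1 P t).re - (W2 P t).re - Real.sqrt 3 * ((W1 P t).im + (W2 P t).im) + 2 * (9 - P.cs) * (b0 t).re
noncomputable def gb3 (P : Par) (b0 : ℝ → ℂ) (t : ℝ) : ℝ :=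
  2 * Real.sqrt 3 * ((W1 P t).re + (W2 P t).re) + 1 / 2 * ((W1 P t).im - (W2 P t).im)
    + 2 * (9 - P.cs) * (b0 t).im

/-- the local term through the local directions -/
theorem TL_W (P : Par) (t : ℝ) (b z : ℂ) : P.TL t b z =
    2 * ((starRingEnd ℂ) (W1 P t) * g1 b z).re + 2 * ((starRingEnd ℂ) (W2 P t) * g2 b z).re
      + (9 - P.cs) * ‖b‖ ^ 2 + (P.m - P.lam) * P.lo t b z := by
  unfold Par.TL Par.T1 Par.T2 W1 W2
  simp only [map_add, map_sub, map_mul, Complex.conj_I, Complex.conj_ofReal, Complex.mul_re, Complex.mul_im,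
    Complex.add_re, Complex.add_im, Complex.sub_re, Complex.sub_im, Complex.neg_re, Complex.neg_im,
    Complex.ofReal_re, Complex.ofReal_im, Complex.I_re, Complex.I_im, Complex.conj_re, Complex.conj_im]
  ring

/-- EXACT EXPANSION of the local term about `(b0, z0)` -/
theorem TL_lin (P : Par) (b z b0 z0 : ℝ → ℂ) (t : ℝ) : P.w t * P.TL t (b t) (z t) =
    P.w t * P.TL t (b0 t) (z0 t) + ((starRingEnd ℂ) (gz P t) * ((P.w t : ℂ) * (z t - z0 t))).re
      + gb2 P b0 t * (P.w t * ((b t).re - (b0 t).re)) + gb3 P b0 t * (P.w t * ((b t).im - (b0 t).im))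
      + (9 - P.cs) * (P.w t * ‖b t - b0 t‖ ^ 2)
      + (P.m - P.lam) * (P.w t * (P.lo t (b t) (z t) - P.lo t (b0 t) (z0 t))) := by
  rw [TL_W, TL_W]
  unfold gz gb2 gb3
  have h2 : (starRingEnd ℂ) (2 * (W1 P t - W2 P t)) * ((P.w t : ℂ) * (z t - z0 t)) =
      ((2 * P.w t : ℝ) : ℂ) * ((starRingEnd ℂ) (W1 P t - W2 P t) * (z t - z0 t)) := by
    push_cast
    rw [map_mul]
    have : (starRingEnd ℂ) 2 = 2 := Complex.conj_ofReal 2
    rw [this]
    ring
  rw [h2, Complex.re_ofReal_mul]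
  have n1 : ∀ x : ℂ, ‖x‖ ^ 2 = x.re ^ 2 + x.im ^ 2 := fun x => by
    rw [← Complex.normSq_eq_norm_sq, Complex.normSq_apply]; ring
  rw [n1, n1, n1]
  simp only [Complex.mul_re, Complex.conj_re, Complex.conj_im, g1_re, g1_im, g2_re, g2_im, Complex.sub_re,
    Complex.sub_im, map_sub]
  ring

end Pool.Agent.Helper33.SH
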