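import Pool.Agent.Helper35.SH.Mom
import Pool.Agent.Helper33.SH.Inst

/-!
# Project RC, SHARP: sums `∑_m K_m(t) u_j(t)^m` of powers of the base unit vectors as lists

`wL Z sg s K L`: list for the parity part `s` of `∑_{x ∈ L} K_x om^{sg m_x} ((1+ζ)/|1+ζ|)^{m_x}`, `4 ζ = Z`,
with the common denominator `2 d 16^K`.
-/

set_option autoImplicit false

open MeasureTheory Filter Metric

namespace Pool.Agent.Helper33.SH

open Helper49.LT hiding sg s3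
open Helper49.RC (om)
open Pool.Agent.Helper35.RC
open Pool.Agent.Helper35.Cas

/-- `2 om^k` -/
def om2 (k : ℤ) : Co :=
  if k % 6 = 0 then (2, 0) else if k % 6 = 1 then (1, 1) else if k % 6 = 2 then (-1, 1)
  else if k % 6 = 3 then (-2, 0) else if k % 6 = 4 then (-1, -1) else (1, -1)

theorem om_ne : om ≠ 0 := by
  intro h0
  have := om_norm
  rw [h0] at this
  simp at this

theorem om2_eq (k : ℤ) : evC (om2 k) = 2 * om ^ k := by
  have h6 : om ^ (6 : ℤ) = 1 := by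
    have := om_cube
    rw [show (6 : ℤ) = ((6 : ℕ) : ℤ) by norm_num, zpow_natCast, show (6 : ℕ) = 3 * 2 by norm_num, pow_mul, this]
    norm_num
  have hk : om ^ k = om ^ (k % 6) := by
    conv_lhs => rw [← Int.emod_add_mul_ediv k 6]
    rw [zpow_add₀ om_ne, zpow_mul, h6, one_zpow, mul_one]
  rw [hk]
  have hsq := om_sq
  have hv := om_val
  have h0 : 0 ≤ k % 6 := Int.emod_nonneg _ (by norm_num)
  have h1 : k % 6 < 6 := Int.emod_lt_of_pos _ (by norm_num)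
  have n2 : om ^ 2 = (-1 + s3) / 2 := by rw [hsq, hv]; ring
  have n3 : om ^ 3 = -1 := om_cube
  have n4 : om ^ 4 = (-1 - s3) / 2 := by
    rw [show (4 : ℕ) = 3 + 1 by norm_num, pow_succ, n3, hv]; ring
  have n5 : om ^ 5 = (1 - s3) / 2 := by
    rw [show (5 : ℕ) = 3 + 2 by norm_num, pow_add, n3, n2]; ring
  unfold om2 evC
  have hc : k % 6 = 0 ∨ k % 6 = 1 ∨ k % 6 = 2 ∨ k % 6 = 3 ∨ k % 6 = 4 ∨ k % 6 = 5 := by omega
  rcases hc with h | h | h | h | h | h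
  · rw [h]; norm_num
  · rw [h]
    simp only [show ¬ ((1 : ℤ) = 0) by norm_num, if_false, if_true]
    rw [zpow_one, hv]; push_cast; ring
  · rw [h]
    simp only [show ¬ ((2 : ℤ) = 0) by norm_num, show ¬ ((2 : ℤ) = 1) by norm_num, if_false, if_true]
    rw [show (2 : ℤ) = ((2 : ℕ) : ℤ) by norm_num, zpow_natCast, n2]; push_cast; ring
  · rw [h]
    simp only [show ¬ ((3 : ℤ) = 0) by norm_num, show ¬ ((3 : ℤ) = 1) by norm_num,
      show ¬ ((3 : ℤ) = 2) by norm_num, if_false, if_true]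
    rw [show (3 : ℤ) = ((3 : ℕ) : ℤ) by norm_num, zpow_natCast, n3]; push_cast; ring
  · rw [h]
    simp only [show ¬ ((4 : ℤ) = 0) by norm_num, show ¬ ((4 : ℤ) = 1) by norm_num,
      show ¬ ((4 : ℤ) = 2) by norm_num, show ¬ ((4 : ℤ) = 3) by norm_num, if_false, if_true]
    rw [show (4 : ℤ) = ((4 : ℕ) : ℤ) by norm_num, zpow_natCast, n4]; push_cast; ring
  · rw [h]
    simp only [show ¬ ((5 : ℤ) = 0) by norm_num, show ¬ ((5 : ℤ) = 1) by norm_num,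
      show ¬ ((5 : ℤ) = 2) by norm_num, show ¬ ((5 : ℤ) = 3) by norm_num,
      show ¬ ((5 : ℤ) = 4) by norm_num, if_false]
    rw [show (5 : ℤ) = ((5 : ℕ) : ℤ) by norm_num, zpow_natCast, n5]; push_cast; ring

/-- one term: exponent, coefficient list, majorant constants of the two parities -/
structure Tm where
  m : ℤ
  kP : Po
  G : ℚ

/-- the list of the sum -/
def wL (Z : Po) (sg : ℤ) (s K : ℕ) : List Tm → Po
  | [] => []
  | x :: L => addP (smP (om2 (sg * x.m)) (mulP x.kP (sumS Z x.m (-x.m) s K K))) (wL Z sg s K L)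

/-- all checks of one term -/
def chkTm (s K : ℕ) (x : Tm) : Bool :=
  decide (s < 2) && (K % 2 == s) && decide (|(x.m : ℚ) / 2| ≤ 11 / 2) && decide (|((-x.m : ℤ) : ℚ) / 2| ≤ 11 / 2)
  && chkE ((x.m : ℚ) / 2) (((-x.m : ℤ) : ℚ) / 2) x.G K && chkB x.m K && chkB (-x.m) K

/-- the parity part of a power of the unit vector has norm at most 1 -/
theorem Ph_unit_norm (a : ℝ) (ζ : ℂ) (h : ‖ζ‖ < 1) : ‖Ph a (-a) ζ‖ = 1 := by
  have hF : 1 + ζ ≠ 0 := by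
    intro h0
    have : ζ = -1 := by linear_combination h0
    rw [this] at h
    simp at h
  have hp : 0 < ‖1 + ζ‖ := norm_pos_iff.2 hF
  unfold Ph
  rw [cpow_ofReal _ hF, cpow_ofReal _ hF, norm_mul, Complex.norm_conj, norm_mul, norm_mul,
    Complex.norm_exp_ofReal_mul_I, Complex.norm_exp_ofReal_mul_I, Complex.norm_real, Complex.norm_real,
    Real.norm_of_nonneg (by positivity), Real.norm_of_nonneg (by positivity), mul_one, mul_one,
    ← Real.rpow_add hp]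
  simp

theorem pp_norm (s : ℕ) (a : ℝ) (ζ : ℂ) (h : ‖ζ‖ < 1) : ‖pp s a (-a) ζ‖ ≤ 1 := by
  unfold pp
  have h1 := Ph_unit_norm a ζ h
  have h2 := Ph_unit_norm a (-ζ) (by rwa [norm_neg])
  rw [norm_div, Complex.norm_two]
  have h3 : ‖Ph a (-a) ζ + (-1) ^ s * Ph a (-a) (-ζ)‖ ≤ 1 + 1 := by
    refine (norm_add_le _ _).trans ?_
    rw [norm_mul, norm_pow, norm_neg, norm_one, one_pow, one_mul, h1, h2]
  linarith

theorem tm_err {Z : Po} {s K : ℕ} {x : Tm} (hx : chkTm s K x = true) {u v ζ Kc : ℂ} {d X M κ : ℝ}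
    (hd : 0 < d) (hZ : evP u v Z = 4 * ζ) (hX : ‖ζ‖ ≤ X) (hX1 : X ≤ 2 / 5)
    (hM : ‖evP u v x.kP / d‖ ≤ M) (hκ : ‖Kc - evP u v x.kP / d‖ ≤ κ) :
    ‖Kc * pp s ((x.m : ℝ) / 2) (-((x.m : ℝ) / 2)) ζ
      - evP u v (mulP x.kP (sumS Z x.m (-x.m) s K K)) / (d * 16 ^ K)‖ ≤ M * (x.G * X ^ K) + κ := by
  unfold chkTm at hx
  simp only [Bool.and_eq_true, decide_eq_true_eq, beq_iff_eq] at hx
  obtain ⟨⟨⟨⟨⟨⟨hs, hK⟩, hp⟩, hq⟩, hE⟩, hbp⟩, hbq⟩ := hx
  have hz : ‖ζ‖ ≤ 2 / 5 := hX.trans hX1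
  have hz1 : ‖ζ‖ < 1 := by linarith
  have hr := pp_rem _ _ _ s K hs hK hp hq hE ζ hz
  have e1 : (((x.m : ℚ) / 2 : ℚ) : ℝ) = (x.m : ℝ) / 2 := by push_cast; rfl
  have e2 : ((((-x.m : ℤ) : ℚ) / 2 : ℚ) : ℝ) = -((x.m : ℝ) / 2) := by push_cast; ring
  rw [e1, e2] at hr
  have hS := evP_sumS u v ζ Z hZ x.m (-x.m) s K hbp hbq K le_rfl
  have e3 : (((-x.m : ℤ) : ℝ)) / 2 = -((x.m : ℝ) / 2) := by push_cast; ring
  rw [e3] at hS
  set S := ∑ k ∈ (Finset.range K).filter (fun k => k % 2 = s), TT ((x.m : ℝ) / 2) (-((x.m : ℝ) / 2)) k ζ with hSd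
  have h16 : (16 : ℂ) ^ K ≠ 0 := pow_ne_zero _ (by norm_num)
  have hdc : (d : ℂ) ≠ 0 := by exact_mod_cast hd.ne'
  have e4 : Kc * pp s ((x.m : ℝ) / 2) (-((x.m : ℝ) / 2)) ζ
      - evP u v (mulP x.kP (sumS Z x.m (-x.m) s K K)) / (d * 16 ^ K) =
      (evP u v x.kP / d) * (pp s ((x.m : ℝ) / 2) (-((x.m : ℝ) / 2)) ζ - S)
        + (Kc - evP u v x.kP / d) * pp s ((x.m : ℝ) / 2) (-((x.m : ℝ) / 2)) ζ := by
    rw [evP_mul, hS]
    field_simp
    ring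
  rw [e4]
  refine (norm_add_le _ _).trans ?_
  rw [norm_mul, norm_mul]
  have hG0 : 0 ≤ (x.G : ℝ) * ‖ζ‖ ^ K := (norm_nonneg _).trans hr
  have hM0 : 0 ≤ M := (norm_nonneg _).trans hM
  have hκ0 : 0 ≤ κ := (norm_nonneg _).trans hκ
  have h1 : ‖evP u v x.kP / d‖ * ‖pp s ((x.m : ℝ) / 2) (-((x.m : ℝ) / 2)) ζ - S‖ ≤ M * (x.G * X ^ K) := by
    refine mul_le_mul hM (hr.trans ?_) (norm_nonneg _) hM0
    by_cases hG : (0 : ℝ) ≤ (x.G : ℝ)
    · exact mul_le_mul_of_nonneg_left (pow_le_pow_left₀ (norm_nonneg _) hX _) hG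
    · have hG' := not_le.1 hG
      have h0 : ‖ζ‖ ^ K = 0 := by
        have h5 : 0 ≤ ‖ζ‖ ^ K := by positivity
        rcases h5.lt_or_eq with h6 | h6
        · exact absurd hG0 (not_le.2 (mul_neg_of_neg_of_pos hG' h6))
        · exact h6.symm
      exfalso
      -- the constant is nonnegative: the majorant at `2/5`
      have h7 := pp_rem _ _ _ s K hs hK hp hq hE ((2 / 5 : ℝ) : ℂ) (by
        rw [Complex.norm_real]; norm_num)
      have h8 : 0 ≤ (x.G : ℝ) * ‖((2 / 5 : ℝ) : ℂ)‖ ^ K := (norm_nonneg _).trans h7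
      rw [Complex.norm_real, Real.norm_of_nonneg (by norm_num)] at h8
      exact absurd h8 (not_le.2 (mul_neg_of_neg_of_pos hG' (by positivity)))
  have h2 : ‖Kc - evP u v x.kP / d‖ * ‖pp s ((x.m : ℝ) / 2) (-((x.m : ℝ) / 2)) ζ‖ ≤ κ * 1 :=
    mul_le_mul hκ (pp_norm s _ ζ hz1) (norm_nonneg _) hκ0
  linarith

/-- THE LEMMA FOR SUMS -/
theorem wL_err {Z : Po} {s K : ℕ} {sg : ℤ} {u v ζ : ℂ} {d X : ℝ} (hd : 0 < d) (hZ : evP u v Z = 4 * ζ)
    (hX : ‖ζ‖ ≤ X) (hX1 : X ≤ 2 / 5) (Kf : Tm → ℂ) (Mf κf : Tm → ℝ) : ∀ L : List Tm,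
    (∀ x ∈ L, chkTm s K x = true) → (∀ x ∈ L, ‖evP u v x.kP / d‖ ≤ Mf x) →
    (∀ x ∈ L, ‖Kf x - evP u v x.kP / d‖ ≤ κf x) →
    ‖(L.map fun x => Kf x * om ^ (sg * x.m) * pp s ((x.m : ℝ) / 2) (-((x.m : ℝ) / 2)) ζ).sum
      - evP u v (wL Z sg s K L) / (2 * d * 16 ^ K)‖ ≤ (L.map fun x => Mf x * (x.G * X ^ K) + κf x).sum
  | [], _, _, _ => by simp [wL]
  | x :: L, h1, h2, h3 => by
    have ih := wL_err (sg := sg) hd hZ hX hX1 Kf Mf κf L (fun y hy => h1 y (List.mem_cons_of_mem _ hy))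
      (fun y hy => h2 y (List.mem_cons_of_mem _ hy)) (fun y hy => h3 y (List.mem_cons_of_mem _ hy))
    have hx := tm_err (h1 x List.mem_cons_self) hd hZ hX hX1 (h2 x List.mem_cons_self)
      (h3 x List.mem_cons_self)
    rw [List.map_cons, List.sum_cons, List.map_cons, List.sum_cons, wL, evP_add, evP_sm, om2_eq]
    have e : Kf x * om ^ (sg * x.m) * pp s ((x.m : ℝ) / 2) (-((x.m : ℝ) / 2)) ζ
        + (L.map fun x => Kf x * om ^ (sg * x.m) * pp s ((x.m : ℝ) / 2) (-((x.m : ℝ) / 2)) ζ).sum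
        - (2 * om ^ (sg * x.m) * evP u v (mulP x.kP (sumS Z x.m (-x.m) s K K)) + evP u v (wL Z sg s K L))
          / (2 * d * 16 ^ K) =
        om ^ (sg * x.m) * (Kf x * pp s ((x.m : ℝ) / 2) (-((x.m : ℝ) / 2)) ζ
          - evP u v (mulP x.kP (sumS Z x.m (-x.m) s K K)) / (d * 16 ^ K))
        + ((L.map fun x => Kf x * om ^ (sg * x.m) * pp s ((x.m : ℝ) / 2) (-((x.m : ℝ) / 2)) ζ).sum
          - evP u v (wL Z sg s K L) / (2 * d * 16 ^ K)) := by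
      have h16 : (16 : ℂ) ^ K ≠ 0 := pow_ne_zero _ (by norm_num)
      have hdc : (d : ℂ) ≠ 0 := by exact_mod_cast hd.ne'
      field_simp
      ring
    rw [e]
    refine (norm_add_le _ _).trans (add_le_add ?_ ih)
    rw [norm_mul, norm_zpow, om_norm, one_zpow, one_mul]
    exact hx

/-- the base in the two families -/
def Z1 : Po := [((1, 0, 0, 0), (2, -2)), ((0, 0, 1, 0), (2, -2)), ((0, 0, 0, 1), (-1, 1))]
def Z2 : Po := [((1, 0, 0, 0), (2, 2)), ((0, 0, 1, 0), (2, 2)), ((0, 0, 0, 1), (-1, -1))]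

theorem Z1_eq (A : ℝ) (B : ℂ) (t : ℝ) : evP (uu A t) (vv B t) Z1 = 4 * ζ1 A B t := by
  unfold Z1 ζ1 z0I Pool.Agent.Helper43.SH.zB Pool.Agent.Helper43.SH.zp uu vv
  rw [om_conj]
  simp only [evP_cons, evP_nil, evC, evM]
  push_cast
  ring

theorem Z2_eq (A : ℝ) (B : ℂ) (t : ℝ) : evP (uu A t) (vv B t) Z2 = 4 * ζ2 A B t := by
  unfold Z2 ζ2 z0I Pool.Agent.Helper43.SH.zB Pool.Agent.Helper43.SH.zp uu vv
  rw [om_val]
  simp only [evP_cons, evP_nil, evC, evM]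
  push_cast
  ring

end Pool.Agent.Helper33.SH
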